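import Pool.Agent.R776.SmallIso

/-!
Local diffeomorphisms which are the identity off a compact set are bijective; symplectic maps
without negative real multipliers are isotopic to the identity.
-/

set_option autoImplicit false

open Set Filter Topology
open scoped ContDiff NNReal

namespace Pool.Agent.R776

variable {E : Type*} [NormedAddCommGroup E] [NormedSpace ℝ E] [FiniteDimensional ℝ E]

/-- A smooth map with invertible derivatives which is the identity off a compact set is
bijective. -/
lemma bijective_of_localDiffeo {F : E → E} (hF : ContDiff ℝ ∞ F) {K : Set E} (hK : IsCompact K)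
    (hid : ∀ x, x ∉ K → F x = x)
    (hinv : ∀ x, ∃ A : E ≃L[ℝ] E, HasFDerivAt F (A : E →L[ℝ] E) x) : Function.Bijective F := by
  rcases subsingleton_or_nontrivial E with hE | hE
  · exact ⟨fun x y _ => Subsingleton.elim x y, fun y => ⟨y, Subsingleton.elim _ _⟩⟩
  have hcont : Continuous F := hF.continuous
  have hmap : ∀ x, map F (𝓝 x) = 𝓝 (F x) := fun x => by
    obtain ⟨A, hA⟩ := hinv x
    exact (hF.contDiffAt.hasStrictFDerivAt' hA (by simp)).map_nhds_eq_of_equiv
  have hopen : IsOpenMap F := IsOpenMap.of_nhds_le fun x => (hmap x).ge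
  have hloc : ∀ x, ∃ U ∈ 𝓝 x, InjOn F U := fun x => by
    obtain ⟨A, hA⟩ := hinv x
    have h1 := hF.contDiffAt.hasStrictFDerivAt' hA (by simp)
    exact ⟨(h1.toOpenPartialHomeomorph F).source,
      (h1.toOpenPartialHomeomorph F).open_source.mem_nhds h1.mem_toOpenPartialHomeomorph_source,
      (h1.toOpenPartialHomeomorph F).injOn⟩
  -- the displacement is bounded
  obtain ⟨C, hC⟩ : ∃ C : ℝ, ∀ x, ‖F x - x‖ ≤ C := by
    obtain ⟨C, hC⟩ := (hK.image (hcont.sub continuous_id).norm).bddAbove
    refine ⟨max C 0, fun x => ?_⟩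
    by_cases hx : x ∈ K
    · exact (hC ⟨x, hx, rfl⟩).trans (le_max_left _ _)
    · rw [hid x hx, sub_self, norm_zero]
      exact le_max_right _ _
  have hC' : ∀ x, ‖x‖ ≤ ‖F x‖ + C := fun x => by
    calc ‖x‖ = ‖F x - (F x - x)‖ := by rw [sub_sub_cancel]
      _ ≤ ‖F x‖ + ‖F x - x‖ := norm_sub_le _ _
      _ ≤ _ := by linarith [hC x]
  constructor
  · -- the set of pairs with the same image
    let P : Set (E × E) := {p | F p.1 = F p.2 ∧ p.1 ≠ p.2}
    have hPclosed : IsClosed P := by
      rw [← isOpen_compl_iff, isOpen_iff_mem_nhds]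
      rintro ⟨x, y⟩ hxy
      by_cases h : F x = F y
      · have hxy' : x = y := by
          by_contra h2
          exact hxy ⟨h, h2⟩
        subst hxy'
        obtain ⟨U, hU, hinj⟩ := hloc x
        filter_upwards [prod_mem_nhds hU hU] with p hp h3
        exact h3.2 (hinj hp.1 hp.2 h3.1)
      · have h1 : {p : E × E | F p.1 ≠ F p.2} ∈ 𝓝 (x, y) :=
          (isOpen_ne_fun (hcont.comp continuous_fst) (hcont.comp continuous_snd)).mem_nhds h
        filter_upwards [h1] with p hp h3 using hp h3.1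
    obtain ⟨R, hR⟩ := (hK.image hcont).isBounded.subset_closedBall (0 : E)
    have hPbd : P ⊆ Metric.closedBall 0 (R + C) ×ˢ Metric.closedBall 0 (R + C) := by
      rintro ⟨x, y⟩ ⟨h1, h2⟩
      have h1' : F x = F y := h1
      have h2' : x ≠ y := h2
      have h3 : ‖F x‖ ≤ R := by
        by_cases hx : x ∈ K
        · simpa using hR ⟨x, hx, rfl⟩
        · by_cases hy : y ∈ K
          · rw [h1']
            simpa using hR ⟨y, hy, rfl⟩
          · rw [hid x hx, hid y hy] at h1'
            exact absurd h1' h2'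
      have h4 : ‖F y‖ ≤ R := h1' ▸ h3
      refine ⟨?_, ?_⟩
      · rw [mem_closedBall_zero_iff]
        exact (hC' x).trans (by linarith)
      · rw [mem_closedBall_zero_iff]
        exact (hC' y).trans (by linarith)
    have hPcomp : IsCompact P :=
      ((isCompact_closedBall (0 : E) (R + C)).prod (isCompact_closedBall (0 : E)
        (R + C))).of_isClosed_subset hPclosed hPbd
    have hQ : IsCompact ((fun p : E × E => F p.1) '' P) :=
      hPcomp.image (hcont.comp continuous_fst)
    have hQo : IsOpen ((fun p : E × E => F p.1) '' P) := by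
      rw [isOpen_iff_mem_nhds]
      rintro _ ⟨⟨x, y⟩, ⟨h1, h2⟩, rfl⟩
      obtain ⟨U, V, hU, hV, hxU, hyV, hUV⟩ := t2_separation h2
      have h3 : F '' U ∈ 𝓝 (F x) := (hopen U hU).mem_nhds ⟨x, hxU, rfl⟩
      have h4 : F '' V ∈ 𝓝 (F x) := by
        have h1' : F x = F y := h1
        rw [h1']
        exact (hopen V hV).mem_nhds ⟨y, hyV, rfl⟩
      filter_upwards [h3, h4] with z hz1 hz2
      obtain ⟨a, ha, rfl⟩ := hz1
      obtain ⟨b, hb, hab⟩ := hz2
      exact ⟨(a, b), ⟨hab.symm, fun h => (hUV.ne_of_mem ha hb) h⟩, rfl⟩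
    have hclopen : IsClopen ((fun p : E × E => F p.1) '' P) := ⟨hQ.isClosed, hQo⟩
    have hempty : (fun p : E × E => F p.1) '' P = ∅ := by
      rcases isClopen_iff.1 hclopen with h | h
      · exact h
      · rw [h] at hQ
        exact absurd hQ (noncompact_univ E)
    intro x y hxy
    by_contra h
    have : F x ∈ (fun p : E × E => F p.1) '' P := ⟨(x, y), ⟨hxy, h⟩, rfl⟩
    rw [hempty] at this
    exact this
  · have hcl : IsClosed (range F) := by
      refine IsSeqClosed.isClosed ?_
      intro u y hu hy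
      choose x hx using hu
      have hux : ∀ k, F (x k) = u k := hx
      obtain ⟨R, hR⟩ := (Metric.isBounded_range_of_tendsto u hy).subset_closedBall (0 : E)
      have hb : ∀ k, x k ∈ Metric.closedBall (0 : E) (R + C) := fun k => by
        rw [mem_closedBall_zero_iff]
        have h1 := hC' (x k)
        rw [hux] at h1
        have h2 := hR ⟨k, rfl⟩
        rw [mem_closedBall_zero_iff] at h2
        linarith
      obtain ⟨a, _, θ, hθ, hlim⟩ := (isCompact_closedBall (0 : E) (R + C)).tendsto_subseq hb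
      have h1 : Tendsto (fun k => F (x (θ k))) atTop (𝓝 (F a)) := (hcont.tendsto a).comp hlim
      have h2 : Tendsto (fun k => F (x (θ k))) atTop (𝓝 y) := by
        have h3 : (fun k => F (x (θ k))) = fun k => u (θ k) := funext fun k => hux (θ k)
        rw [h3]
        exact hy.comp hθ.tendsto_atTop
      exact ⟨a, tendsto_nhds_unique h1 h2⟩
    have hclopen : IsClopen (range F) := ⟨hcl, hopen.isOpen_range⟩
    rcases isClopen_iff.1 hclopen with h | h
    · exact absurd h (range_nonempty F).ne_empty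
    · exact range_eq_univ.1 h

omit [FiniteDimensional ℝ E] in
lemma exists_equiv_of_injective [FiniteDimensional ℝ E] (A : E →L[ℝ] E)
    (hA : Function.Injective A) : ∃ B : E ≃L[ℝ] E, (B : E →L[ℝ] E) = A := by
  refine ⟨(LinearEquiv.ofInjectiveEndo (A : E →ₗ[ℝ] E) hA).toContinuousLinearEquiv, ?_⟩
  ext x
  rfl

/-- **Symplectic maps without negative multipliers are isotopic to the identity.** -/
theorem cayley_isotopy {η : E → E} (hη : ContDiff ℝ ∞ η)
    (b : E →L[ℝ] E →L[ℝ] ℝ) (hb : ∀ x v w, b (fderiv ℝ η x v) (fderiv ℝ η x w) = b v w)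
    {K : Set E} (hKc : IsCompact K) (hK : ∀ x, x ∉ K → η x = x)
    (hneg : ∀ x, ∀ s : ℝ, 0 ≤ s → ∀ v, fderiv ℝ η x v + s • v = 0 → v = 0) :
    ∃ Φ Ψ : ℝ × E → E, ContDiff ℝ ∞ Φ ∧ ContDiff ℝ ∞ Ψ ∧ (∀ t x, Ψ (t, Φ (t, x)) = x) ∧
      (∀ t x, Φ (t, Ψ (t, x)) = x) ∧ (∀ x, Φ (0, x) = x) ∧ (∀ x, Φ (1, x) = η x) ∧
      (∀ t x, x ∉ K → Φ (t, x) = x) ∧
      ∀ t x v w, b (fderiv ℝ (fun y => Φ (t, y)) x v) (fderiv ℝ (fun y => Φ (t, y)) x w) =
        b v w := by
  have hcomplete : CompleteSpace E := FiniteDimensional.complete ℝ E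
  -- the displacement and the midpoint map
  set u : E → E := fun x => η x - x with hu
  have hus : ContDiff ℝ ∞ u := hη.sub contDiff_id
  have hud : ∀ x, HasFDerivAt u (fderiv ℝ η x - ContinuousLinearMap.id ℝ E) x := fun x =>
    ((hη.differentiable (by simp)).differentiableAt.hasFDerivAt).sub (hasFDerivAt_id x)
  set m : E → E := fun x => x + (1 / 2 : ℝ) • u x with hm
  have hms : ContDiff ℝ ∞ m := contDiff_id.add (contDiff_const.smul hus)
  have hmd : ∀ x, HasFDerivAt m (ContinuousLinearMap.id ℝ E +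
        (1 / 2 : ℝ) • (fderiv ℝ η x - ContinuousLinearMap.id ℝ E)) x := fun x =>
    (hasFDerivAt_id x).add ((hud x).const_smul (1 / 2 : ℝ))
  have hm_out : ∀ x, x ∉ K → m x = x := fun x hx => by
    simp only [hm, hu]
    rw [hK x hx]
    simp
  have hminj : ∀ x, Function.Injective (ContinuousLinearMap.id ℝ E +
        (1 / 2 : ℝ) • (fderiv ℝ η x - ContinuousLinearMap.id ℝ E)) := by
    intro x
    rw [injective_iff_map_eq_zero]
    intro v hv
    refine hneg x 1 zero_le_one v ?_
    have h1 : v + (1 / 2 : ℝ) • (fderiv ℝ η x v - v) = 0 := hv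
    have h2 : fderiv ℝ η x v + (1 : ℝ) • v = (2 : ℝ) • (v + (1 / 2 : ℝ) • (fderiv ℝ η x v - v)) := by
      module
    rw [h2, h1, smul_zero]
  have hminv : ∀ x, ∃ A : E ≃L[ℝ] E, HasFDerivAt m (A : E →L[ℝ] E) x := fun x => by
    obtain ⟨B, hB⟩ := exists_equiv_of_injective _ (hminj x)
    exact ⟨B, by rw [hB]; exact hmd x⟩
  have hmb : Function.Bijective m := bijective_of_localDiffeo hms hKc hm_out hminv
  let em : E ≃ E := Equiv.ofBijective m hmb
  set m' : E → E := fun y => em.symm y with hm'
  have hm1 : ∀ y, m (m' y) = y := em.apply_symm_apply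
  have hm2 : ∀ x, m' (m x) = x := em.symm_apply_apply
  have hm's : ContDiff ℝ ∞ m' := contDiff_inverse hms hm1 hm2 hminv
  -- the generating vector field
  set v : E → E := fun y => (1 / 2 : ℝ) • u (m' y) with hv
  have hvs : ContDiff ℝ ∞ v := contDiff_const.smul (hus.comp hm's)
  have hvm : ∀ x, v (m x) = (1 / 2 : ℝ) • u x := fun x => by
    simp only [hv]
    rw [hm2]
  have hvd : ∀ y, HasFDerivAt v (fderiv ℝ v y) y := fun y =>
    (hvs.differentiable (by simp)).differentiableAt.hasFDerivAt
  have hv_out : ∀ y, y ∉ K → v y = 0 := by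
    intro y hy
    have h1 : m y = y := hm_out y hy
    have h2 := hvm y
    rw [h1] at h2
    rw [h2]
    simp only [hu]
    rw [hK y hy]
    simp
  -- the derivative of `v` at `m x`
  have hvAt : ∀ x p, fderiv ℝ v (m x) (p + (1 / 2 : ℝ) • (fderiv ℝ η x p - p)) =
      (1 / 2 : ℝ) • (fderiv ℝ η x p - p) := by
    intro x p
    have h2 : HasFDerivAt (fun x => v (m x)) ((fderiv ℝ v (m x)).comp
        (ContinuousLinearMap.id ℝ E +
        (1 / 2 : ℝ) • (fderiv ℝ η x - ContinuousLinearMap.id ℝ E))) x :=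
      (hvd (m x)).comp x (hmd x)
    have h3 : HasFDerivAt (fun x => v (m x))
        ((1 / 2 : ℝ) • (fderiv ℝ η x - ContinuousLinearMap.id ℝ E)) x := by
      have h4 : (fun x => v (m x)) = fun x => (1 / 2 : ℝ) • u x := funext hvm
      rw [h4]
      exact (hud x).const_smul (1 / 2 : ℝ)
    exact DFunLike.congr_fun (h2.unique h3) p
  have hsurj : ∀ (x q : E), ∃ p : E, p + (1 / 2 : ℝ) • (fderiv ℝ η x p - p) = q := by
    intro x q
    obtain ⟨B, hB⟩ := exists_equiv_of_injective _ (hminj x)
    refine ⟨B.symm q, ?_⟩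
    have h7 : B (B.symm q) = q := B.apply_symm_apply q
    have h8 := DFunLike.congr_fun hB (B.symm q)
    rw [ContinuousLinearEquiv.coe_coe, h7] at h8
    exact h8.symm
  -- infinitesimal symplecticity
  have hsp : ∀ y z w, b (fderiv ℝ v y z) w + b z (fderiv ℝ v y w) = 0 := by
    intro y z w
    obtain ⟨x, rfl⟩ : ∃ x, m x = y := ⟨m' y, hm1 y⟩
    obtain ⟨p, rfl⟩ := hsurj x z
    obtain ⟨q, rfl⟩ := hsurj x w
    rw [hvAt, hvAt]
    have h9 := hb x p q
    simp only [map_add, map_sub, map_smul, add_apply, sub_apply, smul_apply, smul_eq_mul] at h9 ⊢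
    linear_combination (1 / 2) * h9
  have hiso : ∀ (a : ℝ) (y z w : E), b (z + a • fderiv ℝ v y z) (w + a • fderiv ℝ v y w) =
      b (z - a • fderiv ℝ v y z) (w - a • fderiv ℝ v y w) := by
    intro a y z w
    have h1 := hsp y z w
    simp only [map_add, map_sub, map_smul, add_apply, sub_apply, smul_apply, smul_eq_mul]
    linear_combination (2 * a) * h1
  -- the family `y ↦ y + a • v y`
  have hgd : ∀ (a : ℝ) (y : E), HasFDerivAt (fun y => y + a • v y)
      (ContinuousLinearMap.id ℝ E + a • fderiv ℝ v y) y := fun a y =>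
    (hasFDerivAt_id y).add ((hvd y).const_smul a)
  have hginj : ∀ (a : ℝ), |a| ≤ 1 → ∀ y,
      Function.Injective (ContinuousLinearMap.id ℝ E + a • fderiv ℝ v y) := by
    intro a ha y
    obtain ⟨ha1, ha2⟩ := abs_le.1 ha
    obtain ⟨x, rfl⟩ : ∃ x, m x = y := ⟨m' y, hm1 y⟩
    rw [injective_iff_map_eq_zero]
    intro z hz
    obtain ⟨p, rfl⟩ := hsurj x z
    have h1 : (p + (1 / 2 : ℝ) • (fderiv ℝ η x p - p)) +
        a • ((1 / 2 : ℝ) • (fderiv ℝ η x p - p)) = 0 := by
      have hz' : (p + (1 / 2 : ℝ) • (fderiv ℝ η x p - p)) +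
          a • fderiv ℝ v (m x) (p + (1 / 2 : ℝ) • (fderiv ℝ η x p - p)) = 0 := hz
      rw [hvAt x p] at hz'
      exact hz'
    have h2 : ((1 + a) / 2) • fderiv ℝ η x p + ((1 - a) / 2) • p = 0 := by
      rw [← h1]
      module
    have h3 : p = 0 := by
      rcases ha1.eq_or_lt with h | h
      · rw [← h] at h2
        norm_num at h2
        exact h2
      · have h4 : (0 : ℝ) < 1 + a := by linarith
        refine hneg x ((1 - a) / (1 + a)) (div_nonneg (by linarith) h4.le) p ?_
        have h5 : fderiv ℝ η x p + ((1 - a) / (1 + a)) • p =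
            (2 / (1 + a)) • (((1 + a) / 2) • fderiv ℝ η x p + ((1 - a) / 2) • p) := by
          rw [smul_add, smul_smul, smul_smul]
          have e1 : 2 / (1 + a) * ((1 + a) / 2) = 1 := by field_simp
          have e2 : 2 / (1 + a) * ((1 - a) / 2) = (1 - a) / (1 + a) := by field_simp
          rw [e1, e2, one_smul]
        rw [h5, h2, smul_zero]
    rw [h3]
    simp
  -- the path parameter
  have hl : ContDiff ℝ ∞ Real.smoothTransition := Real.smoothTransition.contDiff
  have hl1 : ∀ t, |Real.smoothTransition t| ≤ 1 := fun t => by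
    rw [abs_of_nonneg (Real.smoothTransition.nonneg t)]
    exact Real.smoothTransition.le_one t
  have hfam : ∀ l : ℝ → ℝ, ContDiff ℝ ∞ l → (∀ t, |l t| ≤ 1) →
      ∃ h : ℝ × E → E, ContDiff ℝ ∞ h ∧ (∀ t x, h (t, x) + l t • v (h (t, x)) = x) ∧
        ∀ t y, h (t, y + l t • v y) = y := by
    intro l hl hl1
    have hgs : ContDiff ℝ ∞ (fun p : ℝ × E => p.2 + l p.1 • v p.2) :=
      contDiff_snd.add ((hl.comp contDiff_fst).smul (hvs.comp contDiff_snd))
    have hinv : ∀ t y, ∃ A : E ≃L[ℝ] E,
        HasFDerivAt (fun y => y + l t • v y) (A : E →L[ℝ] E) y := fun t y => by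
      obtain ⟨B, hB⟩ := exists_equiv_of_injective _ (hginj (l t) (hl1 t) y)
      exact ⟨B, by rw [hB]; exact hgd (l t) y⟩
    have hbij : ∀ t, Function.Bijective (fun y => y + l t • v y) := fun t =>
      bijective_of_localDiffeo (contDiff_id.add (contDiff_const.smul hvs)) hKc
        (fun x hx => by rw [hv_out x hx, smul_zero, add_zero]) (hinv t)
    let e : ∀ t : ℝ, E ≃ E := fun t => Equiv.ofBijective _ (hbij t)
    exact ⟨fun p => (e p.1).symm p.2,
      contDiff_inverse_param hgs (fun t x => (e t).apply_symm_apply x)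
        (fun t y => (e t).symm_apply_apply y) hinv,
      fun t x => (e t).apply_symm_apply x, fun t y => (e t).symm_apply_apply y⟩
  obtain ⟨hp, hps, hp1, hp2⟩ := hfam Real.smoothTransition hl hl1
  obtain ⟨hn, hns, hn1, hn2⟩ := hfam (fun t => -Real.smoothTransition t)
    hl.neg (fun t => by rw [abs_neg]; exact hl1 t)
  set l : ℝ → ℝ := Real.smoothTransition with hldef
  refine ⟨fun p => hn p + l p.1 • v (hn p), fun p => hp p - l p.1 • v (hp p), ?_, ?_, ?_, ?_, ?_,
    ?_, ?_, ?_⟩
  · exact hns.add ((hl.comp contDiff_fst).smul (hvs.comp hns))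
  · exact hps.sub ((hl.comp contDiff_fst).smul (hvs.comp hps))
  · intro t x
    have h1 : hp (t, hn (t, x) + l t • v (hn (t, x))) = hn (t, x) := hp2 t _
    have h2 := hn1 t x
    change hp (t, hn (t, x) + l t • v (hn (t, x))) -
      l t • v (hp (t, hn (t, x) + l t • v (hn (t, x)))) = x
    rw [h1, sub_eq_add_neg, ← neg_smul]
    exact h2
  · intro t x
    have h1 : hn (t, hp (t, x) + (- l t) • v (hp (t, x))) = hp (t, x) := hn2 t _
    rw [neg_smul, ← sub_eq_add_neg] at h1
    have h2 := hp1 t x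
    change hn (t, hp (t, x) - l t • v (hp (t, x))) +
      l t • v (hn (t, hp (t, x) - l t • v (hp (t, x)))) = x
    rw [h1]
    exact h2
  · intro x
    have h0 : l 0 = 0 := Real.smoothTransition.zero
    have h1 := hn1 0 x
    change hn (0, x) + l 0 • v (hn (0, x)) = x
    rw [h0] at h1 ⊢
    rw [neg_zero, zero_smul, add_zero] at h1
    rw [zero_smul, add_zero]
    exact h1
  · intro x
    have h0 : l 1 = 1 := Real.smoothTransition.one
    have h1 : hn (1, m x + (- l 1) • v (m x)) = m x := hn2 1 (m x)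
    have h2 : m x + (- l 1) • v (m x) = x := by
      rw [h0, hvm, neg_smul, one_smul]
      simp only [hm]
      abel
    rw [h2] at h1
    change hn (1, x) + l 1 • v (hn (1, x)) = η x
    rw [h1, h0, one_smul, hvm]
    simp only [hm, hu]
    module
  · intro t x hx
    have h1 : hn (t, x + (- l t) • v x) = x := hn2 t x
    rw [hv_out x hx, smul_zero, add_zero] at h1
    change hn (t, x) + l t • v (hn (t, x)) = x
    rw [h1, hv_out x hx, smul_zero, add_zero]
  · intro t x z w
    set y := hn (t, x) with hy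
    have h1 : HasFDerivAt (fun x => hn (t, x)) (fderiv ℝ (fun x => hn (t, x)) x) x :=
      ((hns.comp (contDiff_const.prodMk contDiff_id)).differentiable
        (by simp)).differentiableAt.hasFDerivAt
    set D := fderiv ℝ (fun x => hn (t, x)) x with hD
    have h2 := (hgd (- l t) (hn (t, x))).comp x h1
    have h3 : ((fun y => y + (- l t) • v y) ∘ fun x => hn (t, x)) = id := by
      funext x
      exact hn1 t x
    rw [h3] at h2
    have h4 := h2.unique (hasFDerivAt_id x)
    have h5 : ∀ p, D p - l t • fderiv ℝ v y (D p) = p := fun p => by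
      have := DFunLike.congr_fun h4 p
      rw [sub_eq_add_neg, ← neg_smul]
      exact this
    have h6 : HasFDerivAt (fun x => hn (t, x) + l t • v (hn (t, x)))
        ((ContinuousLinearMap.id ℝ E + l t • fderiv ℝ v y).comp D) x :=
      HasFDerivAt.comp (g := fun y => y + l t • v y) x (hgd (l t) (hn (t, x))) h1
    have h7 : fderiv ℝ (fun x => hn (t, x) + l t • v (hn (t, x))) x =
        (ContinuousLinearMap.id ℝ E + l t • fderiv ℝ v y).comp D := h6.fderiv
    change b (fderiv ℝ (fun x => hn (t, x) + l t • v (hn (t, x))) x z)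
      (fderiv ℝ (fun x => hn (t, x) + l t • v (hn (t, x))) x w) = b z w
    rw [h7]
    have h8 : ∀ p, ((ContinuousLinearMap.id ℝ E + l t • fderiv ℝ v y).comp D) p =
        D p + l t • fderiv ℝ v y (D p) := fun p => rfl
    rw [h8, h8, hiso, h5, h5]

end Pool.Agent.R776
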