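import Pool.Agent.R537.LR.Stm

/-!
# Low-rank approximation: from values to an exact solution of rank three (piece YESC)
-/

set_option autoImplicit false

namespace Pool.Agent.NPC.R537LR

open Pool.Agent.NPC Pool.Agent.NPC.ER

namespace YC

/-- the vector of a row -/
noncomputable def pv (v : ℕ → ℝ) (r : RName) : Fin 3 → ℝ :=
  if r.1 = 0 then (if r.2 = 0 then ![1, 0, 0] else if r.2 = 1 then ![0, 1, 0] else ![0, 0, 1])
  else if r.1 = 1 then ![1, 1, 0]
  else if r.1 = 2 then ![0, 1, -1]
  else if r.1 = 3 then ![v r.2, 1, 0]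
  else if r.1 = 4 then ![v r.2, 0, 1]
  else if r.1 = 5 then ![v r.2, 1 / 2, 1 / 2]
  else if r.1 = 6 then ![0, 1, v r.2]
  else ![1, 0, -v r.2]

/-- a good vector of a column -/
def GC (v : ℕ → ℝ) (c : Col) (l : Fin 3 → ℝ) : Prop :=
  (∀ i : Fin 3, ∀ q : ℤ, c.2.1.getD i none = some q → l i = (q : ℝ) / 8) ∧ (∀ i, |l i| ≤ 1) ∧
    (∀ r ∈ c.2.2, c.1 = 3 → ∑ s, pv v r s * l s = 0) ∧
    (∀ t : Fin 3, c.1 = t → ∀ s, l s = if t = s then 1 else 0) ∧
    (c.1 = 4 → l = ![1, 0, 0])

theorem rows_mem {n : ℕ} {r : RName} (hr : r ∈ rowsL n) :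
    r = (0, 0) ∨ r = (0, 1) ∨ r = (0, 2) ∨ r = (1, 0) ∨ r = (2, 0) ∨
      ∃ k < n, r = (3, k) ∨ r = (4, k) ∨ r = (5, k) ∨ r = (6, k) ∨ r = (7, k) := by
  simp only [rowsL, List.mem_append, List.mem_cons, List.mem_flatMap, List.mem_range,
    List.not_mem_nil, or_false] at hr
  rcases hr with (h | h | h | h | h) | h
  · exact Or.inl h
  · exact Or.inr (Or.inl h)
  · exact Or.inr (Or.inr (Or.inl h))
  · exact Or.inr (Or.inr (Or.inr (Or.inl h)))
  · exact Or.inr (Or.inr (Or.inr (Or.inr (Or.inl h))))
  · exact Or.inr (Or.inr (Or.inr (Or.inr (Or.inr h))))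

theorem pv_le {n : ℕ} {v : ℕ → ℝ} (hv : ∀ i < n, |v i| ≤ 1) {r : RName} (hr : r ∈ rowsL n)
    (s : Fin 3) : |pv v r s| ≤ 1 := by
  rcases rows_mem hr with rfl | rfl | rfl | rfl | rfl | ⟨k, hk, rfl | rfl | rfl | rfl | rfl⟩ <;>
  fin_cases s <;> simp [pv, hv] <;> first | exact hv k hk | norm_num [abs_le]

theorem colA_good {v : ℕ → ℝ} {c : Col} (hc : c ∈ colA) : ∃ l, GC v c l := by
  simp only [colA, List.mem_cons, List.not_mem_nil, or_false] at hc
  rcases hc with rfl | rfl | rfl
  · refine ⟨![1, 0, 0], ?_, ?_, ?_, ?_, ?_⟩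
    · intro i q
      fin_cases i <;> simp <;> rintro rfl <;> norm_num
    · intro i
      fin_cases i <;> simp
    · intro r hr
      simp at hr
    · intro t ht s
      have : t = 0 := by ext; simpa using ht.symm
      subst this
      fin_cases s <;> simp
    · simp
  · refine ⟨![0, 1, 0], ?_, ?_, ?_, ?_, ?_⟩
    · intro i q
      fin_cases i <;> simp <;> rintro rfl <;> norm_num
    · intro i
      fin_cases i <;> simp
    · intro r hr
      simp at hr
    · intro t ht s
      have : t = 1 := by ext; simpa using ht.symm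
      subst this
      fin_cases s <;> simp
    · simp
  · refine ⟨![0, 0, 1], ?_, ?_, ?_, ?_, ?_⟩
    · intro i q
      fin_cases i <;> simp <;> rintro rfl <;> norm_num
    · intro i
      fin_cases i <;> simp
    · intro r hr
      simp at hr
    · intro t ht s
      have : t = 2 := by ext; simpa using ht.symm
      subst this
      fin_cases s <;> simp
    · simp

theorem gc3 {v : ℕ → ℝ} (co : List (Option ℤ)) (zs : List RName) (l : Fin 3 → ℝ)
    (h1 : ∀ i : Fin 3, ∀ q : ℤ, co.getD i none = some q → l i = (q : ℝ) / 8)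
    (h2 : ∀ i, |l i| ≤ 1) (h3 : ∀ r ∈ zs, pv v r 0 * l 0 + pv v r 1 * l 1 + pv v r 2 * l 2 = 0) :
    GC v (3, co, zs) l := by
  refine ⟨h1, h2, ?_, ?_, ?_⟩
  · intro r hr _
    rw [Fin.sum_univ_three]
    exact h3 r hr
  · intro t ht
    have := t.2
    simp only at ht
    omega
  · intro h
    simp at h

theorem colV_good {n : ℕ} {v : ℕ → ℝ} (hv : ∀ i < n, |v i| ≤ 1) {k : ℕ} (hk : k < n) {c : Col}
    (hc : c ∈ colV k) : ∃ l, GC v c l := by
  have hvk := hv k hk
  simp only [colV, List.mem_cons, List.not_mem_nil, or_false] at hc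
  rcases hc with rfl | rfl | rfl
  · refine ⟨![1, -v k, -v k], gc3 _ _ _ ?_ ?_ ?_⟩
    · intro i q
      fin_cases i <;> simp <;> rintro rfl <;> norm_num
    · intro i
      fin_cases i <;> simp [hvk]
    · intro r hr
      simp only [List.mem_cons, List.not_mem_nil, or_false] at hr
      rcases hr with rfl | rfl | rfl | rfl <;> simp [pv] <;> ring
  · refine ⟨![v k, -v k, 1], gc3 _ _ _ ?_ ?_ ?_⟩
    · intro i q
      fin_cases i <;> simp <;> rintro rfl <;> norm_num
    · intro i
      fin_cases i <;> simp [hvk]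
    · intro r hr
      simp only [List.mem_cons, List.not_mem_nil, or_false] at hr
      rcases hr with rfl | rfl | rfl <;> simp [pv]
  · refine ⟨![1, -v k, 1], gc3 _ _ _ ?_ ?_ ?_⟩
    · intro i q
      fin_cases i <;> simp <;> rintro rfl <;> norm_num
    · intro i
      fin_cases i <;> simp [hvk]
    · intro r hr
      simp only [List.mem_cons, List.not_mem_nil, or_false] at hr
      rcases hr with rfl | rfl <;> simp [pv]

theorem colG_good {n : ℕ} {v : ℕ → ℝ} (hv : ∀ i < n, |v i| ≤ 1) {g : Gate} (hg : GLt n g)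
    (hh : GHolds v g) : ∃ l, GC v (colG g) l := by
  obtain ⟨t, i, j, k, z⟩ := g
  obtain ⟨hi, hj, hk⟩ := hg
  simp only at hi hj hk
  have hvi := hv i hi
  have hvj := hv j hj
  have hvk := hv k hk
  unfold colG
  unfold GHolds at hh
  simp only at hh ⊢
  split_ifs at hh ⊢ with h0 h1 h2
  · refine ⟨![1, 0, 0], gc3 _ _ _ ?_ ?_ ?_⟩
    · intro i q
      fin_cases i <;> simp <;> rintro rfl <;> norm_num
    · intro i
      fin_cases i <;> simp
    · intro r hr
      simp at hr
  · refine ⟨![1, -v k, 0], gc3 _ _ _ ?_ ?_ ?_⟩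
    · intro i q
      fin_cases i <;> simp <;> rintro rfl
      · norm_num
      · rw [hh]; push_cast; ring
      · norm_num
    · intro i
      fin_cases i <;> simp [hvk]
    · intro r hr
      simp only [List.mem_cons, List.not_mem_nil, or_false] at hr
      subst hr
      simp [pv]
  · refine ⟨![1, -v i, -v j], gc3 _ _ _ ?_ ?_ ?_⟩
    · intro i q
      fin_cases i <;> simp <;> rintro rfl <;> norm_num
    · intro i
      fin_cases i <;> simp [hvi, hvj]
    · intro r hr
      simp only [List.mem_cons, List.not_mem_nil, or_false] at hr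
      rcases hr with rfl | rfl | rfl <;> simp [pv]
      linarith
  · refine ⟨![v i, -v k, 1], gc3 _ _ _ ?_ ?_ ?_⟩
    · intro i q
      fin_cases i <;> simp <;> rintro rfl <;> norm_num
    · intro i
      fin_cases i <;> simp [hvi, hvk]
    · intro r hr
      simp only [List.mem_cons, List.not_mem_nil, or_false] at hr
      rcases hr with rfl | rfl | rfl <;> simp [pv]
      linarith

theorem col_good {n : ℕ} {G : List Gate} {y : ℕ} {v : ℕ → ℝ} (hv : ∀ i < n, |v i| ≤ 1)
    (hG : ∀ g ∈ G, GLt n g) (hh : ∀ g ∈ G, GHolds v g) (c : Col) (hc : c ∈ colsL1 n G y) :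
    ∃ l, GC v c l := by
  simp only [colsL1, colsL, List.mem_append, List.mem_flatMap, List.mem_range, List.mem_map,
    List.mem_singleton] at hc
  rcases hc with (hc | ⟨k, hk, hc⟩ | ⟨g, hg, rfl⟩) | rfl
  · exact colA_good hc
  · exact colV_good hv hk hc
  · exact colG_good hv (hG g hg) (hh g hg)
  · refine ⟨![1, 0, 0], ?_, ?_, ?_, ?_, ?_⟩
    · intro i q
      fin_cases i <;> simp <;> rintro rfl <;> norm_num
    · intro i
      fin_cases i <;> simp
    · intro r hr h
      simp at h
    · intro t ht
      have := t.2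
      simp only at ht
      omega
    · intro _
      rfl

theorem tag_colsL {n : ℕ} {G : List Gate} {c : Col} (hc : c ∈ colsL n G) : c.1 ≤ 3 := by
  simp only [colsL, List.mem_append, List.mem_flatMap, List.mem_range, List.mem_map] at hc
  rcases hc with hc | ⟨k, hk, hc⟩ | ⟨g, hg, rfl⟩
  · simp only [colA, List.mem_cons, List.not_mem_nil, or_false] at hc
    rcases hc with rfl | rfl | rfl <;> simp
  · simp only [colV, List.mem_cons, List.not_mem_nil, or_false] at hc
    rcases hc with rfl | rfl | rfl <;> simp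
  · unfold colG
    split_ifs <;> simp

theorem last_of_tag {n : ℕ} {G : List Gate} {y : ℕ} (c : Fin (colsL1 n G y).length)
    (hc : ((colsL1 n G y).get c).1 = 4) : (c : ℕ) = (colsL n G).length := by
  have hlen : (colsL1 n G y).length = (colsL n G).length + 1 := by simp [colsL1]
  have h1 := c.2
  by_contra hne
  have hlt : (c : ℕ) < (colsL n G).length := by omega
  have h2 : (colsL1 n G y).get c = (colsL n G)[(c : ℕ)] := by
    simp only [List.get_eq_getElem, colsL1]
    exact List.getElem_append_left hlt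
  rw [h2] at hc
  have := tag_colsL (List.getElem_mem hlt)
  omega

/-- rows against columns -/
theorem entry_good {n : ℕ} {v : ℕ → ℝ} (hv : ∀ i < n, |v i| ≤ 1) {r : RName} (hr : r ∈ rowsL n)
    {c : Col} {l : Fin 3 → ℝ} (hl : GC v c l) (hc : c.1 ≤ 4)
    (h4 : c.1 = 4 → c.2.1 = [some 8, some 0, some 0]) :
    (∀ q : ℤ, ¬ (c.1 = 4 ∧ r ∈ c.2.2) → ent r c = some q → ∑ s, pv v r s * l s = (q : ℝ) / 8) ∧
    ((ent r c = none ∨ c.1 = 4) → |∑ s, pv v r s * l s| ≤ (msk r c : ℝ) ∨ r.1 = 0 ∧ c.1 = 4) := by
  obtain ⟨g1, g2, g3, g4, g5⟩ := hl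
  have hbig : |∑ s, pv v r s * l s| ≤ 4 := by
    rw [Fin.sum_univ_three]
    have a0 := pv_le hv hr 0
    have a1 := pv_le hv hr 1
    have a2 := pv_le hv hr 2
    have b0 := g2 0
    have b1 := g2 1
    have b2 := g2 2
    have m0 : |pv v r 0 * l 0| ≤ 1 := by
      rw [abs_mul]; exact mul_le_one₀ a0 (abs_nonneg _) b0
    have m1 : |pv v r 1 * l 1| ≤ 1 := by
      rw [abs_mul]; exact mul_le_one₀ a1 (abs_nonneg _) b1
    have m2 : |pv v r 2 * l 2| ≤ 1 := by
      rw [abs_mul]; exact mul_le_one₀ a2 (abs_nonneg _) b2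
    have t1 := abs_add_le (pv v r 0 * l 0 + pv v r 1 * l 1) (pv v r 2 * l 2)
    have t2 := abs_add_le (pv v r 0 * l 0) (pv v r 1 * l 1)
    linarith
  -- anchor rows
  have hanch : r.1 = 0 → ∃ i : Fin 3, r.2 = i ∧ ∑ s, pv v r s * l s = l i := by
    intro h0
    rcases rows_mem hr with rfl | rfl | rfl | rfl | rfl | ⟨k, hk, rfl | rfl | rfl | rfl | rfl⟩ <;>
      simp at h0
    · exact ⟨0, rfl, by simp [pv, Fin.sum_univ_three]⟩
    · exact ⟨1, rfl, by simp [pv, Fin.sum_univ_three]⟩
    · exact ⟨2, rfl, by simp [pv, Fin.sum_univ_three]⟩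
  by_cases ht : c.1 < 3
  · -- anchor columns
    have hsum : ∀ t : Fin 3, c.1 = t → ∑ s, pv v r s * l s = pv v r t := by
      intro t ht
      simp [g4 t ht]
    obtain ⟨t, ht'⟩ : ∃ t : Fin 3, c.1 = t := ⟨⟨c.1, ht⟩, rfl⟩
    rw [hsum t ht']
    have hent : ent r c = (rowv r).getD t none := by
      unfold ent
      rw [if_pos ht, ht']
    rw [hent]
    refine ⟨?_, ?_⟩
    · intro q _
      rcases rows_mem hr with rfl | rfl | rfl | rfl | rfl |
        ⟨k, hk, rfl | rfl | rfl | rfl | rfl⟩ <;>
      fin_cases t <;> simp [rowv, pv] <;> rintro rfl <;> norm_num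
    · intro _
      left
      have : msk r c = 1 := by
        unfold msk
        rw [if_pos (Or.inr ht)]
      rw [this]
      simpa using pv_le hv hr t
  · refine ⟨?_, ?_⟩
    · intro q hn hq
      unfold ent at hq
      rw [if_neg ht] at hq
      split_ifs at hq with h0 hz
      · obtain ⟨i, hi, hs⟩ := hanch h0
        rw [hs]
        apply g1 i q
        rw [← hi]
        exact hq
      · have h3 : c.1 = 3 := by
          by_contra hne
          exact hn ⟨by omega, hz⟩
        rw [g3 r hz h3]
        simp only [Option.some.injEq] at hq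
        subst hq
        simp
    · intro _
      by_cases h0 : r.1 = 0
      · obtain ⟨i, hi, hs⟩ := hanch h0
        left
        rw [hs]
        have : msk r c = 1 := by
          unfold msk
          rw [if_pos (Or.inl h0)]
        rw [this]
        simpa using g2 i
      · left
        have : msk r c = 4 := by
          unfold msk
          rw [if_neg]
          rintro (h | h)
          · exact h0 h
          · exact ht h
        rw [this]
        exact_mod_cast hbig

end YC

open YC

theorem t_YESC : S_YESC := by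
  intro n G y P v hP hG hy hv hh hpos
  have hex : ∀ c : Fin (colsL1 n G y).length, ∃ l, GC v ((colsL1 n G y).get c) l := fun c =>
    col_good hv hG hh _ (List.get_mem _ _)
  choose l hl using hex
  have hR : ∀ r : Fin (rowsL n).length, (rowsL n).get r ∈ rowsL n := fun r => List.get_mem _ _
  have hC4 : ∀ c : Fin (colsL1 n G y).length, ((colsL1 n G y).get c).1 ≤ 4 ∧
      (((colsL1 n G y).get c).1 = 4 → (colsL1 n G y).get c =
        (4, [some 8, some 0, some 0], [(3, y)])) := by
    have hall : ∀ x ∈ colsL1 n G y, x.1 ≤ 4 ∧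
        (x.1 = 4 → x = (4, [some 8, some 0, some 0], [(3, y)])) := by
      intro x hm
      rw [colsL1, List.mem_append] at hm
      rcases hm with hm | hm
      · have h3 := tag_colsL hm
        exact ⟨by omega, fun h => by omega⟩
      · have hm' : x = (4, [some 8, some 0, some 0], [(3, y)]) := by
          simpa using hm
        rw [hm']
        exact ⟨le_rfl, fun _ => rfl⟩
    exact fun c => hall _ (List.get_mem _ _)
  have hco4 : ((colsL1 n G y).get P.co).1 = 4 := by rw [hP.co]
  have hlco : l P.co = ![1, 0, 0] := (hl P.co).2.2.2.2 hco4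
  have hro : pv v ((rowsL n).get P.ro) = ![v y, 1, 0] := by
    rw [hP.ro]
    simp [pv]
  have hobj : ∑ s, pv v ((rowsL n).get P.ro) s * l P.co s = v y := by
    rw [hlco, hro]
    simp [Fin.sum_univ_three]
  refine ⟨fun r => pv v ((rowsL n).get r), l, ?_, ?_, ?_, ?_⟩
  · intro r c x hrc hx
    have hE := hP.E r c
    have hEg := entry_good hv (hR r) (hl c) (hC4 c).1
      (fun h => by rw [(hC4 c).2 h])
    by_cases h4 : ((colsL1 n G y).get c).1 = 4 ∧ (rowsL n).get r ∈ ((colsL1 n G y).get c).2.2
    · exfalso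
      obtain ⟨h4, hz⟩ := h4
      have hcc : c = P.co := by
        apply Fin.ext
        rw [last_of_tag c h4, last_of_tag P.co hco4]
      subst hcc
      have hr3 : (rowsL n).get r = (3, y) := by
        rw [(hC4 P.co).2 h4] at hz
        simpa using hz
      have hrne : r ≠ P.ro := fun h => hrc ⟨h, rfl⟩
      have htR : P.tR r = none := by
        by_contra hne
        have := (hP.tR r).mp hne
        rw [hr3] at this
        simp at this
      have : P.E r P.co = none := by
        unfold Pt.E
        rw [hP.ok.co_none, htR]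
        simp only
        rw [if_neg (fun h => hrne h.1), if_neg]
        rw [hP.ok.z_co]
        simp
      rw [this] at hx
      simp at hx
    · rw [hE] at hx
      have hent : ent1 ((rowsL n).get r) ((colsL1 n G y).get c) =
          ent ((rowsL n).get r) ((colsL1 n G y).get c) := by
        unfold ent1
        rw [if_neg h4]
      rw [hent] at hx
      cases hq : ent ((rowsL n).get r) ((colsL1 n G y).get c) with
      | none =>
        rw [hq] at hx
        simp at hx
      | some q =>
        rw [hq] at hx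
        have hxq : (q : ℝ) / 8 = x := by simpa using hx
        rw [← hxq]
        exact (hEg.1 q h4 hq).symm
  · rw [hobj]
    exact hpos
  · rw [hobj]
    exact (abs_le.mp (hv y hy)).2
  · intro r c hE
    rw [hP.E r c] at hE
    have hE' : ent1 ((rowsL n).get r) ((colsL1 n G y).get c) = none := by
      cases hq : ent1 ((rowsL n).get r) ((colsL1 n G y).get c) with
      | none => rfl
      | some q =>
        rw [hq] at hE
        simp at hE
    rw [hP.N r c]
    have hEg := entry_good hv (hR r) (hl c) (hC4 c).1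
      (fun h => by rw [(hC4 c).2 h])
    have hent : ent ((rowsL n).get r) ((colsL1 n G y).get c) = none := by
      unfold ent1 at hE'
      split_ifs at hE'
      exact hE'
    rcases hEg.2 (Or.inl hent) with h | ⟨h0, h4⟩
    · exact h
    · exfalso
      have hc := (hC4 c).2 h4
      rw [hc] at hent
      rcases rows_mem (hR r) with hr | hr | hr | hr | hr | ⟨k, hk, hr | hr | hr | hr | hr⟩ <;>
        rw [hr] at hent h0 <;> simp [ent] at hent h0

end Pool.Agent.NPC.R537LR
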