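import Mathlib
import Pool.Agent.S13718

set_option autoImplicit false

open MeasureTheory Set Metric Pointwise

namespace Pool.Agent.R776.MeanW

/-- Euclidean space of dimension `n`. -/
abbrev Eu (n : ℕ) := EuclideanSpace ℝ (Fin n)

/-- Radial integration: for positively homogeneous functions of degree one the Gaussian integral is
a positive constant times the integral over the unit sphere. -/
lemma gauss_eq {n : ℕ} (hn : 1 ≤ n) : ∃ c : ℝ, 0 < c ∧ ∀ g : Eu n → ℝ,
    (∀ (r : ℝ) (v : Eu n), 0 < r → g (r • v) = r * g v) →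
    ∫ v : Eu n, g v * Real.exp (-‖v‖ ^ 2) =
      c * ∫ u : sphere (0 : Eu n) 1, g u ∂(volume : Measure (Eu n)).toSphere := by
  have : Nonempty (Fin n) := ⟨⟨0, hn⟩⟩
  have key : ∀ g : Eu n → ℝ, (∀ (r : ℝ) (v : Eu n), 0 < r → g (r • v) = r * g v) →
      ∫ v : Eu n, g v * Real.exp (-‖v‖ ^ 2) =
      (∫ r : Ioi (0 : ℝ), r.1 * Real.exp (-r.1 ^ 2)
        ∂(Measure.volumeIoiPow (Module.finrank ℝ (Eu n) - 1))) *
        ∫ u : sphere (0 : Eu n) 1, g u ∂(volume : Measure (Eu n)).toSphere := by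
    intro g hg
    have h1 : ∫ v : Eu n, g v * Real.exp (-‖v‖ ^ 2) =
        ∫ x : ({(0 : Eu n)}ᶜ : Set (Eu n)), g x.1 * Real.exp (-‖x.1‖ ^ 2)
          ∂((volume : Measure (Eu n)).comap (↑)) := by
      rw [integral_subtype_comap (measurableSet_singleton _).compl
        fun x => g x * Real.exp (-‖x‖ ^ 2), restrict_compl_singleton]
    have h2 : ∫ x : ({(0 : Eu n)}ᶜ : Set (Eu n)), g x.1 * Real.exp (-‖x.1‖ ^ 2)
          ∂((volume : Measure (Eu n)).comap (↑)) =
        ∫ p : sphere (0 : Eu n) 1 × Ioi (0 : ℝ), g p.1 * (p.2.1 * Real.exp (-p.2.1 ^ 2))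
          ∂(((volume : Measure (Eu n)).toSphere).prod
            (Measure.volumeIoiPow (Module.finrank ℝ (Eu n) - 1))) := by
      rw [← (volume : Measure (Eu n)).measurePreserving_homeomorphUnitSphereProd.integral_comp
        (Homeomorph.measurableEmbedding _)]
      congr 1
      ext x
      have hx : (0 : ℝ) < ‖x.1‖ := norm_pos_iff.2 x.2
      simp only [homeomorphUnitSphereProd_apply_fst_coe, homeomorphUnitSphereProd_apply_snd_coe]
      have h3 : g x.1 = ‖x.1‖ * g (‖x.1‖⁻¹ • x.1) := by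
        rw [← hg _ _ hx, smul_smul, mul_inv_cancel₀ hx.ne', one_smul]
      rw [h3]
      ring
    rw [h1, h2]
    have h4 := integral_prod_mul (μ := (volume : Measure (Eu n)).toSphere)
      (ν := Measure.volumeIoiPow (Module.finrank ℝ (Eu n) - 1))
      (fun u : sphere (0 : Eu n) 1 => g u) (fun r : Ioi (0 : ℝ) => r.1 * Real.exp (-r.1 ^ 2))
    rw [h4]
    ring
  refine ⟨_, ?_, key⟩
  have h5 := key (fun v => ‖v‖) (fun r v hr => by
    simp only [norm_smul, Real.norm_eq_abs, abs_of_pos hr])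
  have h6 : 0 < ∫ v : Eu n, ‖v‖ * Real.exp (-‖v‖ ^ 2) := by
    obtain ⟨v, hv⟩ := exists_ne (0 : Eu n)
    refine Pool.Agent.S13718.integral_pos_aux (v := v) (by fun_prop) (fun w => by positivity)
      Pool.Agent.S13718.gauss_integrable ?_
    have : 0 < ‖v‖ := norm_pos_iff.2 hv
    positivity
  rw [h5] at h6
  have h7 : 0 ≤ ∫ u : sphere (0 : Eu n) 1, ‖(u : Eu n)‖ ∂(volume : Measure (Eu n)).toSphere :=
    integral_nonneg fun u => norm_nonneg _
  by_contra hneg
  push Not at hneg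
  nlinarith

lemma supp_smul {n : ℕ} (K : Set (Eu n)) (r : ℝ) (v : Eu n) (hr : 0 < r) :
    Pool.Agent.S13718.supp K (r • v) = r * Pool.Agent.S13718.supp K v := by
  unfold Pool.Agent.S13718.supp
  have : (fun y : Eu n => @inner ℝ (Eu n) _ y (r • v)) '' K =
      r • ((fun y : Eu n => @inner ℝ (Eu n) _ y v) '' K) := by
    ext t
    constructor
    · rintro ⟨y, hy, rfl⟩
      exact ⟨_, ⟨y, hy, rfl⟩, by simp [real_inner_smul_right]⟩
    · rintro ⟨_, ⟨y, hy, rfl⟩, rfl⟩
      exact ⟨y, hy, by simp [real_inner_smul_right]⟩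
  rw [this, Real.sSup_smul_of_nonneg hr.le, smul_eq_mul]

/-- The Gaussian mean width is a positive multiple of the spherical mean width. -/
lemma V_eq {n : ℕ} (hn : 1 ≤ n) : ∃ c : ℝ, 0 < c ∧ ∀ K : Set (Eu n),
    Pool.Agent.S13718.V K = c * ∫ u : sphere (0 : Eu n) 1, Pool.Agent.S13718.supp K u
      ∂(volume : Measure (Eu n)).toSphere := by
  obtain ⟨c, hc, h⟩ := gauss_eq hn
  exact ⟨c, hc, fun K => h (Pool.Agent.S13718.supp K) fun r v hr => supp_smul K r v hr⟩

end Pool.Agent.R776.MeanW
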