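import Mathlib

set_option autoImplicit false

open Set Filter Topology
open scoped ContDiff

namespace Pool.Agent.R776

variable {E F : Type*} [NormedAddCommGroup E] [NormedSpace ℝ E] [NormedAddCommGroup F]
  [NormedSpace ℝ F]

/-- The spaces of continuous multilinear maps are finite dimensional. -/
lemma finiteDimensional_multilinear [FiniteDimensional ℝ E] [FiniteDimensional ℝ F] (m : ℕ) :
    FiniteDimensional ℝ (E [×m]→L[ℝ] F) := by
  induction m with
  | zero => exact (continuousMultilinearCurryFin0 ℝ E F).symm.toLinearEquiv.finiteDimensional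
  | succ m ih =>
    exact (continuousMultilinearCurryLeftEquiv ℝ (fun _ : Fin (m + 1) => E) F).symm.toLinearEquiv.finiteDimensional

/-- The derivatives in the second variable of a smooth map are smooth in both variables. -/
lemma contDiff_iteratedFDeriv_param {P : Type*} [NormedAddCommGroup P] [NormedSpace ℝ P]
    {Φ : P × E → F} (hΦ : ContDiff ℝ ∞ Φ) (m : ℕ) :
    ContDiff ℝ ∞ (fun p : P × E => iteratedFDeriv ℝ m (fun x => Φ (p.1, x)) p.2) := by
  induction m with
  | zero =>
    have h : (fun p : P × E => iteratedFDeriv ℝ 0 (fun x => Φ (p.1, x)) p.2) =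
        fun p => (continuousMultilinearCurryFin0 ℝ E F).symm (Φ p) := by
      funext p
      rw [iteratedFDeriv_zero_eq_comp]
      rfl
    rw [h]
    exact (continuousMultilinearCurryFin0 ℝ E F).symm.contDiff.comp hΦ
  | succ m ih =>
    have h : (fun p : P × E => iteratedFDeriv ℝ (m + 1) (fun x => Φ (p.1, x)) p.2) =
        fun p => (continuousMultilinearCurryLeftEquiv ℝ (fun _ : Fin (m + 1) => E) F).symm
          (fderiv ℝ (fun x => iteratedFDeriv ℝ m (fun x => Φ (p.1, x)) x) p.2) := by
      funext p
      rw [iteratedFDeriv_succ_eq_comp_left]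
      rfl
    rw [h]
    have hL : ContDiff ℝ ∞ (fun z : E →L[ℝ] E [×m]→L[ℝ] F =>
        (continuousMultilinearCurryLeftEquiv ℝ (fun _ : Fin (m + 1) => E) F).symm z) :=
      LinearIsometryEquiv.contDiff (𝕜 := ℝ) (E := E →L[ℝ] E [×m]→L[ℝ] F)
        (F := E [×(m + 1)]→L[ℝ] F) (n := ∞)
        ((continuousMultilinearCurryLeftEquiv ℝ (fun _ : Fin (m + 1) => E) F).symm)
    refine hL.comp ?_
    refine ContDiff.fderiv (m := ∞)
      (f := fun (p : P × E) (x : E) => iteratedFDeriv ℝ m (fun x => Φ (p.1, x)) x)
      (g := fun p => p.2) ?_ contDiff_snd (by simp)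
    exact ih.comp ((contDiff_fst.comp contDiff_fst).prodMk contDiff_snd)

end Pool.Agent.R776
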