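import Mathlib

/-!
Symplectic maps of a vector space which are close to the identity in the `C^1` sense are joined to
the identity by a smooth path of symplectic maps (midpoint generating functions).
-/

set_option autoImplicit false

open Set Filter Topology
open scoped ContDiff NNReal

namespace Pool.Agent.R776

variable {E : Type*} [NormedAddCommGroup E] [NormedSpace ℝ E]

/-- A smooth bijection with invertible derivatives has a smooth inverse. -/
lemma contDiff_inverse {X : Type*} [NormedAddCommGroup X] [NormedSpace ℝ X] [CompleteSpace X]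
    {F H : X → X} (hF : ContDiff ℝ ∞ F) (hFH : ∀ z, F (H z) = z) (hHF : ∀ p, H (F p) = p)
    (hinv : ∀ p, ∃ A : X ≃L[ℝ] X, HasFDerivAt F (A : X →L[ℝ] X) p) : ContDiff ℝ ∞ H := by
  rw [contDiff_iff_contDiffAt]
  intro z
  obtain ⟨A, hA⟩ := hinv (H z)
  have h1 : ContDiffAt ℝ ∞ F (H z) := hF.contDiffAt
  have h2 := h1.to_localInverse hA (by simp)
  rw [hFH] at h2
  refine h2.congr_of_eventuallyEq ?_
  have h3 := (h1.hasStrictFDerivAt' hA (by simp)).eventually_right_inverse
  rw [hFH] at h3
  filter_upwards [h3] with y hy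
  have h4 : H (F (h1.localInverse hA (by simp) y)) = h1.localInverse hA (by simp) y := hHF _
  have h5 : F (h1.localInverse hA (by simp) y) = y := hy
  rw [h5] at h4
  exact h4

/-- Parametric version. -/
lemma contDiff_inverse_param [CompleteSpace E] {g h : ℝ × E → E} (hg : ContDiff ℝ ∞ g)
    (hgh : ∀ t x, g (t, h (t, x)) = x) (hhg : ∀ t y, h (t, g (t, y)) = y)
    (hinv : ∀ t y, ∃ A : E ≃L[ℝ] E, HasFDerivAt (fun y => g (t, y)) (A : E →L[ℝ] E) y) :
    ContDiff ℝ ∞ h := by
  have key : ContDiff ℝ ∞ (fun p : ℝ × E => (p.1, h p)) := by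
    refine contDiff_inverse (F := fun p : ℝ × E => (p.1, g p)) (contDiff_fst.prodMk hg)
      (fun z => ?_) (fun p => ?_) (fun p => ?_)
    · exact Prod.ext rfl (hgh z.1 z.2)
    · exact Prod.ext rfl (hhg p.1 p.2)
    · obtain ⟨t, y⟩ := p
      obtain ⟨A, hA⟩ := hinv t y
      have hd : HasFDerivAt g (fderiv ℝ g (t, y)) (t, y) :=
        (hg.differentiable (by simp)).differentiableAt.hasFDerivAt
      set L := fderiv ℝ g (t, y) with hL
      have h1 : HasFDerivAt (fun y => g (t, y)) (L.comp (ContinuousLinearMap.inr ℝ ℝ E)) y :=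
        hd.comp y (hasFDerivAt_prodMk_right t y)
      have h2 : (A : E →L[ℝ] E) = L.comp (ContinuousLinearMap.inr ℝ ℝ E) := hA.unique h1
      have h3 : ∀ w : E, L (0, w) = A w := fun w => by
        have := DFunLike.congr_fun h2 w
        exact this.symm
      have h4 : ∀ (s : ℝ) (w : E), L (s, w) = L (s, 0) + A w := fun s w => by
        rw [← h3, ← map_add]
        simp
      let B : ℝ × E →L[ℝ] ℝ × E := (ContinuousLinearMap.fst ℝ ℝ E).prod
        ((A.symm : E →L[ℝ] E).comp (ContinuousLinearMap.snd ℝ ℝ E -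
          L.comp ((ContinuousLinearMap.inl ℝ ℝ E).comp (ContinuousLinearMap.fst ℝ ℝ E))))
      refine ⟨ContinuousLinearEquiv.equivOfInverse ((ContinuousLinearMap.fst ℝ ℝ E).prod L) B
        (fun v => ?_) (fun v => ?_), ?_⟩
      · obtain ⟨s, w⟩ := v
        simp only [B, ContinuousLinearMap.prod_apply, ContinuousLinearMap.coe_fst',
          ContinuousLinearMap.comp_apply, sub_apply,
          ContinuousLinearMap.coe_snd', ContinuousLinearMap.inl_apply,
          ContinuousLinearEquiv.coe_coe]
        rw [h4 s w]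
        simp
      · obtain ⟨s, w⟩ := v
        simp only [B, ContinuousLinearMap.prod_apply, ContinuousLinearMap.coe_fst',
          ContinuousLinearMap.comp_apply, sub_apply,
          ContinuousLinearMap.coe_snd', ContinuousLinearMap.inl_apply,
          ContinuousLinearEquiv.coe_coe]
        rw [h4 s]
        simp
      · exact (hasFDerivAt_fst).prodMk hd
  exact contDiff_snd.comp key

/-- The perturbation of the identity by a contraction is bijective. -/
lemma bijective_add_contraction [CompleteSpace E] {w : E → E} {c : ℝ≥0} (hc : c < 1)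
    (hw : LipschitzWith c w) : Function.Bijective (fun y => y + w y) := by
  have h1 : ApproximatesLinearOn (fun y => y + w y)
      ((ContinuousLinearEquiv.refl ℝ E : E ≃L[ℝ] E) : E →L[ℝ] E) univ c := by
    intro x _ y _
    have h2 : x + w x - (y + w y) - ((ContinuousLinearEquiv.refl ℝ E : E ≃L[ℝ] E) : E →L[ℝ] E)
        (x - y) = w x - w y := by
      simp
      abel
    change ‖x + w x - (y + w y) - _‖ ≤ _
    rw [h2]
    have h3 := hw.dist_le_mul x y
    rwa [dist_eq_norm, dist_eq_norm] at h3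
  have h2 : Subsingleton E ∨ c < ‖(((ContinuousLinearEquiv.refl ℝ E).symm : E ≃L[ℝ] E) :
      E →L[ℝ] E)‖₊⁻¹ := by
    rcases subsingleton_or_nontrivial E with h | h
    · exact Or.inl h
    · right
      have h3 : (((ContinuousLinearEquiv.refl ℝ E).symm : E ≃L[ℝ] E) : E →L[ℝ] E) =
          ContinuousLinearMap.id ℝ E := rfl
      rw [h3, ContinuousLinearMap.nnnorm_id, inv_one]
      exact hc
  exact (ApproximatesLinearOn.toHomeomorph _ h1 h2).bijective

lemma exists_equiv_one_add {A : E →L[ℝ] E} [CompleteSpace E] (hA : ‖A‖ < 1) :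
    ∃ B : E ≃L[ℝ] E, (B : E →L[ℝ] E) = ContinuousLinearMap.id ℝ E + A := by
  refine ⟨ContinuousLinearEquiv.unitsEquiv ℝ E (Units.oneSub (-A) (by rwa [norm_neg])), ?_⟩
  ext x
  simp [ContinuousLinearMap.one_def]

/-- Smooth families of perturbations of the identity by contractions and their inverses. -/
lemma exists_family [CompleteSpace E] {w : E → E} (hw : ContDiff ℝ ∞ w) {c : ℝ≥0} (hc : c < 1)
    (hL : LipschitzWith c w) {l : ℝ → ℝ} (hl : ContDiff ℝ ∞ l) (hl1 : ∀ t, |l t| ≤ 1) :
    ∃ h : ℝ × E → E, ContDiff ℝ ∞ h ∧ (∀ t x, h (t, x) + l t • w (h (t, x)) = x) ∧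
      ∀ t y, h (t, y + l t • w y) = y := by
  have hlip : ∀ t, LipschitzWith c (fun y => l t • w y) := fun t => by
    refine LipschitzWith.of_dist_le_mul fun x y => ?_
    rw [dist_eq_norm, ← smul_sub, norm_smul, Real.norm_eq_abs]
    have h1 := hL.dist_le_mul x y
    rw [dist_eq_norm] at h1
    calc |l t| * ‖w x - w y‖ ≤ 1 * ‖w x - w y‖ :=
          mul_le_mul_of_nonneg_right (hl1 t) (norm_nonneg _)
      _ ≤ c * dist x y := by rw [one_mul]; exact h1
  have hb : ∀ t, Function.Bijective (fun y => y + l t • w y) := fun t =>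
    bijective_add_contraction hc (hlip t)
  let e : ∀ t : ℝ, E ≃ E := fun t => Equiv.ofBijective _ (hb t)
  have he : ∀ t y, e t y = y + l t • w y := fun t y => rfl
  refine ⟨fun p => (e p.1).symm p.2, ?_, fun t x => ?_, fun t y => ?_⟩
  · refine contDiff_inverse_param (g := fun p => p.2 + l p.1 • w p.2) ?_ ?_ ?_ ?_
    · exact contDiff_snd.add ((hl.comp contDiff_fst).smul (hw.comp contDiff_snd))
    · intro t x
      exact (e t).apply_symm_apply x
    · intro t y
      exact (e t).symm_apply_apply y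
    · intro t y
      have hd : HasFDerivAt w (fderiv ℝ w y) y :=
        (hw.differentiable (by simp)).differentiableAt.hasFDerivAt
      have hn : ‖l t • fderiv ℝ w y‖ < 1 := by
        rw [norm_smul, Real.norm_eq_abs]
        have h1 : ‖fderiv ℝ w y‖ ≤ c := norm_fderiv_le_of_lipschitz ℝ hL
        calc |l t| * ‖fderiv ℝ w y‖ ≤ 1 * c :=
              mul_le_mul (hl1 t) h1 (norm_nonneg _) zero_le_one
          _ < 1 := by rw [one_mul]; exact_mod_cast hc
      obtain ⟨B, hB⟩ := exists_equiv_one_add hn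
      refine ⟨B, ?_⟩
      rw [hB]
      exact (hasFDerivAt_id y).add (hd.const_smul (l t))
  · exact (e t).apply_symm_apply x
  · exact (e t).symm_apply_apply y

/-- **Small symplectic maps are isotopic to the identity.** -/
theorem small_isotopy [CompleteSpace E] {η : E → E} (hη : ContDiff ℝ ∞ η)
    (hsm : ∀ x, ‖fderiv ℝ η x - ContinuousLinearMap.id ℝ E‖ ≤ 1 / 4)
    (b : E →L[ℝ] E →L[ℝ] ℝ) (hb : ∀ x v w, b (fderiv ℝ η x v) (fderiv ℝ η x w) = b v w)
    {K : Set E} (hK : ∀ x, x ∉ K → η x = x) :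
    ∃ Φ Ψ : ℝ × E → E, ContDiff ℝ ∞ Φ ∧ ContDiff ℝ ∞ Ψ ∧ (∀ t x, Ψ (t, Φ (t, x)) = x) ∧
      (∀ t x, Φ (t, Ψ (t, x)) = x) ∧ (∀ x, Φ (0, x) = x) ∧ (∀ x, Φ (1, x) = η x) ∧
      (∀ t x, x ∉ K → Φ (t, x) = x) ∧
      ∀ t x v w, b (fderiv ℝ (fun y => Φ (t, y)) x v) (fderiv ℝ (fun y => Φ (t, y)) x w) =
        b v w := by
  -- the displacement
  set u : E → E := fun x => η x - x with hu
  have hus : ContDiff ℝ ∞ u := hη.sub contDiff_id
  have hud : ∀ x, HasFDerivAt u (fderiv ℝ η x - ContinuousLinearMap.id ℝ E) x := fun x =>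
    ((hη.differentiable (by simp)).differentiableAt.hasFDerivAt).sub (hasFDerivAt_id x)
  have huL : LipschitzWith (1 / 4) u := by
    refine lipschitzWith_of_nnnorm_fderiv_le (𝕜 := ℝ) (hus.differentiable (by simp)) fun x => ?_
    rw [(hud x).fderiv]
    have := hsm x
    rw [← NNReal.coe_le_coe]
    simpa using this
  -- the midpoint map
  have hhalf : LipschitzWith (1 / 8) (fun x => (1 / 2 : ℝ) • u x) := by
    refine LipschitzWith.of_dist_le_mul fun x y => ?_
    rw [dist_eq_norm, ← smul_sub, norm_smul]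
    have h1 := huL.dist_le_mul x y
    rw [dist_eq_norm] at h1
    push_cast at h1 ⊢
    rw [Real.norm_of_nonneg (by norm_num)]
    linarith
  obtain ⟨k, hk, hk1, hk2⟩ := exists_family (w := fun x => (1 / 2 : ℝ) • u x)
    (contDiff_const.smul hus) (c := 1 / 8) (by
      rw [← NNReal.coe_lt_coe]; norm_num) hhalf (l := fun _ => 1) contDiff_const
    (fun t => by norm_num)
  set m' : E → E := fun y => k (0, y) with hm'
  have hm's : ContDiff ℝ ∞ m' := hk.comp (contDiff_const.prodMk contDiff_id)
  set m : E → E := fun x => x + (1 / 2 : ℝ) • u x with hm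
  have hm1 : ∀ y, m (m' y) = y := fun y => by
    have := hk1 0 y
    rw [one_smul] at this
    exact this
  have hm2 : ∀ x, m' (m x) = x := fun x => by
    have := hk2 0 x
    rw [one_smul] at this
    exact this
  -- the generating vector field
  set v : E → E := fun y => (1 / 2 : ℝ) • u (m' y) with hv
  have hvs : ContDiff ℝ ∞ v := contDiff_const.smul (hus.comp hm's)
  have hvm : ∀ x, v (m x) = (1 / 2 : ℝ) • u x := fun x => by
    simp only [hv]
    rw [hm2]
  have hm'L : LipschitzWith 2 m' := by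
    refine LipschitzWith.of_dist_le_mul fun x y => ?_
    have h1 : m' x + (1 / 2 : ℝ) • u (m' x) = x := hm1 x
    have h2 : m' y + (1 / 2 : ℝ) • u (m' y) = y := hm1 y
    have h3 := hhalf.dist_le_mul (m' x) (m' y)
    rw [dist_eq_norm, dist_eq_norm] at h3
    rw [dist_eq_norm, dist_eq_norm]
    have h4 : m' x - m' y = (x - y) - ((1 / 2 : ℝ) • u (m' x) - (1 / 2 : ℝ) • u (m' y)) := by
      have h6 : x - y = (m' x + (1 / 2 : ℝ) • u (m' x)) - (m' y + (1 / 2 : ℝ) • u (m' y)) := by
        rw [h1, h2]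
      rw [h6]
      abel
    have h5 : ‖m' x - m' y‖ ≤ ‖x - y‖ + ‖(1 / 2 : ℝ) • u (m' x) - (1 / 2 : ℝ) • u (m' y)‖ := by
      calc ‖m' x - m' y‖ = ‖(x - y) - ((1 / 2 : ℝ) • u (m' x) - (1 / 2 : ℝ) • u (m' y))‖ := by
            rw [← h4]
        _ ≤ _ := norm_sub_le _ _
    push_cast at h3 ⊢
    linarith [norm_nonneg (x - y), norm_nonneg (m' x - m' y)]
  have hvL : LipschitzWith (1 / 4) v := by
    refine LipschitzWith.of_dist_le_mul fun x y => ?_
    have h1 := hhalf.dist_le_mul (m' x) (m' y)
    have h2 := hm'L.dist_le_mul x y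
    push_cast at h1 h2 ⊢
    have h3 : dist (v x) (v y) ≤ 1 / 8 * dist (m' x) (m' y) := h1
    linarith
  -- the path parameter
  have hl : ContDiff ℝ ∞ Real.smoothTransition := Real.smoothTransition.contDiff
  have hl1 : ∀ t, |Real.smoothTransition t| ≤ 1 := fun t => by
    rw [abs_of_nonneg (Real.smoothTransition.nonneg t)]
    exact Real.smoothTransition.le_one t
  have hq : (1 / 4 : ℝ≥0) < 1 := by rw [← NNReal.coe_lt_coe]; norm_num
  obtain ⟨hp, hps, hp1, hp2⟩ := exists_family hvs hq hvL hl hl1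
  obtain ⟨hn, hns, hn1, hn2⟩ := exists_family hvs hq hvL (l := fun t => -Real.smoothTransition t)
    hl.neg (fun t => by rw [abs_neg]; exact hl1 t)
  set l : ℝ → ℝ := Real.smoothTransition with hldef
  -- derivative of the two families
  have hvd : ∀ y, HasFDerivAt v (fderiv ℝ v y) y := fun y =>
    (hvs.differentiable (by simp)).differentiableAt.hasFDerivAt
  have hgd : ∀ (a : ℝ) (y : E), HasFDerivAt (fun y => y + a • v y)
      (ContinuousLinearMap.id ℝ E + a • fderiv ℝ v y) y := fun a y =>
    (hasFDerivAt_id y).add ((hvd y).const_smul a)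
  -- infinitesimal symplecticity
  have hsp : ∀ y z w, b (fderiv ℝ v y z) w + b z (fderiv ℝ v y w) = 0 := by
    intro y z w
    obtain ⟨x, rfl⟩ : ∃ x, m x = y := ⟨m' y, hm1 y⟩
    -- the derivative of `v ∘ m`
    have h1 : HasFDerivAt m (ContinuousLinearMap.id ℝ E +
        (1 / 2 : ℝ) • (fderiv ℝ η x - ContinuousLinearMap.id ℝ E)) x :=
      (hasFDerivAt_id x).add ((hud x).const_smul (1 / 2 : ℝ))
    have h2 : HasFDerivAt (fun x => v (m x)) ((fderiv ℝ v (m x)).comp
        (ContinuousLinearMap.id ℝ E +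
        (1 / 2 : ℝ) • (fderiv ℝ η x - ContinuousLinearMap.id ℝ E))) x :=
      (hvd (m x)).comp x h1
    have h3 : HasFDerivAt (fun x => v (m x))
        ((1 / 2 : ℝ) • (fderiv ℝ η x - ContinuousLinearMap.id ℝ E)) x := by
      have h4 : (fun x => v (m x)) = fun x => (1 / 2 : ℝ) • u x := funext hvm
      rw [h4]
      exact (hud x).const_smul (1 / 2 : ℝ)
    have h4 := h2.unique h3
    have h5 : ∀ p, fderiv ℝ v (m x) (p + (1 / 2 : ℝ) • (fderiv ℝ η x p - p)) =
        (1 / 2 : ℝ) • (fderiv ℝ η x p - p) := fun p => DFunLike.congr_fun h4 p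
    -- surjectivity of the derivative of `m`
    have h6 : ∀ q : E, ∃ p : E, p + (1 / 2 : ℝ) • (fderiv ℝ η x p - p) = q := by
      have hnorm : ‖(1 / 2 : ℝ) • (fderiv ℝ η x - ContinuousLinearMap.id ℝ E)‖ < 1 := by
        rw [norm_smul, Real.norm_of_nonneg (by norm_num)]
        have := hsm x
        linarith
      obtain ⟨B, hB⟩ := exists_equiv_one_add hnorm
      intro q
      refine ⟨B.symm q, ?_⟩
      have h7 : B (B.symm q) = q := B.apply_symm_apply q
      have h8 := DFunLike.congr_fun hB (B.symm q)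
      rw [ContinuousLinearEquiv.coe_coe, h7] at h8
      exact h8.symm
    obtain ⟨p, rfl⟩ := h6 z
    obtain ⟨q, rfl⟩ := h6 w
    rw [h5, h5]
    have h9 := hb x p q
    simp only [map_add, map_sub, map_smul, add_apply, sub_apply, smul_apply, smul_eq_mul] at h9 ⊢
    linear_combination (1 / 2) * h9
  have hiso : ∀ (a : ℝ) (y z w : E), b (z + a • fderiv ℝ v y z) (w + a • fderiv ℝ v y w) =
      b (z - a • fderiv ℝ v y z) (w - a • fderiv ℝ v y w) := by
    intro a y z w
    have h1 := hsp y z w
    simp only [map_add, map_sub, map_smul, add_apply, sub_apply, smul_apply, smul_eq_mul]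
    linear_combination (2 * a) * h1
  have hm_out : ∀ x, x ∉ K → m x = x := fun x hx => by
    simp only [hm, hu]
    rw [hK x hx]
    simp
  have hv_out : ∀ y, y ∉ K → v y = 0 := by
    intro y hy
    have h1 : m y = y := hm_out y hy
    have h2 := hvm y
    rw [h1] at h2
    rw [h2]
    simp only [hu]
    rw [hK y hy]
    simp
  refine ⟨fun p => hn p + l p.1 • v (hn p), fun p => hp p - l p.1 • v (hp p), ?_, ?_, ?_, ?_, ?_,
    ?_, ?_, ?_⟩
  · exact hns.add ((hl.comp contDiff_fst).smul (hvs.comp hns))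
  · exact hps.sub ((hl.comp contDiff_fst).smul (hvs.comp hps))
  · intro t x
    have h1 : hp (t, hn (t, x) + l t • v (hn (t, x))) = hn (t, x) := hp2 t _
    have h2 := hn1 t x
    change hp (t, hn (t, x) + l t • v (hn (t, x))) -
      l t • v (hp (t, hn (t, x) + l t • v (hn (t, x)))) = x
    rw [h1, sub_eq_add_neg, ← neg_smul]
    exact h2
  · intro t x
    have h1 : hn (t, hp (t, x) + (- l t) • v (hp (t, x))) = hp (t, x) := hn2 t _
    rw [neg_smul, ← sub_eq_add_neg] at h1
    have h2 := hp1 t x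
    change hn (t, hp (t, x) - l t • v (hp (t, x))) +
      l t • v (hn (t, hp (t, x) - l t • v (hp (t, x)))) = x
    rw [h1]
    exact h2
  · intro x
    have h0 : l 0 = 0 := Real.smoothTransition.zero
    have h1 := hn1 0 x
    change hn (0, x) + l 0 • v (hn (0, x)) = x
    rw [h0] at h1 ⊢
    rw [neg_zero, zero_smul, add_zero] at h1
    rw [zero_smul, add_zero]
    exact h1
  · intro x
    have h0 : l 1 = 1 := Real.smoothTransition.one
    have h1 : hn (1, m x + (- l 1) • v (m x)) = m x := hn2 1 (m x)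
    have h2 : m x + (- l 1) • v (m x) = x := by
      rw [h0, hvm, neg_smul, one_smul]
      simp only [hm]
      abel
    rw [h2] at h1
    change hn (1, x) + l 1 • v (hn (1, x)) = η x
    rw [h1, h0, one_smul, hvm]
    simp only [hm, hu]
    module
  · intro t x hx
    have h1 : hn (t, x + (- l t) • v x) = x := hn2 t x
    rw [hv_out x hx, smul_zero, add_zero] at h1
    change hn (t, x) + l t • v (hn (t, x)) = x
    rw [h1, hv_out x hx, smul_zero, add_zero]
  · intro t x z w
    -- the derivative of the inverse of `y ↦ y - l t • v y`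
    set y := hn (t, x) with hy
    have h1 : HasFDerivAt (fun x => hn (t, x)) (fderiv ℝ (fun x => hn (t, x)) x) x :=
      ((hns.comp (contDiff_const.prodMk contDiff_id)).differentiable
        (by simp)).differentiableAt.hasFDerivAt
    set D := fderiv ℝ (fun x => hn (t, x)) x with hD
    have h2 := (hgd (- l t) (hn (t, x))).comp x h1
    have h3 : ((fun y => y + (- l t) • v y) ∘ fun x => hn (t, x)) = id := by
      funext x
      exact hn1 t x
    rw [h3] at h2
    have h4 := h2.unique (hasFDerivAt_id x)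
    have h5 : ∀ p, D p - l t • fderiv ℝ v y (D p) = p := fun p => by
      have := DFunLike.congr_fun h4 p
      rw [sub_eq_add_neg, ← neg_smul]
      exact this
    have h6 : HasFDerivAt (fun x => hn (t, x) + l t • v (hn (t, x)))
        ((ContinuousLinearMap.id ℝ E + l t • fderiv ℝ v y).comp D) x :=
      HasFDerivAt.comp (g := fun y => y + l t • v y) x (hgd (l t) (hn (t, x))) h1
    have h7 : fderiv ℝ (fun x => hn (t, x) + l t • v (hn (t, x))) x =
        (ContinuousLinearMap.id ℝ E + l t • fderiv ℝ v y).comp D := h6.fderiv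
    change b (fderiv ℝ (fun x => hn (t, x) + l t • v (hn (t, x))) x z)
      (fderiv ℝ (fun x => hn (t, x) + l t • v (hn (t, x))) x w) = b z w
    rw [h7]
    have h8 : ∀ p, ((ContinuousLinearMap.id ℝ E + l t • fderiv ℝ v y).comp D) p =
        D p + l t • fderiv ℝ v y (D p) := fun p => rfl
    rw [h8, h8, hiso, h5, h5]

end Pool.Agent.R776
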