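import Mathlib
import Pool.Agent.R776.SmallIso
import Pool.Agent.R776.ParamDeriv

/-!
# The group of compactly supported symplectomorphisms of `ℝ^{2n}`

`SympCt n` is the set of compactly supported symplectomorphisms of the standard `ℝ^{2n}`. For a
set `K` the set `Supported K` of those supported in `K` carries the `C^∞` topology (uniform
convergence of all derivatives), and `SympCt n` carries the direct limit topology over all compact
sets `K`.
-/

set_option autoImplicit false

open Set Filter Topology
open scoped ContDiff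

noncomputable section

namespace Pool.Agent.R776

/-- The space `ℝ^{2n}` with coordinates `(x, y)`, `x, y ∈ ℝ^n`. -/
abbrev Phase (n : ℕ) : Type := (Fin n → ℝ) × (Fin n → ℝ)

/-- The standard symplectic form `∑ dxᵢ ∧ dyᵢ` of `ℝ^{2n}`. -/
def omegaStd {n : ℕ} (v w : Phase n) : ℝ := ∑ i, (v.1 i * w.2 i - v.2 i * w.1 i)

/-- The compactly supported symplectomorphisms of `ℝ^{2n}`: smooth maps with a smooth inverse which
preserve the standard symplectic form and are the identity outside some compact set. -/
structure SympCt (n : ℕ) where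
  /-- the map -/
  toFun : Phase n → Phase n
  /-- its inverse -/
  invFun : Phase n → Phase n
  left_inv : ∀ x, invFun (toFun x) = x
  right_inv : ∀ x, toFun (invFun x) = x
  smooth : ContDiff ℝ ∞ toFun
  smooth_inv : ContDiff ℝ ∞ invFun
  symplectic : ∀ x v w, omegaStd (fderiv ℝ toFun x v) (fderiv ℝ toFun x w) = omegaStd v w
  compact_support : ∃ K : Set (Phase n), IsCompact K ∧ ∀ x, x ∉ K → toFun x = x

/-- The symplectomorphisms which are the identity outside `K`. -/
def Supported {n : ℕ} (K : Set (Phase n)) : Type := {φ : SympCt n // ∀ x, x ∉ K → φ.toFun x = x}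

/-- The `m`-th derivative of a symplectomorphism, as a continuous function on `ℝ^{2n}` with values
in the multilinear maps. -/
def jet {n : ℕ} (m : ℕ) (φ : SympCt n) :
    C(Phase n, ContinuousMultilinearMap ℝ (fun _ : Fin m => Phase n) (Phase n)) :=
  ⟨iteratedFDeriv ℝ m φ.toFun, φ.smooth.continuous_iteratedFDeriv (by exact_mod_cast le_top)⟩

/-- The `C^∞` topology on the symplectomorphisms supported in `K`: the coarsest topology for which
all derivatives depend continuously on the map, where continuous functions on `ℝ^{2n}` carry the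
topology of uniform convergence on compact sets. -/
instance cInfTopology {n : ℕ} (K : Set (Phase n)) : TopologicalSpace (Supported K) :=
  ⨅ m : ℕ, TopologicalSpace.induced (fun φ : Supported K => jet m φ.1) inferInstance

/-- The direct limit topology on the group of compactly supported symplectomorphisms: the finest
topology for which the inclusions of the `Supported K`, `K` compact, are continuous. -/
instance limitTopology (n : ℕ) : TopologicalSpace (SympCt n) :=
  ⨆ K : {K : Set (Phase n) // IsCompact K},
    TopologicalSpace.coinduced (fun φ : Supported K.1 => φ.1) (cInfTopology K.1)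

/-! ### Auxiliary results -/

/-- the symplectic form as a continuous bilinear map -/
def omegaL (n : ℕ) : Phase n →L[ℝ] Phase n →L[ℝ] ℝ :=
  LinearMap.toContinuousLinearMap
    ((LinearMap.toContinuousLinearMap : (Phase n →ₗ[ℝ] ℝ) ≃ₗ[ℝ] (Phase n →L[ℝ] ℝ)).toLinearMap ∘ₗ
      (LinearMap.mk₂ ℝ (omegaStd (n := n))
        (fun v v' w => by
          simp only [omegaStd, Prod.fst_add, Prod.snd_add, Pi.add_apply, ← Finset.sum_add_distrib]
          exact Finset.sum_congr rfl fun i _ => by ring)
        (fun c v w => by
          simp only [omegaStd, Prod.smul_fst, Prod.smul_snd, Pi.smul_apply, smul_eq_mul,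
            Finset.mul_sum]
          exact Finset.sum_congr rfl fun i _ => by ring)
        (fun v w w' => by
          simp only [omegaStd, Prod.fst_add, Prod.snd_add, Pi.add_apply, ← Finset.sum_add_distrib]
          exact Finset.sum_congr rfl fun i _ => by ring)
        (fun c v w => by
          simp only [omegaStd, Prod.smul_fst, Prod.smul_snd, Pi.smul_apply, smul_eq_mul,
            Finset.mul_sum]
          exact Finset.sum_congr rfl fun i _ => by ring)))

lemma omegaL_apply {n : ℕ} (v w : Phase n) : omegaL n v w = omegaStd v w := rfl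

variable {n : ℕ}

lemma SympCt.eq_of {φ ψ : SympCt n} (h : ∀ x, φ.toFun x = ψ.toFun x) : φ = ψ := by
  have h1 : φ.toFun = ψ.toFun := funext h
  have h2 : φ.invFun = ψ.invFun := by
    funext x
    rw [← φ.left_inv (ψ.invFun x), h, ψ.right_inv]
  cases φ
  cases ψ
  simp only at h1 h2
  subst h1
  subst h2
  rfl

instance secondCountable_multilinear (m : ℕ) :
    SecondCountableTopology (ContinuousMultilinearMap ℝ (fun _ : Fin m => Phase n) (Phase n)) := by
  have := finiteDimensional_multilinear (E := Phase n) (F := Phase n) m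
  have : ProperSpace (ContinuousMultilinearMap ℝ (fun _ : Fin m => Phase n) (Phase n)) :=
    FiniteDimensional.proper ℝ _
  infer_instance

instance secondCountable_supported (K : Set (Phase n)) :
    SecondCountableTopology (Supported K) := by
  have h : ∀ m : ℕ, @SecondCountableTopology (Supported K)
      (TopologicalSpace.induced (fun φ : Supported K => jet m φ.1) inferInstance) :=
    fun m => TopologicalSpace.secondCountableTopology_induced _ _ _
  exact TopologicalSpace.secondCountableTopology_iInf h

lemma continuous_jet (K : Set (Phase n)) (m : ℕ) :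
    Continuous (fun φ : Supported K => jet m φ.1) := by
  rw [continuous_iff_le_induced]
  exact iInf_le _ m

lemma continuous_incl {K : Set (Phase n)} (hK : IsCompact K) :
    Continuous (fun φ : Supported K => φ.1) := by
  rw [continuous_iff_coinduced_le]
  exact le_iSup (fun K : {K : Set (Phase n) // IsCompact K} =>
    TopologicalSpace.coinduced (fun φ : Supported K.1 => φ.1) (cInfTopology K.1)) ⟨K, hK⟩

/-- A smooth family of symplectomorphisms supported in `K` is a continuous path. -/
lemma continuous_family {K : Set (Phase n)} {Φ : ℝ × Phase n → Phase n} (hΦ : ContDiff ℝ ∞ Φ)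
    (f : unitInterval → Supported K) (hf : ∀ t x, (f t).1.toFun x = Φ (t, x)) :
    Continuous f := by
  refine continuous_iInf_rng.2 fun m => ?_
  refine continuous_induced_rng.2 ?_
  refine ContinuousMap.continuous_of_continuous_uncurry _ ?_
  have h1 := (contDiff_iteratedFDeriv_param hΦ m).continuous
  have h2 : (Function.uncurry fun (t : unitInterval) (x : Phase n) => (jet m (f t).1) x) =
      (fun p : ℝ × Phase n => iteratedFDeriv ℝ m (fun x => Φ (p.1, x)) p.2) ∘
        fun q : unitInterval × Phase n => ((q.1 : ℝ), q.2) := by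
    funext q
    have h3 : (f q.1).1.toFun = fun x => Φ ((q.1 : ℝ), x) := funext (hf q.1)
    change iteratedFDeriv ℝ m (f q.1).1.toFun q.2 = _
    rw [h3]
    rfl
  change Continuous (Function.uncurry fun (t : unitInterval) (x : Phase n) => (jet m (f t).1) x)
  rw [h2]
  exact h1.comp (by fun_prop)

lemma norm_fderiv_sub_le (f g : Phase n → Phase n) (x : Phase n) :
    ‖fderiv ℝ f x - fderiv ℝ g x‖ ≤ ‖iteratedFDeriv ℝ 1 f x - iteratedFDeriv ℝ 1 g x‖ := by
  refine ContinuousLinearMap.opNorm_le_bound _ (norm_nonneg _) fun v => ?_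
  have h1 := (iteratedFDeriv ℝ 1 f x - iteratedFDeriv ℝ 1 g x).le_opNorm (fun _ => v)
  simpa using h1

/-- Maps close to `ψ` in the `C^1` sense are joined to `ψ`. -/
lemma joined_of_close {K : Set (Phase n)} (hK : IsCompact K) (ψ χ : Supported K) {D : ℝ}
    (hDpos : 0 < D) (hCD : ∀ y ∈ K, ‖fderiv ℝ ψ.1.invFun y‖ ≤ D)
    (hχ : ∀ x ∈ K, ‖fderiv ℝ χ.1.toFun x - fderiv ℝ ψ.1.toFun x‖ ≤ 1 / (4 * D)) :
    Joined ψ.1 χ.1 := by
  -- the quotient
  set η : Phase n → Phase n := fun y => χ.1.toFun (ψ.1.invFun y) with hη
  have hηs : ContDiff ℝ ∞ η := χ.1.smooth.comp ψ.1.smooth_inv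
  have hinv_out : ∀ y, y ∉ K → ψ.1.invFun y = y := fun y hy => by
    have h4 := ψ.2 y hy
    conv_lhs => rw [← h4]
    exact ψ.1.left_inv y
  have hη_out : ∀ y, y ∉ K → η y = y := fun y hy => by
    simp only [hη]
    rw [hinv_out y hy, χ.2 y hy]
  have hinv_in : ∀ y, y ∈ K → ψ.1.invFun y ∈ K := fun y hy => by
    by_contra h
    have h4 := ψ.2 _ h
    rw [ψ.1.right_inv] at h4
    rw [← h4] at h
    exact h hy
  have hdη : ∀ y, HasFDerivAt η ((fderiv ℝ χ.1.toFun (ψ.1.invFun y)).comp
      (fderiv ℝ ψ.1.invFun y)) y := fun y =>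
    ((χ.1.smooth.differentiable (by simp)).differentiableAt.hasFDerivAt).comp y
      ((ψ.1.smooth_inv.differentiable (by simp)).differentiableAt.hasFDerivAt)
  have hdψ : ∀ y, (fderiv ℝ ψ.1.toFun (ψ.1.invFun y)).comp (fderiv ℝ ψ.1.invFun y) =
      ContinuousLinearMap.id ℝ (Phase n) := fun y => by
    have h4 : HasFDerivAt (fun y => ψ.1.toFun (ψ.1.invFun y))
        ((fderiv ℝ ψ.1.toFun (ψ.1.invFun y)).comp (fderiv ℝ ψ.1.invFun y)) y :=
      ((ψ.1.smooth.differentiable (by simp)).differentiableAt.hasFDerivAt).comp y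
        ((ψ.1.smooth_inv.differentiable (by simp)).differentiableAt.hasFDerivAt)
    have h5 : (fun y => ψ.1.toFun (ψ.1.invFun y)) = id := funext ψ.1.right_inv
    rw [h5] at h4
    exact h4.unique (hasFDerivAt_id y)
  have hsm : ∀ y, ‖fderiv ℝ η y - ContinuousLinearMap.id ℝ (Phase n)‖ ≤ 1 / 4 := by
    intro y
    by_cases hy : y ∈ K
    · rw [(hdη y).fderiv, ← hdψ y, ← ContinuousLinearMap.sub_comp]
      refine (ContinuousLinearMap.opNorm_comp_le _ _).trans ?_
      have h5 := hχ _ (hinv_in y hy)
      calc _ ≤ (1 / (4 * D)) * D :=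
            mul_le_mul h5 (hCD y hy) (norm_nonneg _) (by positivity)
        _ = 1 / 4 := by field_simp
    · have h4 : η =ᶠ[𝓝 y] id := by
        filter_upwards [hK.isClosed.isOpen_compl.mem_nhds hy] with z hz using hη_out z hz
      rw [h4.fderiv_eq, fderiv_id, sub_self, norm_zero]
      norm_num
  have hωη : ∀ x v w, omegaL n (fderiv ℝ η x v) (fderiv ℝ η x w) = omegaL n v w := by
    intro y v w
    rw [(hdη y).fderiv]
    simp only [omegaL_apply, ContinuousLinearMap.comp_apply]
    rw [χ.1.symplectic]
    have h4 : ∀ v, fderiv ℝ ψ.1.toFun (ψ.1.invFun y) (fderiv ℝ ψ.1.invFun y v) = v :=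
      fun v => DFunLike.congr_fun (hdψ y) v
    rw [← ψ.1.symplectic (ψ.1.invFun y), h4, h4]
  obtain ⟨Φ, Ψ, a1, a2, a3, a4, a5, a6, a7, a8⟩ :=
    Pool.Agent.R776.small_isotopy hηs hsm (omegaL n) hωη hη_out
  have a7' : ∀ t x, x ∉ K → Φ (t, ψ.1.toFun x) = x := fun t x hx => by
    rw [ψ.2 x hx, a7 t x hx]
  -- the path
  let f : unitInterval → Supported K := fun t =>
    ⟨{ toFun := fun x => Φ (t, ψ.1.toFun x)
       invFun := fun x => ψ.1.invFun (Ψ (t, x))
       left_inv := fun x => by rw [a3, ψ.1.left_inv]
       right_inv := fun x => by rw [ψ.1.right_inv, a4]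
       smooth := a1.comp (contDiff_const.prodMk ψ.1.smooth)
       smooth_inv := ψ.1.smooth_inv.comp (a2.comp (contDiff_const.prodMk contDiff_id))
       symplectic := fun x v w => by
         have h4 : HasFDerivAt (fun x => Φ ((t : ℝ), ψ.1.toFun x))
             ((fderiv ℝ (fun y => Φ ((t : ℝ), y)) (ψ.1.toFun x)).comp
               (fderiv ℝ ψ.1.toFun x)) x :=
           HasFDerivAt.comp (g := fun y => Φ ((t : ℝ), y)) x
             (((a1.comp (contDiff_const.prodMk contDiff_id)).differentiable
               (by simp)).differentiableAt.hasFDerivAt)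
             ((ψ.1.smooth.differentiable (by simp)).differentiableAt.hasFDerivAt)
         rw [h4.fderiv, ContinuousLinearMap.comp_apply, ContinuousLinearMap.comp_apply,
           ← omegaL_apply, a8, omegaL_apply, ψ.1.symplectic]
       compact_support := ⟨K, hK, a7' t⟩ }, a7' t⟩
  have hfc : Continuous f := by
    refine continuous_family (Φ := fun p => Φ (p.1, ψ.1.toFun p.2))
      (a1.comp (contDiff_fst.prodMk (ψ.1.smooth.comp contDiff_snd))) f fun t x => rfl
  refine ⟨⟨⟨fun t => (f t).1, (continuous_incl hK).comp hfc⟩, ?_, ?_⟩⟩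
  · refine SympCt.eq_of fun x => ?_
    change Φ ((0 : unitInterval), ψ.1.toFun x) = ψ.1.toFun x
    exact a5 _
  · refine SympCt.eq_of fun x => ?_
    change Φ ((1 : unitInterval), ψ.1.toFun x) = χ.1.toFun x
    have h5 := a6 (ψ.1.toFun x)
    refine h5.trans ?_
    simp only [hη]
    rw [ψ.1.left_inv]


end Pool.Agent.R776
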