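import Pool.Agent.R776.SympCt

set_option autoImplicit false

open Set Filter Topology
open scoped ContDiff NNReal

noncomputable section

namespace Pool.Agent.R776

variable {n : ℕ}

/-- A smooth family of symplectomorphisms with uniform compact support is a path. -/
lemma joined_of_family {K : Set (Phase n)} (hK : IsCompact K) {Φ Ψ : ℝ × Phase n → Phase n}
    (hΦ : ContDiff ℝ ∞ Φ) (hΨ : ContDiff ℝ ∞ Ψ) (h1 : ∀ t x, Ψ (t, Φ (t, x)) = x)
    (h2 : ∀ t x, Φ (t, Ψ (t, x)) = x)
    (h3 : ∀ t x v w, omegaStd (fderiv ℝ (fun y => Φ (t, y)) x v)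
      (fderiv ℝ (fun y => Φ (t, y)) x w) = omegaStd v w)
    (h4 : ∀ t x, x ∉ K → Φ (t, x) = x) {φ ψ : SympCt n} (h5 : ∀ x, φ.toFun x = Φ (0, x))
    (h6 : ∀ x, ψ.toFun x = Φ (1, x)) : Joined φ ψ := by
  let f : unitInterval → Supported K := fun t =>
    ⟨{ toFun := fun x => Φ (t, x)
       invFun := fun x => Ψ (t, x)
       left_inv := h1 t
       right_inv := h2 t
       smooth := hΦ.comp (contDiff_const.prodMk contDiff_id)
       smooth_inv := hΨ.comp (contDiff_const.prodMk contDiff_id)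
       symplectic := h3 t
       compact_support := ⟨K, hK, h4 t⟩ }, h4 t⟩
  have hfc : Continuous f := continuous_family hΦ f fun t x => rfl
  refine ⟨⟨⟨fun t => (f t).1, (continuous_incl hK).comp hfc⟩, ?_, ?_⟩⟩
  · exact SympCt.eq_of fun x => (h5 x).symm
  · exact SympCt.eq_of fun x => (h6 x).symm

/-- The identity. -/
def SympCt.idMap (n : ℕ) : SympCt n where
  toFun x := x
  invFun x := x
  left_inv _ := rfl
  right_inv _ := rfl
  smooth := contDiff_id
  smooth_inv := contDiff_id
  symplectic x v w := by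
    have h : fderiv ℝ (fun x : Phase n => x) x = ContinuousLinearMap.id ℝ (Phase n) := fderiv_id
    rw [h]
    rfl
  compact_support := ⟨∅, isCompact_empty, fun _ _ => rfl⟩

/-- The conjugate of `φ` by the map `x ↦ c + ρ • x`. -/
lemma conj_symplectic (φ : Phase n → Phase n) (hφ : ContDiff ℝ ∞ φ)
    (hs : ∀ x v w, omegaStd (fderiv ℝ φ x v) (fderiv ℝ φ x w) = omegaStd v w) (c : Phase n)
    {ρ : ℝ} (hρ : ρ ≠ 0) (x : Phase n) :
    HasFDerivAt (fun x => ρ⁻¹ • (φ (c + ρ • x) - c)) (fderiv ℝ φ (c + ρ • x)) x := by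
  have h1 : HasFDerivAt (fun x : Phase n => c + ρ • x) (ρ • ContinuousLinearMap.id ℝ (Phase n)) x :=
    ((hasFDerivAt_id x).const_smul ρ).const_add c
  have h2 := ((hφ.differentiable (by simp)).differentiableAt.hasFDerivAt
    (x := c + ρ • x)).comp x h1
  have h3 := (h2.sub_const c).const_smul ρ⁻¹
  refine h3.congr_fderiv ?_
  refine ContinuousLinearMap.ext fun v => ?_
  change ρ⁻¹ • (fderiv ℝ φ (c + ρ • x) (ρ • v)) = fderiv ℝ φ (c + ρ • x) v
  rw [map_smul, smul_smul, inv_mul_cancel₀ hρ, one_smul]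

/-- Conjugation by `x ↦ a + r • x`. -/
def SympCt.conj (φ : SympCt n) (a : Phase n) (r : ℝ) (hr : r ≠ 0) : SympCt n where
  toFun x := r⁻¹ • (φ.toFun (a + r • x) - a)
  invFun x := r⁻¹ • (φ.invFun (a + r • x) - a)
  left_inv x := by
    rw [smul_smul, mul_inv_cancel₀ hr, one_smul, add_sub_cancel, φ.left_inv, add_sub_cancel_left,
      smul_smul, inv_mul_cancel₀ hr, one_smul]
  right_inv x := by
    rw [smul_smul, mul_inv_cancel₀ hr, one_smul, add_sub_cancel, φ.right_inv, add_sub_cancel_left,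
      smul_smul, inv_mul_cancel₀ hr, one_smul]
  smooth := ((φ.smooth.comp (contDiff_const.add (contDiff_const_smul r))).sub
    contDiff_const).const_smul r⁻¹
  smooth_inv := ((φ.smooth_inv.comp (contDiff_const.add (contDiff_const_smul r))).sub
    contDiff_const).const_smul r⁻¹
  symplectic x v w := by
    rw [(conj_symplectic φ.toFun φ.smooth φ.symplectic a hr x).fderiv, φ.symplectic]
  compact_support := by
    obtain ⟨K, hK, h⟩ := φ.compact_support
    refine ⟨(fun y => r⁻¹ • (y - a)) '' K, hK.image (by fun_prop), fun x hx => ?_⟩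
    have h1 : a + r • x ∉ K := fun h2 => hx ⟨a + r • x, h2, by
      simp only [add_sub_cancel_left]
      rw [smul_smul, inv_mul_cancel₀ hr, one_smul]⟩
    rw [h _ h1, add_sub_cancel_left, smul_smul, inv_mul_cancel₀ hr, one_smul]

lemma smooth_ratio {r : ℝ} (hr : 0 < r) (t : ℝ) :
    0 < 1 + Real.smoothTransition t * (r - 1) := by
  have h1 := Real.smoothTransition.nonneg t
  have h2 := Real.smoothTransition.le_one t
  have h3 : 1 + Real.smoothTransition t * (r - 1) =
      (1 - Real.smoothTransition t) + Real.smoothTransition t * r := by ring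
  rw [h3]
  rcases h1.eq_or_lt with h | h
  · rw [← h]; norm_num
  · have : 0 < Real.smoothTransition t * r := mul_pos h hr
    linarith

/-- Every element is joined to its conjugates by homotheties. -/
lemma joined_conj (φ : SympCt n) (a : Phase n) {r : ℝ} (hr : 0 < r) :
    Joined φ (φ.conj a r hr.ne') := by
  obtain ⟨K, hK, hφ⟩ := φ.compact_support
  obtain ⟨R, hR⟩ := hK.isBounded.subset_closedBall (0 : Phase n)
  set l : ℝ → ℝ := Real.smoothTransition with hl
  have hls : ContDiff ℝ ∞ l := Real.smoothTransition.contDiff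
  set ρ : ℝ → ℝ := fun t => 1 + l t * (r - 1) with hρ
  have hρpos : ∀ t, 0 < ρ t := fun t => smooth_ratio hr t
  have hρs : ContDiff ℝ ∞ ρ := contDiff_const.add (hls.mul contDiff_const)
  set c : ℝ → Phase n := fun t => l t • a with hc
  have hcs : ContDiff ℝ ∞ c := hls.smul contDiff_const
  set μ : ℝ := min 1 r with hμ
  have hμpos : 0 < μ := lt_min one_pos hr
  have hρμ : ∀ t, μ ≤ ρ t := fun t => by
    have h1 : 0 ≤ l t := Real.smoothTransition.nonneg t
    have h2 : l t ≤ 1 := Real.smoothTransition.le_one t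
    have h3 : ρ t = (1 - l t) * 1 + l t * r := by simp only [hρ]; ring
    rw [h3]
    have h4 : μ ≤ 1 := min_le_left _ _
    have h5 : μ ≤ r := min_le_right _ _
    nlinarith
  have hinvs : ContDiff ℝ ∞ (fun p : ℝ × Phase n => (ρ p.1)⁻¹) :=
    (hρs.comp contDiff_fst).inv fun p => (hρpos p.1).ne'
  have hin : ContDiff ℝ ∞ (fun p : ℝ × Phase n => c p.1 + ρ p.1 • p.2) :=
    (hcs.comp contDiff_fst).add ((hρs.comp contDiff_fst).smul contDiff_snd)
  refine joined_of_family (K := Metric.closedBall 0 ((R + ‖a‖) / μ)) (isCompact_closedBall _ _)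
    (Φ := fun p => (ρ p.1)⁻¹ • (φ.toFun (c p.1 + ρ p.1 • p.2) - c p.1))
    (Ψ := fun p => (ρ p.1)⁻¹ • (φ.invFun (c p.1 + ρ p.1 • p.2) - c p.1))
    (hinvs.smul ((φ.smooth.comp hin).sub (hcs.comp contDiff_fst)))
    (hinvs.smul ((φ.smooth_inv.comp hin).sub (hcs.comp contDiff_fst))) ?_ ?_ ?_ ?_ ?_ ?_
  · intro t x
    exact (φ.conj (c t) (ρ t) (hρpos t).ne').left_inv x
  · intro t x
    exact (φ.conj (c t) (ρ t) (hρpos t).ne').right_inv x
  · intro t x v w
    exact (φ.conj (c t) (ρ t) (hρpos t).ne').symplectic x v w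
  · intro t x hx
    have h1 : c t + ρ t • x ∉ K := by
      intro h2
      have h3 := hR h2
      rw [mem_closedBall_zero_iff] at h3
      rw [mem_closedBall_zero_iff, not_le, div_lt_iff₀ hμpos] at hx
      have h4 : ‖ρ t • x‖ ≤ ‖c t + ρ t • x‖ + ‖c t‖ := by
        calc ‖ρ t • x‖ = ‖(c t + ρ t • x) - c t‖ := by rw [add_sub_cancel_left]
          _ ≤ _ := norm_sub_le _ _
      have h5 : ‖c t‖ ≤ ‖a‖ := by
        simp only [hc]
        rw [norm_smul, Real.norm_of_nonneg (Real.smoothTransition.nonneg t)]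
        have := mul_le_mul_of_nonneg_right (Real.smoothTransition.le_one t) (norm_nonneg a)
        rwa [one_mul] at this
      rw [norm_smul, Real.norm_of_nonneg (hρpos t).le] at h4
      have h6 : ‖x‖ * μ ≤ ρ t * ‖x‖ := by
        rw [mul_comm]
        exact mul_le_mul_of_nonneg_right (hρμ t) (norm_nonneg x)
      linarith
    change (ρ t)⁻¹ • (φ.toFun (c t + ρ t • x) - c t) = x
    rw [hφ _ h1, add_sub_cancel_left, smul_smul, inv_mul_cancel₀ (hρpos t).ne', one_smul]
  · intro x
    have h0 : l 0 = 0 := Real.smoothTransition.zero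
    simp [hc, hρ, h0]
  · intro x
    have h0 : l 1 = 1 := Real.smoothTransition.one
    simp [hc, hρ, h0, SympCt.conj]

end Pool.Agent.R776
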