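import Mathlib
import Pool.Agent.R776.MeanW

set_option autoImplicit false

open MeasureTheory Set Metric Filter Topology
open Pool.Agent.S13718 (supp V le_supp supp_le supp_attained supp_continuous supp_integrable
  gauss_integrable supp_abs_le integral_pos_aux)

namespace Pool.Agent.R776.Transl

/-- Euclidean space of dimension `n`. -/
abbrev Eu (n : ℕ) := EuclideanSpace ℝ (Fin n)

variable {n : ℕ}

/-- `b = false`: nonempty compact convex sets; `b = true`: convex bodies. -/
def Cls (b : Bool) (K : Set (Eu n)) : Prop :=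
  K.Nonempty ∧ IsCompact K ∧ Convex ℝ K ∧ (b = true → (interior K).Nonempty)

/-- Monotonic symmetrizations preserving the (Gaussian) mean width and fixing symmetric sets. -/
structure Good (b : Bool) (H : Submodule ℝ (Eu n)) (T : Set (Eu n) → Set (Eu n)) : Prop where
  cls : ∀ K, Cls b K → Cls b (T K)
  symm : ∀ K, Cls b K → H.reflection '' (T K) = T K
  mono : ∀ K L, Cls b K → Cls b L → K ⊆ L → T K ⊆ T L
  width : ∀ K, Cls b K → V (T K) = V K
  fix : ∀ K, Cls b K → H.reflection '' K = K → T K = K

/-! ### Joins -/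

lemma join_compact {K L : Set (Eu n)} (hK : IsCompact K) (hL : IsCompact L) :
    IsCompact (convexJoin ℝ K L) := by
  have h1 : IsCompact ((fun p : ℝ × Eu n × Eu n => (1 - p.1) • p.2.1 + p.1 • p.2.2) ''
      (Icc (0:ℝ) 1 ×ˢ (K ×ˢ L))) :=
    (isCompact_Icc.prod (hK.prod hL)).image (by fun_prop)
  convert h1 using 1
  ext x
  rw [mem_convexJoin]
  constructor
  · rintro ⟨a, ha, b, hb, hx⟩
    rw [segment_eq_image] at hx
    obtain ⟨t, ht, rfl⟩ := hx
    exact ⟨(t, a, b), ⟨ht, ha, hb⟩, rfl⟩
  · rintro ⟨⟨t, a, b⟩, ⟨ht, ha, hb⟩, rfl⟩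
    refine ⟨a, ha, b, hb, ?_⟩
    rw [segment_eq_image]
    exact ⟨t, ht, rfl⟩

lemma join_left {K L : Set (Eu n)} (hL : L.Nonempty) : K ⊆ convexJoin ℝ K L :=
  subset_convexJoin_left hL

lemma join_right {K L : Set (Eu n)} (hK : K.Nonempty) : L ⊆ convexJoin ℝ K L :=
  subset_convexJoin_right hK

lemma supp_mono {K L : Set (Eu n)} (hK : K.Nonempty) (hL : IsCompact L) (h : K ⊆ L) (v : Eu n) :
    supp K v ≤ supp L v := supp_le hK fun _ hy => le_supp hL (h hy) v

lemma supp_join {K L : Set (Eu n)} (hK : IsCompact K) (hKne : K.Nonempty) (hL : IsCompact L)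
    (hLne : L.Nonempty) (v : Eu n) :
    supp (convexJoin ℝ K L) v = max (supp K v) (supp L v) := by
  apply le_antisymm
  · apply supp_le (hKne.mono (join_left hLne))
    intro y hy
    rw [mem_convexJoin] at hy
    obtain ⟨a, ha, b, hb, hx⟩ := hy
    rw [segment_eq_image] at hx
    obtain ⟨t, ⟨ht0, ht1⟩, rfl⟩ := hx
    rw [inner_add_left, real_inner_smul_left, real_inner_smul_left]
    have h1 := (le_supp hK ha v).trans (le_max_left _ (supp L v))
    have h2 := (le_supp hL hb v).trans (le_max_right (supp K v) _)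
    nlinarith
  · exact max_le (supp_mono hKne (join_compact hK hL) (join_left hLne) v)
      (supp_mono hLne (join_compact hK hL) (join_right hKne) v)

lemma Cls.join {b : Bool} {K L : Set (Eu n)} (hK : Cls b K) (hL : Cls b L) :
    Cls b (convexJoin ℝ K L) :=
  ⟨hK.1.mono (join_left hL.1), join_compact hK.2.1 hL.2.1, hK.2.2.1.convexJoin hL.2.2.1,
    fun hb => (hK.2.2.2 hb).mono (interior_mono (join_left hL.1))⟩

/-- integrability of the positive part of a difference of support functions -/
lemma integrable_max {K : Set (Eu n)} (hK : IsCompact K) (hne : K.Nonempty) {g : Eu n → ℝ}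
    (hg : Continuous g) {C : ℝ} (hC : ∀ v, |g v| ≤ C * ‖v‖) :
    Integrable (fun v : Eu n => max (supp K v - g v) 0 * Real.exp (-‖v‖ ^ 2)) := by
  obtain ⟨R, hR⟩ := supp_abs_le hK hne
  have h1 : Integrable (fun v : Eu n => (R + C) * (‖v‖ * Real.exp (-‖v‖ ^ 2))) :=
    gauss_integrable.const_mul _
  refine h1.mono' ?_ ?_
  · apply Continuous.aestronglyMeasurable
    have := supp_continuous hK
    fun_prop
  · refine Filter.Eventually.of_forall fun v => ?_
    rw [Real.norm_eq_abs, abs_mul, abs_of_pos (Real.exp_pos _), ← mul_assoc]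
    refine mul_le_mul_of_nonneg_right ?_ (Real.exp_pos _).le
    rw [abs_of_nonneg (le_max_right _ _)]
    have h2 := hR v
    have h3 := hC v
    apply max_le
    · have h4 := abs_le.1 h2
      have h5 := abs_le.1 h3
      nlinarith
    · have := (abs_nonneg _).trans h2
      have := (abs_nonneg _).trans h3
      nlinarith

/-- The contraction inequality. -/
lemma Good.contract {b : Bool} {H : Submodule ℝ (Eu n)} {T : Set (Eu n) → Set (Eu n)}
    (hT : Good b H T) {K L : Set (Eu n)} (hK : Cls b K) (hL : Cls b L)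
    (hs : H.reflection '' L = L) :
    ∫ v : Eu n, max (supp (T K) v - supp L v) 0 * Real.exp (-‖v‖ ^ 2) ≤
      ∫ v : Eu n, max (supp K v - supp L v) 0 * Real.exp (-‖v‖ ^ 2) := by
  set M := convexJoin ℝ K L with hM
  have hMc : Cls b M := hK.join hL
  have h1 : T K ⊆ T M := hT.mono _ _ hK hMc (join_left hL.1)
  have h2 : L ⊆ T M := by
    have := hT.mono _ _ hL hMc (join_right hK.1)
    rwa [hT.fix L hL hs] at this
  have hTM := hT.cls M hMc
  have hTK := hT.cls K hK
  obtain ⟨RL, hRL⟩ := supp_abs_le hL.2.1 hL.1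
  have hiL := supp_integrable hL.2.1 hL.1
  have i1 := integrable_max hTK.2.1 hTK.1 (supp_continuous hL.2.1) hRL
  have i2 := integrable_max hK.2.1 hK.1 (supp_continuous hL.2.1) hRL
  have e1 : (∫ v : Eu n, max (supp (T K) v - supp L v) 0 * Real.exp (-‖v‖ ^ 2)) + V L ≤
      V (T M) := by
    unfold V
    rw [← integral_add i1 hiL]
    apply integral_mono (i1.add hiL) (supp_integrable hTM.2.1 hTM.1)
    intro v
    simp only [Pi.add_apply]
    rw [← add_mul]
    refine mul_le_mul_of_nonneg_right ?_ (Real.exp_pos _).le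
    have h3 := supp_mono hTK.1 hTM.2.1 h1 v
    have h4 := supp_mono hL.1 hTM.2.1 h2 v
    rcases le_total (supp (T K) v - supp L v) 0 with h5 | h5
    · rw [max_eq_right h5]; linarith
    · rw [max_eq_left h5]; linarith
  have e2 : V M = (∫ v : Eu n, max (supp K v - supp L v) 0 * Real.exp (-‖v‖ ^ 2)) + V L := by
    unfold V
    rw [← integral_add i2 hiL]
    congr 1
    ext v
    rw [← add_mul, hM, supp_join hK.2.1 hK.1 hL.2.1 hL.1]
    congr 1
    rcases le_total (supp K v) (supp L v) with h5 | h5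
    · rw [max_eq_right h5, max_eq_right (by linarith)]; ring
    · rw [max_eq_left h5, max_eq_left (by linarith)]; ring
  have e3 := hT.width M hMc
  linarith

end Pool.Agent.R776.Transl
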