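import Mathlib
import Pool.Agent.R776.Transl1

set_option autoImplicit false

open MeasureTheory Set Metric Filter Topology
open Pool.Agent.S13718 (supp V le_supp supp_le supp_attained supp_continuous supp_integrable
  gauss_integrable supp_abs_le integral_pos_aux)

namespace Pool.Agent.R776.Transl

variable {n : ℕ}

lemma symm_of_maps {H : Submodule ℝ (Eu n)} {K : Set (Eu n)}
    (h : ∀ x ∈ K, H.reflection x ∈ K) : H.reflection '' K = K := by
  apply Subset.antisymm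
  · rintro _ ⟨x, hx, rfl⟩
    exact h x hx
  · intro x hx
    exact ⟨H.reflection x, h x hx, H.reflection_reflection x⟩

lemma maps_of_symm {H : Submodule ℝ (Eu n)} {K : Set (Eu n)} (h : H.reflection '' K = K)
    {x : Eu n} (hx : x ∈ K) : H.reflection x ∈ K := by
  rw [← h]
  exact ⟨x, hx, rfl⟩

/-- The zonotopes approximating (minus) the polar cone. -/
def zon (z p w q : Eu n) (ε t : ℝ) (k : ℕ) : Set (Eu n) :=
  (fun a : (ℝ × ℝ × ℝ × ℝ) × Eu n =>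
    z - t • p - (a.1.1 • (p + w) + a.1.2.1 • (p - w) + a.1.2.2.1 • (ε • p + q) +
      a.1.2.2.2 • (ε • p - q)) + a.2) ''
  ((Icc (0:ℝ) k ×ˢ (Icc (0:ℝ) k ×ˢ (Icc (0:ℝ) k ×ˢ Icc (0:ℝ) k))) ×ˢ
    closedBall (0 : Eu n) (1 / ((k:ℝ) + 1)))

/-- The symmetric cone. -/
def cone (p w q : Eu n) (ε : ℝ) : Set (Eu n) :=
  {v | |@inner ℝ (Eu n) _ w v| ≤ @inner ℝ (Eu n) _ p v ∧
    |@inner ℝ (Eu n) _ q v| ≤ ε * @inner ℝ (Eu n) _ p v}

lemma cone_closed (p w q : Eu n) (ε : ℝ) : IsClosed (cone p w q ε) := by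
  have h1 : IsClosed {v : Eu n | |@inner ℝ (Eu n) _ w v| ≤ @inner ℝ (Eu n) _ p v} :=
    isClosed_le (by fun_prop) (by fun_prop)
  have h2 : IsClosed {v : Eu n | |@inner ℝ (Eu n) _ q v| ≤ ε * @inner ℝ (Eu n) _ p v} :=
    isClosed_le (by fun_prop) (by fun_prop)
  exact h1.inter h2

lemma zon_compact (z p w q : Eu n) (ε t : ℝ) (k : ℕ) : IsCompact (zon z p w q ε t k) := by
  unfold zon
  refine IsCompact.image ?_ (by fun_prop)
  exact (isCompact_Icc.prod (isCompact_Icc.prod (isCompact_Icc.prod isCompact_Icc))).prod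
    (isCompact_closedBall _ _)

lemma mem_zon {z p w q : Eu n} {ε t : ℝ} {k : ℕ} {x : Eu n} : x ∈ zon z p w q ε t k ↔
    ∃ c1 c2 c3 c4 : ℝ, c1 ∈ Icc (0:ℝ) k ∧ c2 ∈ Icc (0:ℝ) k ∧ c3 ∈ Icc (0:ℝ) k ∧ c4 ∈ Icc (0:ℝ) k ∧
      ∃ u : Eu n, ‖u‖ ≤ 1 / ((k:ℝ) + 1) ∧
      x = z - t • p - (c1 • (p + w) + c2 • (p - w) + c3 • (ε • p + q) + c4 • (ε • p - q)) + u := by
  unfold zon
  constructor
  · rintro ⟨⟨⟨c1, c2, c3, c4⟩, u⟩, ⟨⟨h1, h2, h3, h4⟩, hu⟩, rfl⟩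
    exact ⟨c1, c2, c3, c4, h1, h2, h3, h4, u, by simpa using hu, rfl⟩
  · rintro ⟨c1, c2, c3, c4, h1, h2, h3, h4, u, hu, rfl⟩
    exact ⟨⟨⟨c1, c2, c3, c4⟩, u⟩, ⟨⟨h1, h2, h3, h4⟩, by simpa using hu⟩, rfl⟩

lemma Icc_comb {k a b c d : ℝ} (hc : c ∈ Icc (0:ℝ) k) (hd : d ∈ Icc (0:ℝ) k) (ha : 0 ≤ a)
    (hb : 0 ≤ b) (hab : a + b = 1) : a * c + b * d ∈ Icc (0:ℝ) k := by
  have := (convex_Icc (0:ℝ) k) hc hd ha hb hab
  simpa using this

lemma zon_convex (z p w q : Eu n) (ε t : ℝ) (k : ℕ) : Convex ℝ (zon z p w q ε t k) := by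
  intro x hx y hy a b ha hb hab
  rw [mem_zon] at hx hy ⊢
  obtain ⟨c1, c2, c3, c4, h1, h2, h3, h4, u, hu, rfl⟩ := hx
  obtain ⟨d1, d2, d3, d4, g1, g2, g3, g4, u', hu', rfl⟩ := hy
  refine ⟨a * c1 + b * d1, a * c2 + b * d2, a * c3 + b * d3, a * c4 + b * d4,
    Icc_comb h1 g1 ha hb hab, Icc_comb h2 g2 ha hb hab, Icc_comb h3 g3 ha hb hab,
    Icc_comb h4 g4 ha hb hab, a • u + b • u', ?_, ?_⟩
  · calc ‖a • u + b • u'‖ ≤ a * ‖u‖ + b * ‖u'‖ := by
          refine (norm_add_le _ _).trans ?_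
          rw [norm_smul, norm_smul, Real.norm_of_nonneg ha, Real.norm_of_nonneg hb]
      _ ≤ a * (1 / ((k:ℝ) + 1)) + b * (1 / ((k:ℝ) + 1)) := by gcongr
      _ = _ := by rw [← add_mul, hab, one_mul]
  · have hb' : b = 1 - a := by linarith
    subst hb'
    module

lemma zon_ball {z p w q : Eu n} {ε t : ℝ} {k : ℕ} {u : Eu n} (hu : ‖u‖ ≤ 1 / ((k:ℝ) + 1)) :
    z - t • p + u ∈ zon z p w q ε t k := by
  rw [mem_zon]
  have h0 : (0:ℝ) ∈ Icc (0:ℝ) k := ⟨le_rfl, Nat.cast_nonneg k⟩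
  exact ⟨0, 0, 0, 0, h0, h0, h0, h0, u, hu, by simp⟩

lemma zon_center (z p w q : Eu n) (ε t : ℝ) (k : ℕ) : z - t • p ∈ zon z p w q ε t k := by
  have := zon_ball (z := z) (p := p) (w := w) (q := q) (ε := ε) (t := t) (k := k) (u := 0)
    (by simp; positivity)
  simpa using this

lemma zon_cls (b : Bool) (z p w q : Eu n) (ε t : ℝ) (k : ℕ) : Cls b (zon z p w q ε t k) := by
  refine ⟨⟨_, zon_center z p w q ε t k⟩, zon_compact _ _ _ _ _ _ _, zon_convex _ _ _ _ _ _ _,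
    fun _ => ?_⟩
  refine ⟨z - t • p, ?_⟩
  rw [mem_interior]
  refine ⟨ball (z - t • p) (1 / ((k:ℝ) + 1)), ?_, isOpen_ball, mem_ball_self (by positivity)⟩
  intro x hx
  have h := zon_ball (z := z) (p := p) (w := w) (q := q) (ε := ε) (t := t) (k := k)
    (u := x - (z - t • p)) (by
      rw [mem_ball, dist_eq_norm] at hx
      exact hx.le)
  simpa using h

lemma zon_symm {H : Submodule ℝ (Eu n)} {z p w q : Eu n} (hz : z ∈ H) (hp : p ∈ H) (hw : w ∈ Hᗮ)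
    (hq : q ∈ Hᗮ) (ε t : ℝ) (k : ℕ) :
    H.reflection '' (zon z p w q ε t k) = zon z p w q ε t k := by
  apply symm_of_maps
  intro x hx
  rw [mem_zon] at hx ⊢
  obtain ⟨c1, c2, c3, c4, h1, h2, h3, h4, u, hu, rfl⟩ := hx
  refine ⟨c2, c1, c4, c3, h2, h1, h4, h3, H.reflection u, by simpa using hu, ?_⟩
  simp only [map_add, map_sub, map_smul, Submodule.reflection_mem_subspace_eq_self hz,
    Submodule.reflection_mem_subspace_eq_self hp,
    Submodule.reflection_mem_subspace_orthogonalComplement_eq_neg hw,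
    Submodule.reflection_mem_subspace_orthogonalComplement_eq_neg hq]
  module

lemma zon_supp_ge (z p w q : Eu n) (ε t : ℝ) (k : ℕ) (v : Eu n) :
    @inner ℝ (Eu n) _ (z - t • p) v ≤ supp (zon z p w q ε t k) v :=
  le_supp (zon_compact _ _ _ _ _ _ _) (zon_center z p w q ε t k) v

lemma zon_supp_le {z p w q : Eu n} {ε t : ℝ} {v : Eu n} (hv : v ∈ cone p w q ε) (k : ℕ) :
    supp (zon z p w q ε t k) v ≤ @inner ℝ (Eu n) _ (z - t • p) v + 1 / ((k:ℝ) + 1) * ‖v‖ := by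
  apply supp_le ⟨_, zon_center z p w q ε t k⟩
  intro y hy
  rw [mem_zon] at hy
  obtain ⟨c1, c2, c3, c4, h1, h2, h3, h4, u, hu, rfl⟩ := hy
  obtain ⟨ha, hb⟩ := hv
  rw [abs_le] at ha hb
  have e1 : 0 ≤ @inner ℝ (Eu n) _ (p + w) v := by rw [inner_add_left]; linarith
  have e2 : 0 ≤ @inner ℝ (Eu n) _ (p - w) v := by rw [inner_sub_left]; linarith
  have e3 : 0 ≤ @inner ℝ (Eu n) _ (ε • p + q) v := by
    rw [inner_add_left, real_inner_smul_left]; linarith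
  have e4 : 0 ≤ @inner ℝ (Eu n) _ (ε • p - q) v := by
    rw [inner_sub_left, real_inner_smul_left]; linarith
  have e5 : @inner ℝ (Eu n) _ u v ≤ 1 / ((k:ℝ) + 1) * ‖v‖ :=
    (real_inner_le_norm u v).trans (by gcongr)
  rw [inner_add_left, inner_sub_left _ (c1 • (p + w) + c2 • (p - w) + c3 • (ε • p + q) + _),
    inner_add_left (c1 • (p + w) + c2 • (p - w) + c3 • (ε • p + q)),
    inner_add_left (c1 • (p + w) + c2 • (p - w)), inner_add_left (c1 • (p + w)),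
    real_inner_smul_left _ _ c1, real_inner_smul_left _ _ c2, real_inner_smul_left _ _ c3,
    real_inner_smul_left _ _ c4]
  have := mul_nonneg h1.1 e1
  have := mul_nonneg h2.1 e2
  have := mul_nonneg h3.1 e3
  have := mul_nonneg h4.1 e4
  linarith

lemma zon_supp_big {z p w q : Eu n} {ε t : ℝ} {v : Eu n} (hv : v ∉ cone p w q ε) :
    ∃ s : ℝ, 0 < s ∧ ∀ k : ℕ, @inner ℝ (Eu n) _ (z - t • p) v + k * s ≤
      supp (zon z p w q ε t k) v := by
  have key : ∀ k : ℕ, ∀ c1 c2 c3 c4 : ℝ, c1 ∈ Icc (0:ℝ) k → c2 ∈ Icc (0:ℝ) k →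
      c3 ∈ Icc (0:ℝ) k → c4 ∈ Icc (0:ℝ) k →
      @inner ℝ (Eu n) _ (z - t • p) v - (c1 * @inner ℝ (Eu n) _ (p + w) v +
        c2 * @inner ℝ (Eu n) _ (p - w) v + c3 * @inner ℝ (Eu n) _ (ε • p + q) v +
        c4 * @inner ℝ (Eu n) _ (ε • p - q) v) ≤ supp (zon z p w q ε t k) v := by
    intro k c1 c2 c3 c4 h1 h2 h3 h4
    have h := le_supp (zon_compact z p w q ε t k) (y := z - t • p -
      (c1 • (p + w) + c2 • (p - w) + c3 • (ε • p + q) + c4 • (ε • p - q)) + 0)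
      (mem_zon.2 ⟨c1, c2, c3, c4, h1, h2, h3, h4, 0, by simp; positivity, rfl⟩) v
    rw [add_zero, inner_sub_left _ (c1 • (p + w) + c2 • (p - w) + c3 • (ε • p + q) + _),
      inner_add_left (c1 • (p + w) + c2 • (p - w) + c3 • (ε • p + q)),
      inner_add_left (c1 • (p + w) + c2 • (p - w)), inner_add_left (c1 • (p + w)),
      real_inner_smul_left _ _ c1, real_inner_smul_left _ _ c2, real_inner_smul_left _ _ c3,
      real_inner_smul_left _ _ c4] at h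
    exact h
  have h0 : ∀ k : ℕ, (0:ℝ) ∈ Icc (0:ℝ) k := fun k => ⟨le_rfl, Nat.cast_nonneg k⟩
  have hk : ∀ k : ℕ, (k:ℝ) ∈ Icc (0:ℝ) k := fun k => ⟨Nat.cast_nonneg k, le_rfl⟩
  have hcases : @inner ℝ (Eu n) _ (p + w) v < 0 ∨ @inner ℝ (Eu n) _ (p - w) v < 0 ∨
      @inner ℝ (Eu n) _ (ε • p + q) v < 0 ∨ @inner ℝ (Eu n) _ (ε • p - q) v < 0 := by
    by_contra hcon
    push Not at hcon
    obtain ⟨a1, a2, a3, a4⟩ := hcon
    apply hv
    rw [inner_add_left] at a1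
    rw [inner_sub_left] at a2
    rw [inner_add_left, real_inner_smul_left] at a3
    rw [inner_sub_left, real_inner_smul_left] at a4
    exact ⟨abs_le.2 ⟨by linarith, by linarith⟩, abs_le.2 ⟨by linarith, by linarith⟩⟩
  rcases hcases with h | h | h | h
  · refine ⟨-@inner ℝ (Eu n) _ (p + w) v, by linarith, fun k => ?_⟩
    have := key k k 0 0 0 (hk k) (h0 k) (h0 k) (h0 k)
    linarith
  · refine ⟨-@inner ℝ (Eu n) _ (p - w) v, by linarith, fun k => ?_⟩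
    have := key k 0 k 0 0 (h0 k) (hk k) (h0 k) (h0 k)
    linarith
  · refine ⟨-@inner ℝ (Eu n) _ (ε • p + q) v, by linarith, fun k => ?_⟩
    have := key k 0 0 k 0 (h0 k) (h0 k) (hk k) (h0 k)
    linarith
  · refine ⟨-@inner ℝ (Eu n) _ (ε • p - q) v, by linarith, fun k => ?_⟩
    have := key k 0 0 0 k (h0 k) (h0 k) (h0 k) (hk k)
    linarith

end Pool.Agent.R776.Transl
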