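import Mathlib
import Pool.Agent.R776.Transl2

set_option autoImplicit false

open MeasureTheory Set Metric Filter Topology
open Pool.Agent.S13718 (supp V le_supp supp_le supp_attained supp_continuous supp_integrable
  gauss_integrable supp_abs_le integral_pos_aux)

namespace Pool.Agent.R776.Transl

variable {n : ℕ}

/-- The cone inequality. -/
lemma Good.cone_ineq {b : Bool} {H : Submodule ℝ (Eu n)} {T : Set (Eu n) → Set (Eu n)}
    (hT : Good b H T) {K : Set (Eu n)} (hK : Cls b K) {z p w q : Eu n} (hz : z ∈ H) (hp : p ∈ H)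
    (hw : w ∈ Hᗮ) (hq : q ∈ Hᗮ) (ε t : ℝ) :
    ∫ v in cone p w q ε, max (supp (T K) v - @inner ℝ (Eu n) _ (z - t • p) v) 0 *
        Real.exp (-‖v‖ ^ 2) ≤
      ∫ v in cone p w q ε, max (supp K v - @inner ℝ (Eu n) _ (z - t • p) v) 0 *
        Real.exp (-‖v‖ ^ 2) := by
  have hTK := hT.cls K hK
  have hmeas : MeasurableSet (cone p w q ε) := (cone_closed p w q ε).measurableSet
  set φ : Eu n → ℝ := fun v => @inner ℝ (Eu n) _ (z - t • p) v with hφ
  have hφc : Continuous φ := by fun_prop
  have hφb : ∀ v, |φ v| ≤ ‖z - t • p‖ * ‖v‖ := fun v => abs_real_inner_le_norm _ _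
  have iT := integrable_max hTK.2.1 hTK.1 hφc hφb
  have iK := integrable_max hK.2.1 hK.1 hφc hφb
  set G : ℝ := ∫ v : Eu n, ‖v‖ * Real.exp (-‖v‖ ^ 2) with hG
  set RHS : ℕ → ℝ := fun k => ∫ v : Eu n, max (supp K v - supp (zon z p w q ε t k) v) 0 *
    Real.exp (-‖v‖ ^ 2) with hRHS
  have h1 : ∀ k : ℕ, (∫ v in cone p w q ε, max (supp (T K) v - φ v) 0 * Real.exp (-‖v‖ ^ 2)) -
      1 / ((k:ℝ) + 1) * G ≤ RHS k := by
    intro k
    have hc := hT.contract hK (zon_cls b z p w q ε t k) (zon_symm hz hp hw hq ε t k)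
    obtain ⟨RL, hRL⟩ := supp_abs_le (zon_compact z p w q ε t k) (zon_cls b z p w q ε t k).1
    have iL := integrable_max hTK.2.1 hTK.1 (supp_continuous (zon_compact z p w q ε t k)) hRL
    have h2 : (∫ v in cone p w q ε, max (supp (T K) v - φ v) 0 * Real.exp (-‖v‖ ^ 2)) ≤
        ∫ v in cone p w q ε, (max (supp (T K) v - supp (zon z p w q ε t k) v) 0 *
          Real.exp (-‖v‖ ^ 2) + 1 / ((k:ℝ) + 1) * (‖v‖ * Real.exp (-‖v‖ ^ 2))) := by
      apply setIntegral_mono_on iT.integrableOn
        (iL.add (gauss_integrable.const_mul _)).integrableOn hmeas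
      intro v hv
      have h3 := zon_supp_le (z := z) (t := t) hv k
      have h4 : max (supp (T K) v - φ v) 0 ≤ max (supp (T K) v - supp (zon z p w q ε t k) v) 0 +
          1 / ((k:ℝ) + 1) * ‖v‖ := by
        have h5 : 0 ≤ 1 / ((k:ℝ) + 1) * ‖v‖ := by positivity
        apply max_le
        · have := le_max_left (supp (T K) v - supp (zon z p w q ε t k) v) 0
          have h6 : φ v = @inner ℝ (Eu n) _ (z - t • p) v := rfl
          linarith
        · have := le_max_right (supp (T K) v - supp (zon z p w q ε t k) v) 0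
          linarith
      calc max (supp (T K) v - φ v) 0 * Real.exp (-‖v‖ ^ 2) ≤
          (max (supp (T K) v - supp (zon z p w q ε t k) v) 0 + 1 / ((k:ℝ) + 1) * ‖v‖) *
            Real.exp (-‖v‖ ^ 2) := by gcongr
        _ = _ := by simp only [Pi.add_apply]; ring
    have h3 : ∫ v in cone p w q ε, (max (supp (T K) v - supp (zon z p w q ε t k) v) 0 *
          Real.exp (-‖v‖ ^ 2) + 1 / ((k:ℝ) + 1) * (‖v‖ * Real.exp (-‖v‖ ^ 2))) ≤
        ∫ v : Eu n, (max (supp (T K) v - supp (zon z p w q ε t k) v) 0 *
          Real.exp (-‖v‖ ^ 2) + 1 / ((k:ℝ) + 1) * (‖v‖ * Real.exp (-‖v‖ ^ 2))) := by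
      apply setIntegral_le_integral (iL.add (gauss_integrable.const_mul _))
      exact Filter.Eventually.of_forall fun v => by
        simp only [Pi.zero_apply, Pi.add_apply]
        have := mul_nonneg (le_max_right (supp (T K) v - supp (zon z p w q ε t k) v) 0)
          (Real.exp_pos (-‖v‖ ^ 2)).le
        positivity
    rw [integral_add iL (gauss_integrable.const_mul _), integral_const_mul] at h3
    linarith
  have h2 : Tendsto RHS atTop (𝓝 (∫ v in cone p w q ε, max (supp K v - φ v) 0 *
      Real.exp (-‖v‖ ^ 2))) := by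
    rw [← integral_indicator hmeas]
    refine tendsto_integral_of_dominated_convergence
      (fun v => max (supp K v - φ v) 0 * Real.exp (-‖v‖ ^ 2)) ?_ iK ?_ ?_
    · intro k
      apply Continuous.aestronglyMeasurable
      have := supp_continuous hK.2.1
      have := supp_continuous (zon_compact z p w q ε t k)
      fun_prop
    · intro k
      refine Filter.Eventually.of_forall fun v => ?_
      rw [Real.norm_eq_abs, abs_of_nonneg (mul_nonneg (le_max_right _ _) (Real.exp_pos _).le)]
      have h3 := zon_supp_ge z p w q ε t k v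
      have h4 : supp K v - supp (zon z p w q ε t k) v ≤ supp K v - φ v := by
        simp only [hφ]; linarith
      gcongr
    · refine Filter.Eventually.of_forall fun v => ?_
      by_cases hv : v ∈ cone p w q ε
      · rw [indicator_of_mem hv]
        have h3 : Tendsto (fun k : ℕ => supp (zon z p w q ε t k) v) atTop (𝓝 (φ v)) := by
          have h4 : Tendsto (fun k : ℕ => φ v + 1 / ((k:ℝ) + 1) * ‖v‖) atTop
              (𝓝 (φ v + 0 * ‖v‖)) :=
            (tendsto_one_div_add_atTop_nhds_zero_nat.mul_const _).const_add _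
          rw [zero_mul, add_zero] at h4
          exact tendsto_of_tendsto_of_tendsto_of_le_of_le tendsto_const_nhds h4
            (fun k => zon_supp_ge z p w q ε t k v) (fun k => zon_supp_le hv k)
        have h5 := ((h3.const_sub (supp K v)).max (tendsto_const_nhds (x := (0:ℝ)))).mul_const
          (Real.exp (-‖v‖ ^ 2))
        exact h5
      · rw [indicator_of_notMem hv]
        obtain ⟨s, hs, hbig⟩ := zon_supp_big (z := z) (t := t) hv
        obtain ⟨k0, hk0⟩ := exists_nat_ge ((supp K v - φ v) / s)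
        apply tendsto_const_nhds.congr'
        filter_upwards [eventually_ge_atTop k0] with k hk
        have h3 : supp K v - supp (zon z p w q ε t k) v ≤ 0 := by
          have h4 := hbig k
          have h5 : (supp K v - φ v) / s ≤ k := hk0.trans (by exact_mod_cast hk)
          rw [div_le_iff₀ hs] at h5
          have h6 : φ v = @inner ℝ (Eu n) _ (z - t • p) v := rfl
          linarith
        rw [max_eq_right h3, zero_mul]
  have h3 : Tendsto (fun k : ℕ => (∫ v in cone p w q ε, max (supp (T K) v - φ v) 0 *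
      Real.exp (-‖v‖ ^ 2)) - 1 / ((k:ℝ) + 1) * G) atTop
      (𝓝 ((∫ v in cone p w q ε, max (supp (T K) v - φ v) 0 * Real.exp (-‖v‖ ^ 2)) - 0 * G)) :=
    (tendsto_one_div_add_atTop_nhds_zero_nat.mul_const _).const_sub _
  rw [zero_mul, sub_zero] at h3
  exact le_of_tendsto_of_tendsto' h3 h2 h1

end Pool.Agent.R776.Transl
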