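import Mathlib
import Pool.Agent.R776.Transl2

set_option autoImplicit false

open MeasureTheory Set Metric Filter Topology
open Pool.Agent.S13718 (supp V le_supp supp_le supp_attained supp_continuous supp_integrable
  gauss_integrable supp_abs_le integral_pos_aux)

namespace Pool.Agent.R776.Transl

variable {n : ℕ}

lemma inner_gauss_integrable (w : Eu n) :
    Integrable (fun v : Eu n => |@inner ℝ (Eu n) _ w v| * Real.exp (-‖v‖ ^ 2)) := by
  have h1 : Integrable (fun v : Eu n => ‖w‖ * (‖v‖ * Real.exp (-‖v‖ ^ 2))) :=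
    gauss_integrable.const_mul _
  refine h1.mono' (by fun_prop) (Filter.Eventually.of_forall fun v => ?_)
  rw [Real.norm_eq_abs, abs_mul, abs_abs, abs_of_pos (Real.exp_pos _), ← mul_assoc]
  exact mul_le_mul_of_nonneg_right (abs_real_inner_le_norm w v) (Real.exp_pos _).le

lemma gauss_half_integrable :
    Integrable (fun v : Eu n => ‖v‖ * Real.exp (-(1/2) * ‖v‖ ^ 2)) := by
  have h0 : Integrable (fun v : Eu n => Real.exp (-(1/4) * ‖v‖ ^ 2)) := by
    by_contra h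
    have h1 := GaussianFourier.integral_rexp_neg_mul_sq_norm (V := Eu n) (b := 1/4) (by norm_num)
    rw [integral_undef h] at h1
    have : (0:ℝ) < (Real.pi / (1/4)) ^ (Module.finrank ℝ (Eu n) / 2 : ℝ) := by positivity
    linarith
  refine h0.mono' (by fun_prop) ?_
  refine Filter.Eventually.of_forall fun v => ?_
  rw [Real.norm_eq_abs, abs_mul, abs_of_pos (Real.exp_pos _), abs_of_nonneg (norm_nonneg v)]
  have h1 : ‖v‖ ≤ Real.exp ((1/4) * ‖v‖ ^ 2) := by
    have h2 := Real.add_one_le_exp ((1/4) * ‖v‖ ^ 2)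
    nlinarith [sq_nonneg (‖v‖ - 2)]
  calc ‖v‖ * Real.exp (-(1/2) * ‖v‖ ^ 2) ≤
      Real.exp ((1/4) * ‖v‖ ^ 2) * Real.exp (-(1/2) * ‖v‖ ^ 2) := by
        gcongr
    _ = Real.exp (-(1/4) * ‖v‖ ^ 2) := by
        rw [← Real.exp_add]; ring_nf

/-- The scaling in direction `q`. -/
noncomputable def scal (q : Eu n) (ε : ℝ) : Eu n →L[ℝ] Eu n :=
  ContinuousLinearMap.id ℝ (Eu n) - ((1 - ε) / ‖q‖ ^ 2) • ((innerSL ℝ q).smulRight q)

lemma scal_apply (q : Eu n) (ε : ℝ) (v : Eu n) :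
    scal q ε v = v - ((1 - ε) / ‖q‖ ^ 2 * @inner ℝ (Eu n) _ q v) • q := by
  simp [scal, smul_smul]

lemma inner_scal_q {q : Eu n} (hq : q ≠ 0) (ε : ℝ) (v : Eu n) :
    @inner ℝ (Eu n) _ q (scal q ε v) = ε * @inner ℝ (Eu n) _ q v := by
  have : ‖q‖ ^ 2 ≠ 0 := by simpa using hq
  rw [scal_apply, inner_sub_right, real_inner_smul_right, real_inner_self_eq_norm_sq]
  field_simp
  ring

lemma inner_scal_perp {q w : Eu n} (h : @inner ℝ (Eu n) _ w q = 0) (ε : ℝ) (v : Eu n) :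
    @inner ℝ (Eu n) _ w (scal q ε v) = @inner ℝ (Eu n) _ w v := by
  rw [scal_apply, inner_sub_right, real_inner_smul_right, h]
  ring

lemma norm_scal_sq {q : Eu n} (hq : q ≠ 0) (ε : ℝ) (v : Eu n) :
    ‖scal q ε v‖ ^ 2 = ‖v‖ ^ 2 - (1 - ε ^ 2) * (@inner ℝ (Eu n) _ q v ^ 2 / ‖q‖ ^ 2) := by
  have : ‖q‖ ^ 2 ≠ 0 := by simpa using hq
  rw [scal_apply, norm_sub_sq_real, real_inner_smul_right, norm_smul, mul_pow,
    Real.norm_eq_abs, sq_abs, real_inner_comm]
  field_simp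
  ring

lemma scal_inj {q : Eu n} (hq : q ≠ 0) {ε : ℝ} (hε : 0 < ε) : Function.Injective (scal q ε) := by
  rw [injective_iff_map_eq_zero]
  intro v hv
  have h1 := inner_scal_q hq ε v
  rw [hv, inner_zero_right] at h1
  have h2 : @inner ℝ (Eu n) _ q v = 0 := by
    rcases mul_eq_zero.1 h1.symm with h | h
    · exact absurd h hε.ne'
    · exact h
  rw [scal_apply, h2] at hv
  simpa using hv

lemma scal_image {p w q : Eu n} (hq : q ≠ 0) (hpq : @inner ℝ (Eu n) _ p q = 0)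
    (hwq : @inner ℝ (Eu n) _ w q = 0) {ε : ℝ} (hε : 0 < ε) :
    scal q ε '' cone p w q 1 = cone p w q ε := by
  ext u
  constructor
  · rintro ⟨v, ⟨h1, h2⟩, rfl⟩
    refine ⟨?_, ?_⟩
    · rw [inner_scal_perp hwq, inner_scal_perp hpq]
      exact h1
    · rw [inner_scal_q hq, inner_scal_perp hpq, abs_mul, abs_of_pos hε]
      rw [one_mul] at h2
      exact mul_le_mul_of_nonneg_left h2 hε.le
  · rintro ⟨h1, h2⟩
    have hq2 : ‖q‖ ^ 2 ≠ 0 := by simpa using hq
    refine ⟨u + ((1 / ε - 1) / ‖q‖ ^ 2 * @inner ℝ (Eu n) _ q u) • q, ⟨?_, ?_⟩, ?_⟩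
    · rw [inner_add_right, inner_add_right, real_inner_smul_right, real_inner_smul_right, hwq, hpq]
      simpa using h1
    · rw [inner_add_right, inner_add_right, real_inner_smul_right, real_inner_smul_right, hpq,
        real_inner_self_eq_norm_sq]
      have h3 : @inner ℝ (Eu n) _ q u + (1 / ε - 1) / ‖q‖ ^ 2 * @inner ℝ (Eu n) _ q u * ‖q‖ ^ 2 =
          (1 / ε) * @inner ℝ (Eu n) _ q u := by
        field_simp
        ring
      rw [h3, abs_mul, abs_of_pos (by positivity : 0 < 1 / ε), mul_zero, add_zero, one_mul,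
        one_div, inv_mul_le_iff₀ hε]
      exact h2
    · rw [scal_apply, inner_add_right, real_inner_smul_right, real_inner_self_eq_norm_sq,
        add_sub_assoc, ← sub_smul]
      have h3 : (1 / ε - 1) / ‖q‖ ^ 2 * @inner ℝ (Eu n) _ q u - (1 - ε) / ‖q‖ ^ 2 *
          (@inner ℝ (Eu n) _ q u + (1 / ε - 1) / ‖q‖ ^ 2 * @inner ℝ (Eu n) _ q u * ‖q‖ ^ 2) = 0 := by
        field_simp
        ring
      rw [h3, zero_smul, add_zero]

lemma bessel_two {p q : Eu n} (hp : p ≠ 0) (hq : q ≠ 0) (hpq : @inner ℝ (Eu n) _ p q = 0)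
    (v : Eu n) :
    @inner ℝ (Eu n) _ q v ^ 2 / ‖q‖ ^ 2 + @inner ℝ (Eu n) _ p v ^ 2 / ‖p‖ ^ 2 ≤ ‖v‖ ^ 2 := by
  have hq2 : ‖q‖ ^ 2 ≠ 0 := by simpa using hq
  have hp2 : ‖p‖ ^ 2 ≠ 0 := by simpa using hp
  have h := sq_nonneg ‖v - (@inner ℝ (Eu n) _ q v / ‖q‖ ^ 2) • q -
    (@inner ℝ (Eu n) _ p v / ‖p‖ ^ 2) • p‖
  rw [norm_sub_sq_real, norm_sub_sq_real, inner_sub_left, real_inner_smul_right,
    real_inner_smul_right, real_inner_smul_left, real_inner_smul_right, norm_smul, norm_smul,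
    mul_pow, mul_pow, Real.norm_eq_abs, Real.norm_eq_abs, sq_abs, sq_abs,
    real_inner_comm q v, real_inner_comm p v, real_inner_comm p q, hpq] at h
  have e1 : 2 * (@inner ℝ (Eu n) _ q v / ‖q‖ ^ 2 * @inner ℝ (Eu n) _ q v) =
      2 * (@inner ℝ (Eu n) _ q v ^ 2 / ‖q‖ ^ 2) := by ring
  have e2 : (@inner ℝ (Eu n) _ q v / ‖q‖ ^ 2) ^ 2 * ‖q‖ ^ 2 =
      @inner ℝ (Eu n) _ q v ^ 2 / ‖q‖ ^ 2 := by field_simp
  have e3 : (@inner ℝ (Eu n) _ p v / ‖p‖ ^ 2) ^ 2 * ‖p‖ ^ 2 =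
      @inner ℝ (Eu n) _ p v ^ 2 / ‖p‖ ^ 2 := by field_simp
  have e4 : @inner ℝ (Eu n) _ p v / ‖p‖ ^ 2 * @inner ℝ (Eu n) _ p v =
      @inner ℝ (Eu n) _ p v ^ 2 / ‖p‖ ^ 2 := by ring
  rw [e1, e2, e3, e4] at h
  linarith

lemma cone_ratio {p w q : Eu n} (hp : p ≠ 0) (hw : w ≠ 0) (hq : q ≠ 0)
    (hpw : @inner ℝ (Eu n) _ p w = 0) (hpq : @inner ℝ (Eu n) _ p q = 0)
    (hwq : @inner ℝ (Eu n) _ w q = 0) (hle : ‖p‖ ≤ ‖q‖) :
    ∃ C : ℝ, 0 < C ∧ ∀ ε : ℝ, 0 < ε → ε ≤ 1 →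
      0 < (∫ v in cone p w q ε, |@inner ℝ (Eu n) _ w v| * Real.exp (-‖v‖ ^ 2)) ∧
      (∫ v in cone p w q ε, |@inner ℝ (Eu n) _ q v| * Real.exp (-‖v‖ ^ 2)) ≤
      C * ε * ∫ v in cone p w q ε, |@inner ℝ (Eu n) _ w v| * Real.exp (-‖v‖ ^ 2) := by
  have hmeas : ∀ ε, MeasurableSet (cone p w q ε) := fun ε => (cone_closed p w q ε).measurableSet
  set Jw : ℝ := ∫ v in cone p w q 1, |@inner ℝ (Eu n) _ w v| * Real.exp (-‖v‖ ^ 2) with hJw
  set Jq : ℝ := ∫ v in cone p w q 1, |@inner ℝ (Eu n) _ q v| * Real.exp (-(1/2) * ‖v‖ ^ 2) with hJq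
  have hpn : 0 < ‖p‖ := norm_pos_iff.2 hp
  have hwn : 0 < ‖w‖ := norm_pos_iff.2 hw
  have hJwpos : 0 < Jw := by
    rw [hJw, setIntegral_pos_iff_support_of_nonneg_ae]
    · set U : Set (Eu n) := {v | |@inner ℝ (Eu n) _ w v| < @inner ℝ (Eu n) _ p v} ∩
        ({v | |@inner ℝ (Eu n) _ q v| < @inner ℝ (Eu n) _ p v} ∩
        {v | @inner ℝ (Eu n) _ w v ≠ 0}) with hU
      have hUo : IsOpen U := by
        have h1 : IsOpen {v : Eu n | |@inner ℝ (Eu n) _ w v| < @inner ℝ (Eu n) _ p v} :=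
          isOpen_lt (by fun_prop) (by fun_prop)
        have h2 : IsOpen {v : Eu n | |@inner ℝ (Eu n) _ q v| < @inner ℝ (Eu n) _ p v} :=
          isOpen_lt (by fun_prop) (by fun_prop)
        have h3 : IsOpen {v : Eu n | @inner ℝ (Eu n) _ w v ≠ 0} :=
          isOpen_ne_fun (by fun_prop) (by fun_prop)
        exact h1.inter (h2.inter h3)
      have hUne : U.Nonempty := by
        refine ⟨p + (‖p‖ ^ 2 / (2 * ‖w‖ ^ 2)) • w, ?_, ?_, ?_⟩
        · simp only [mem_ofPred_eq, inner_add_right, real_inner_smul_right, hpw,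
            real_inner_self_eq_norm_sq, real_inner_comm p w]
          have : ‖p‖ ^ 2 / (2 * ‖w‖ ^ 2) * ‖w‖ ^ 2 = ‖p‖ ^ 2 / 2 := by field_simp
          rw [this, zero_add, mul_zero, add_zero, abs_of_pos (by positivity)]
          have : 0 < ‖p‖ ^ 2 := by positivity
          linarith
        · simp only [mem_ofPred_eq, inner_add_right, real_inner_smul_right, hpw,
            real_inner_self_eq_norm_sq, real_inner_comm p q, real_inner_comm w q, hpq, hwq]
          simp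
          positivity
        · simp only [mem_ofPred_eq, inner_add_right, real_inner_smul_right, hpw,
            real_inner_self_eq_norm_sq, real_inner_comm p w]
          have : ‖p‖ ^ 2 / (2 * ‖w‖ ^ 2) * ‖w‖ ^ 2 = ‖p‖ ^ 2 / 2 := by field_simp
          rw [this, zero_add]
          positivity
      have h4 := hUo.measure_pos volume hUne
      refine h4.trans_le (measure_mono ?_)
      rintro v ⟨h5, h6, h7⟩
      refine ⟨?_, h5.le, by rw [one_mul]; exact h6.le⟩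
      rw [Function.mem_support]
      have : 0 < |@inner ℝ (Eu n) _ w v| := abs_pos.2 h7
      positivity
    · exact Filter.Eventually.of_forall fun v => by
        simp only [Pi.zero_apply]; positivity
    · exact (inner_gauss_integrable w).integrableOn
  have hJqnn : 0 ≤ Jq := integral_nonneg fun v => by positivity
  have hcv : ∀ ε : ℝ, 0 < ε → ∀ g : Eu n → ℝ, ∫ v in cone p w q ε, g v =
      ∫ v in cone p w q 1, |(scal q ε).det| • g (scal q ε v) := by
    intro ε hε g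
    rw [← scal_image hq hpq hwq hε]
    exact integral_image_eq_integral_abs_det_fderiv_smul volume (hmeas 1)
      (fun x _ => (scal q ε).hasFDerivWithinAt) ((scal_inj hq hε).injOn) g
  have iq2 : Integrable (fun v : Eu n => |@inner ℝ (Eu n) _ q v| *
      Real.exp (-(1/2) * ‖v‖ ^ 2)) := by
    refine (gauss_half_integrable.const_mul ‖q‖).mono' (by fun_prop)
      (Filter.Eventually.of_forall fun v => ?_)
    rw [Real.norm_eq_abs, abs_mul, abs_abs, abs_of_pos (Real.exp_pos _), ← mul_assoc]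
    exact mul_le_mul_of_nonneg_right (abs_real_inner_le_norm q v) (Real.exp_pos _).le
  have hsq : ∀ ε : ℝ, 0 < ε → ε ≤ 1 → ∀ v ∈ cone p w q 1,
      (1/2) * ‖v‖ ^ 2 ≤ ‖scal q ε v‖ ^ 2 ∧ ‖scal q ε v‖ ^ 2 ≤ ‖v‖ ^ 2 := by
    intro ε hε hε1 v hv
    rw [norm_scal_sq hq]
    have hqn : 0 < ‖q‖ := norm_pos_iff.2 hq
    have h1 : 0 ≤ 1 - ε ^ 2 := by nlinarith
    have h2 : 1 - ε ^ 2 ≤ 1 := by nlinarith
    have h3 : 0 ≤ @inner ℝ (Eu n) _ q v ^ 2 / ‖q‖ ^ 2 := by positivity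
    have h4 := bessel_two hp hq hpq v
    have h5 : @inner ℝ (Eu n) _ q v ^ 2 / ‖q‖ ^ 2 ≤ @inner ℝ (Eu n) _ p v ^ 2 / ‖p‖ ^ 2 := by
      have h6 := hv.2
      rw [one_mul] at h6
      have h7 : @inner ℝ (Eu n) _ q v ^ 2 ≤ @inner ℝ (Eu n) _ p v ^ 2 := by
        rw [← sq_abs (@inner ℝ (Eu n) _ q v)]
        gcongr
      gcongr
    constructor
    · nlinarith
    · nlinarith [mul_nonneg h1 h3]
  have hmain : ∀ ε : ℝ, 0 < ε → ε ≤ 1 →
      |(scal q ε).det| * Jw ≤ ∫ v in cone p w q ε, |@inner ℝ (Eu n) _ w v| * Real.exp (-‖v‖ ^ 2) ∧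
      (∫ v in cone p w q ε, |@inner ℝ (Eu n) _ q v| * Real.exp (-‖v‖ ^ 2)) ≤
        |(scal q ε).det| * (ε * Jq) := by
    intro ε hε hε1
    have hdet : 0 ≤ |(scal q ε).det| := abs_nonneg _
    constructor
    · rw [hcv ε hε, hJw, ← integral_const_mul]
      have hbd : ∀ v ∈ cone p w q 1, |@inner ℝ (Eu n) _ w (scal q ε v)| *
          Real.exp (-‖scal q ε v‖ ^ 2) ≤ ‖w‖ * (‖v‖ * Real.exp (-(1/2) * ‖v‖ ^ 2)) := by
        intro v hv
        rw [inner_scal_perp hwq, ← mul_assoc]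
        apply mul_le_mul (abs_real_inner_le_norm w v) _ (Real.exp_pos _).le (by positivity)
        rw [Real.exp_le_exp]
        have := (hsq ε hε hε1 v hv).1
        linarith
      apply setIntegral_mono_on
      · exact ((inner_gauss_integrable w).const_mul _).integrableOn
      · refine Integrable.mono' ((gauss_half_integrable.const_mul ‖w‖).const_mul
          |(scal q ε).det|).integrableOn (by fun_prop) ?_
        rw [ae_restrict_iff' (hmeas 1)]
        refine Filter.Eventually.of_forall fun v hv => ?_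
        rw [smul_eq_mul, Real.norm_eq_abs, abs_of_nonneg (by positivity)]
        exact mul_le_mul_of_nonneg_left (hbd v hv) hdet
      · exact hmeas 1
      · intro v hv
        rw [smul_eq_mul, inner_scal_perp hwq]
        have := (hsq ε hε hε1 v hv).2
        gcongr
    · rw [hcv ε hε, hJq, ← integral_const_mul, ← integral_const_mul]
      apply setIntegral_mono_on
      · refine Integrable.mono' ((iq2.const_mul ε).const_mul |(scal q ε).det|).integrableOn
          (by fun_prop) ?_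
        rw [ae_restrict_iff' (hmeas 1)]
        refine Filter.Eventually.of_forall fun v hv => ?_
        rw [smul_eq_mul, Real.norm_eq_abs, abs_of_nonneg (by positivity), inner_scal_q hq, abs_mul,
          abs_of_pos hε, mul_assoc]
        have := (hsq ε hε hε1 v hv).1
        gcongr
        linarith
      · exact ((iq2.const_mul _).const_mul _).integrableOn
      · exact hmeas 1
      · intro v hv
        rw [smul_eq_mul, inner_scal_q hq, abs_mul, abs_of_pos hε, mul_assoc]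
        have := (hsq ε hε hε1 v hv).1
        gcongr
        linarith
  refine ⟨(Jq + 1) / Jw, by positivity, fun ε hε hε1 => ?_⟩
  obtain ⟨h1, h2⟩ := hmain ε hε hε1
  have hdet : 0 < |(scal q ε).det| := by
    rw [abs_pos]
    intro h0
    have h3 : LinearMap.ker ((scal q ε : Eu n →L[ℝ] Eu n) : Eu n →ₗ[ℝ] Eu n) = ⊥ :=
      LinearMap.ker_eq_bot.2 (scal_inj hq hε)
    have h4 : LinearMap.det ((scal q ε : Eu n →L[ℝ] Eu n) : Eu n →ₗ[ℝ] Eu n) = 0 := h0
    exact (LinearMap.bot_lt_ker_of_det_eq_zero h4).ne' h3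
  refine ⟨lt_of_lt_of_le (by positivity) h1, h2.trans ?_⟩
  calc |(scal q ε).det| * (ε * Jq) ≤ |(scal q ε).det| * (ε * (Jq + 1)) := by gcongr; linarith
    _ = (Jq + 1) / Jw * ε * (|(scal q ε).det| * Jw) := by field_simp
    _ ≤ _ := by gcongr

end Pool.Agent.R776.Transl
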