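import Mathlib
import Pool.Agent.R776.Transl3
import Pool.Agent.R776.Transl4

set_option autoImplicit false

open MeasureTheory Set Metric Filter Topology
open Pool.Agent.S13718 (supp V le_supp supp_le supp_attained supp_continuous supp_integrable
  gauss_integrable supp_abs_le integral_pos_aux V_pos)

namespace Pool.Agent.R776.Transl

variable {n : ℕ}

lemma supp_abs_le_of_norm {K : Set (Eu n)} (hK : IsCompact K) (hne : K.Nonempty) {R : ℝ}
    (hR : ∀ y ∈ K, ‖y‖ ≤ R) (v : Eu n) : |supp K v| ≤ R * ‖v‖ := by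
  obtain ⟨y, hy, h⟩ := supp_attained hK hne v
  rw [← h]
  calc |@inner ℝ (Eu n) _ y v| ≤ ‖y‖ * ‖v‖ := abs_real_inner_le_norm y v
    _ ≤ R * ‖v‖ := by gcongr; exact hR y hy

/-- Decreasing intersections. -/
lemma tendsto_V_iInter {A : ℕ → Set (Eu n)} (hne : ∀ k, (A k).Nonempty)
    (hc : ∀ k, IsCompact (A k)) (hanti : ∀ k, A (k + 1) ⊆ A k) :
    (⋂ k, A k).Nonempty ∧ IsCompact (⋂ k, A k) ∧
      Tendsto (fun k => V (A k)) atTop (𝓝 (V (⋂ k, A k))) := by
  have hcl : ∀ k, IsClosed (A k) := fun k => (hc k).isClosed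
  have hBne : (⋂ k, A k).Nonempty :=
    IsCompact.nonempty_iInter_of_sequence_nonempty_isCompact_isClosed A hanti hne (hc 0) hcl
  have hBc : IsCompact (⋂ k, A k) :=
    (hc 0).of_isClosed_subset (isClosed_iInter hcl) (iInter_subset _ 0)
  have hA : Antitone A := antitone_nat_of_succ_le hanti
  refine ⟨hBne, hBc, ?_⟩
  obtain ⟨R, hR⟩ := (hc 0).isBounded.exists_norm_le
  have hsupp : ∀ v, Tendsto (fun k => supp (A k) v) atTop (𝓝 (supp (⋂ k, A k) v)) := by
    intro v
    have hanti' : Antitone (fun k => supp (A k) v) := fun i j hij =>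
      supp_mono (hne j) (hc i) (hA hij) v
    have hbdd : BddBelow (range fun k => supp (A k) v) := by
      refine ⟨supp (⋂ k, A k) v, ?_⟩
      rintro _ ⟨k, rfl⟩
      exact supp_mono hBne (hc k) (iInter_subset _ k) v
    have h1 := tendsto_atTop_ciInf hanti' hbdd
    have h2 : (⨅ k, supp (A k) v) = supp (⋂ k, A k) v := by
      apply le_antisymm
      · set c := ⨅ k, supp (A k) v with hcdef
        have h3 : (⋂ k, A k ∩ {y | c ≤ @inner ℝ (Eu n) _ y v}).Nonempty := by
          apply IsCompact.nonempty_iInter_of_sequence_nonempty_isCompact_isClosed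
          · intro k
            exact inter_subset_inter_left _ (hanti k)
          · intro k
            obtain ⟨y, hy, h⟩ := supp_attained (hc k) (hne k) v
            refine ⟨y, hy, ?_⟩
            rw [mem_ofPred_eq, h]
            exact ciInf_le hbdd k
          · exact (hc 0).inter_right (isClosed_le (by fun_prop) (by fun_prop))
          · intro k
            exact (hcl k).inter (isClosed_le (by fun_prop) (by fun_prop))
        obtain ⟨y, hy⟩ := h3
        rw [mem_iInter] at hy
        exact (hy 0).2.trans (le_supp hBc (mem_iInter.2 fun k => (hy k).1) v)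
      · exact le_ciInf fun k => supp_mono hBne (hc k) (iInter_subset _ k) v
    rw [← h2]
    exact h1
  unfold V
  refine tendsto_integral_of_dominated_convergence (fun v => R * (‖v‖ * Real.exp (-‖v‖ ^ 2)))
    ?_ (gauss_integrable.const_mul R) ?_ ?_
  · intro k
    apply Continuous.aestronglyMeasurable
    have := supp_continuous (hc k)
    fun_prop
  · intro k
    refine Filter.Eventually.of_forall fun v => ?_
    rw [Real.norm_eq_abs, abs_mul, abs_of_pos (Real.exp_pos _), ← mul_assoc]
    refine mul_le_mul_of_nonneg_right ?_ (Real.exp_pos _).le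
    exact supp_abs_le_of_norm (hc k) (hne k) (fun y hy => hR y (hA (Nat.zero_le k) hy)) v
  · exact Filter.Eventually.of_forall fun v => (hsupp v).mul_const _

/-- Equality from equal widths. -/
lemma eq_of_V_eq {K L : Set (Eu n)} (hK : IsCompact K) (hKc : Convex ℝ K) (hne : K.Nonempty)
    (hL : IsCompact L) (h : K ⊆ L) (hV : V K = V L) : K = L := by
  apply Subset.antisymm h
  by_contra hcon
  rw [not_subset] at hcon
  obtain ⟨y, hy, hyK⟩ := hcon
  have hLne : L.Nonempty := hne.mono h
  obtain ⟨f, u, h1, h2⟩ := geometric_hahn_banach_closed_point hKc hK.isClosed hyK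
  obtain ⟨v, hv⟩ : ∃ v : Eu n, ∀ x, f x = @inner ℝ (Eu n) _ x v := by
    refine ⟨(InnerProductSpace.toDual ℝ (Eu n)).symm f, fun x => ?_⟩
    rw [real_inner_comm, InnerProductSpace.toDual_symm_apply]
  have h3 : supp K v < supp L v := by
    have h4 : supp K v ≤ u := supp_le hne fun x hx => by rw [← hv]; exact (h1 x hx).le
    have h5 := le_supp hL hy v
    rw [← hv] at h5
    linarith
  have h6 : 0 < ∫ v : Eu n, (supp L v - supp K v) * Real.exp (-‖v‖ ^ 2) := by
    have := supp_continuous hK
    have := supp_continuous hL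
    refine integral_pos_aux (v := v) (by fun_prop) ?_ ?_ ?_
    · intro v'
      have := supp_mono hne hL h v'
      exact mul_nonneg (by linarith) (Real.exp_pos _).le
    · refine ((supp_integrable hL hLne).sub (supp_integrable hK hne)).congr
        (Filter.Eventually.of_forall fun v' => ?_)
      simp only [Pi.sub_apply]
      ring
    · exact mul_pos (by linarith) (Real.exp_pos _)
  have h7 : ∫ v : Eu n, (supp L v - supp K v) * Real.exp (-‖v‖ ^ 2) = V L - V K := by
    unfold V
    rw [← integral_sub (supp_integrable hL hLne) (supp_integrable hK hne)]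
    congr 1
    ext v
    ring
  linarith

lemma integral_inner_gauss (x : Eu n) :
    ∫ v : Eu n, @inner ℝ (Eu n) _ x v * Real.exp (-‖v‖ ^ 2) = 0 := by
  have h := integral_neg_eq_self (fun v : Eu n => @inner ℝ (Eu n) _ x v * Real.exp (-‖v‖ ^ 2))
    volume
  simp only [norm_neg, inner_neg_right, neg_mul, integral_neg] at h
  linarith

lemma inner_gauss_integrable' (w : Eu n) :
    Integrable (fun v : Eu n => @inner ℝ (Eu n) _ w v * Real.exp (-‖v‖ ^ 2)) := by
  have h1 : Integrable (fun v : Eu n => ‖w‖ * (‖v‖ * Real.exp (-‖v‖ ^ 2))) :=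
    gauss_integrable.const_mul _
  refine h1.mono' (by fun_prop) (Filter.Eventually.of_forall fun v => ?_)
  rw [Real.norm_eq_abs, abs_mul, abs_of_pos (Real.exp_pos _), ← mul_assoc]
  exact mul_le_mul_of_nonneg_right (abs_real_inner_le_norm w v) (Real.exp_pos _).le

lemma supp_translate {K : Set (Eu n)} (hK : IsCompact K) (hne : K.Nonempty) (x v : Eu n) :
    supp ((fun y => y + x) '' K) v = supp K v + @inner ℝ (Eu n) _ x v := by
  have hK' : IsCompact ((fun y => y + x) '' K) := hK.image (by fun_prop)
  apply le_antisymm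
  · apply supp_le (hne.image _)
    rintro _ ⟨y, hy, rfl⟩
    rw [inner_add_left]
    have := le_supp hK hy v
    linarith
  · obtain ⟨y, hy, h⟩ := supp_attained hK hne v
    rw [← h, ← inner_add_left]
    exact le_supp hK' ⟨y, hy, rfl⟩ v

lemma V_translate {K : Set (Eu n)} (hK : IsCompact K) (hne : K.Nonempty) (x : Eu n) :
    V ((fun y => y + x) '' K) = V K := by
  unfold V
  have h : ∀ v : Eu n, supp ((fun y => y + x) '' K) v * Real.exp (-‖v‖ ^ 2) =
      supp K v * Real.exp (-‖v‖ ^ 2) + @inner ℝ (Eu n) _ x v * Real.exp (-‖v‖ ^ 2) := by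
    intro v
    rw [supp_translate hK hne]
    ring
  simp_rw [h]
  rw [integral_add (supp_integrable hK hne) (inner_gauss_integrable' x), integral_inner_gauss,
    add_zero]

lemma cone_integral_zero {H : Submodule ℝ (Eu n)} {p w q x : Eu n} (hp : p ∈ H) (hw : w ∈ Hᗮ)
    (hq : q ∈ Hᗮ) (hx : x ∈ Hᗮ) (ε : ℝ) :
    ∫ v in cone p w q ε, @inner ℝ (Eu n) _ x v * Real.exp (-‖v‖ ^ 2) = 0 := by
  have hR : ∀ {a : Eu n}, a ∈ Hᗮ → ∀ v, @inner ℝ (Eu n) _ a (H.reflection v) =
      -@inner ℝ (Eu n) _ a v := by
    intro a ha v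
    rw [← H.reflection.inner_map_map, H.reflection_reflection,
      Submodule.reflection_mem_subspace_orthogonalComplement_eq_neg ha, inner_neg_left]
  have hRp : ∀ v, @inner ℝ (Eu n) _ p (H.reflection v) = @inner ℝ (Eu n) _ p v := by
    intro v
    rw [← H.reflection.inner_map_map, H.reflection_reflection,
      Submodule.reflection_mem_subspace_eq_self hp]
  have hpre : H.reflection ⁻¹' (cone p w q ε) = cone p w q ε := by
    ext v
    simp only [cone, mem_preimage, mem_ofPred_eq, hR hw, hR hq, hRp, abs_neg]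
  have h1 := (H.reflection.measurePreserving).setIntegral_preimage_emb
    H.reflection.toHomeomorph.measurableEmbedding
    (fun v : Eu n => @inner ℝ (Eu n) _ x v * Real.exp (-‖v‖ ^ 2)) (cone p w q ε)
  rw [hpre] at h1
  simp only [hR hx, LinearIsometryEquiv.norm_map, neg_mul, integral_neg] at h1
  linarith

end Pool.Agent.R776.Transl
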