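import Mathlib
import Pool.Agent.R776.Transl5

set_option autoImplicit false

open MeasureTheory Set Metric Filter Topology
open Pool.Agent.S13718 (supp V le_supp supp_le supp_attained supp_continuous supp_integrable
  gauss_integrable supp_abs_le integral_pos_aux V_pos)

namespace Pool.Agent.R776.Transl

variable {n : ℕ}

/-- Shrinking symmetric neighbourhoods (inside `S`) of the segment `[z - q, z + q]`. -/
def shr (S : Set (Eu n)) (z q : Eu n) (k : ℕ) : Set (Eu n) :=
  (fun a : ℝ × Eu n => (1 - 1 / ((k:ℝ) + 1)) • (z + a.1 • q) + (1 / ((k:ℝ) + 1)) • a.2) ''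
    (Icc (-1:ℝ) 1 ×ˢ S)

lemma mem_shr {S : Set (Eu n)} {z q : Eu n} {k : ℕ} {x : Eu n} : x ∈ shr S z q k ↔
    ∃ l ∈ Icc (-1:ℝ) 1, ∃ s ∈ S,
      x = (1 - 1 / ((k:ℝ) + 1)) • (z + l • q) + (1 / ((k:ℝ) + 1)) • s := by
  unfold shr
  constructor
  · rintro ⟨⟨l, s⟩, ⟨hl, hs⟩, rfl⟩
    exact ⟨l, hl, s, hs, rfl⟩
  · rintro ⟨l, hl, s, hs, rfl⟩
    exact ⟨(l, s), ⟨hl, hs⟩, rfl⟩

lemma delta_pos (k : ℕ) : 0 < 1 / ((k:ℝ) + 1) := by positivity

lemma delta_le (k : ℕ) : 1 / ((k:ℝ) + 1) ≤ 1 := by
  rw [div_le_one (by positivity)]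
  have : (0:ℝ) ≤ k := Nat.cast_nonneg k
  linarith

lemma shr_compact {S : Set (Eu n)} (hS : IsCompact S) (z q : Eu n) (k : ℕ) :
    IsCompact (shr S z q k) :=
  (isCompact_Icc.prod hS).image (by fun_prop)

lemma shr_convex {S : Set (Eu n)} (hS : Convex ℝ S) (z q : Eu n) (k : ℕ) :
    Convex ℝ (shr S z q k) := by
  intro x hx y hy a b ha hb hab
  rw [mem_shr] at hx hy ⊢
  obtain ⟨l, hl, s, hs, rfl⟩ := hx
  obtain ⟨l', hl', s', hs', rfl⟩ := hy
  refine ⟨a * l + b * l', ?_, a • s + b • s', hS hs hs' ha hb hab, ?_⟩
  · have := (convex_Icc (-1:ℝ) 1) hl hl' ha hb hab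
    simpa using this
  · have hb' : b = 1 - a := by linarith
    subst hb'
    module

lemma shr_cls {b : Bool} {S : Set (Eu n)} (hS : Cls b S) (z q : Eu n) (k : ℕ) :
    Cls b (shr S z q k) := by
  obtain ⟨s0, hs0⟩ := hS.1
  refine ⟨⟨_, mem_shr.2 ⟨0, by norm_num, s0, hs0, rfl⟩⟩, shr_compact hS.2.1 z q k,
    shr_convex hS.2.2.1 z q k, fun hb => ?_⟩
  have hd := delta_pos k
  have hop : IsOpenMap (fun s : Eu n => (1 - 1 / ((k:ℝ) + 1)) • (z + (0:ℝ) • q) +
      (1 / ((k:ℝ) + 1)) • s) :=
    (Homeomorph.addLeft ((1 - 1 / ((k:ℝ) + 1)) • (z + (0:ℝ) • q))).isOpenMap.comp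
      (isOpenMap_smul₀ hd.ne')
  have h1 := hop _ (isOpen_interior (s := S))
  refine ((hS.2.2.2 hb).image _).mono (interior_maximal ?_ h1)
  rintro _ ⟨s, hs, rfl⟩
  exact mem_shr.2 ⟨0, by norm_num, s, interior_subset hs, rfl⟩

lemma shr_symm {H : Submodule ℝ (Eu n)} {S : Set (Eu n)} (hs : H.reflection '' S = S)
    {z q : Eu n} (hz : z ∈ H) (hq : q ∈ Hᗮ) (k : ℕ) {x : Eu n} (hx : x ∈ shr S z q k) :
    H.reflection x ∈ shr S z q k := by
  rw [mem_shr] at hx ⊢
  obtain ⟨l, hl, s, hsS, rfl⟩ := hx
  refine ⟨-l, ⟨by linarith [hl.2], by linarith [hl.1]⟩, H.reflection s, maps_of_symm hs hsS, ?_⟩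
  simp only [map_add, map_smul, Submodule.reflection_mem_subspace_eq_self hz,
    Submodule.reflection_mem_subspace_orthogonalComplement_eq_neg hq]
  module

lemma seg_mem {S : Set (Eu n)} (hS : Convex ℝ S) {z q : Eu n} (h1 : z + q ∈ S) (h2 : z - q ∈ S)
    {l : ℝ} (hl : l ∈ Icc (-1:ℝ) 1) : z + l • q ∈ S := by
  have := hS h1 h2 (a := (1 + l) / 2) (b := (1 - l) / 2) (by linarith [hl.1]) (by linarith [hl.2])
    (by ring)
  convert this using 1
  module

lemma shr_succ {S : Set (Eu n)} (hS : Convex ℝ S) {z q : Eu n} (h1 : z + q ∈ S) (h2 : z - q ∈ S)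
    (k : ℕ) : shr S z q (k + 1) ⊆ shr S z q k := by
  intro x hx
  rw [mem_shr] at hx ⊢
  obtain ⟨l, hl, s, hs, rfl⟩ := hx
  set d := 1 / ((k:ℝ) + 1) with hd
  set d' := 1 / (((k + 1 : ℕ) : ℝ) + 1) with hd'
  have hdp : 0 < d := delta_pos k
  have hdp' : 0 < d' := delta_pos (k + 1)
  have hle : d' ≤ d := by
    rw [hd, hd']
    apply one_div_le_one_div_of_le (by positivity)
    push_cast
    linarith
  refine ⟨l, hl, ((d - d') / d) • (z + l • q) + (d' / d) • s,
    hS (seg_mem hS h1 h2 hl) hs (div_nonneg (by linarith) hdp.le) (by positivity) (by field_simp; ring), ?_⟩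
  rw [smul_add d, smul_smul, smul_smul, mul_div_cancel₀ _ hdp.ne', mul_div_cancel₀ _ hdp.ne']
  module

lemma shr_zero {S : Set (Eu n)} (z q : Eu n) : shr S z q 0 ⊆ S := by
  intro x hx
  rw [mem_shr] at hx
  obtain ⟨l, hl, s, hs, rfl⟩ := hx
  simpa using hs

lemma supp_shr {S : Set (Eu n)} (hS : IsCompact S) (hne : S.Nonempty) (z q : Eu n) (k : ℕ)
    (v : Eu n) : supp (shr S z q k) v =
      (1 - 1 / ((k:ℝ) + 1)) * (@inner ℝ (Eu n) _ z v + |@inner ℝ (Eu n) _ q v|) +
        1 / ((k:ℝ) + 1) * supp S v := by
  have hd := delta_pos k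
  have hd1 := delta_le k
  obtain ⟨s0, hs0⟩ := hne
  apply le_antisymm
  · apply supp_le ⟨_, mem_shr.2 ⟨0, by norm_num, s0, hs0, rfl⟩⟩
    intro y hy
    rw [mem_shr] at hy
    obtain ⟨l, hl, s, hs, rfl⟩ := hy
    rw [inner_add_left, real_inner_smul_left, real_inner_smul_left, inner_add_left,
      real_inner_smul_left]
    have h1 := le_supp hS hs v
    have h2 : l * @inner ℝ (Eu n) _ q v ≤ |@inner ℝ (Eu n) _ q v| := by
      calc l * @inner ℝ (Eu n) _ q v ≤ |l * @inner ℝ (Eu n) _ q v| := le_abs_self _
        _ = |l| * |@inner ℝ (Eu n) _ q v| := abs_mul _ _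
        _ ≤ 1 * |@inner ℝ (Eu n) _ q v| := by
            gcongr
            exact abs_le.2 hl
        _ = _ := one_mul _
    have h3 : (1 - 1 / ((k:ℝ) + 1)) * (@inner ℝ (Eu n) _ z v + l * @inner ℝ (Eu n) _ q v) ≤
        (1 - 1 / ((k:ℝ) + 1)) * (@inner ℝ (Eu n) _ z v + |@inner ℝ (Eu n) _ q v|) :=
      mul_le_mul_of_nonneg_left (by linarith) (by linarith)
    have h4 := mul_le_mul_of_nonneg_left h1 hd.le
    linarith
  · obtain ⟨s, hs, h⟩ := supp_attained hS ⟨s0, hs0⟩ v
    obtain ⟨l, hl, h2⟩ : ∃ l ∈ Icc (-1:ℝ) 1, l * @inner ℝ (Eu n) _ q v =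
        |@inner ℝ (Eu n) _ q v| := by
      rcases le_total 0 (@inner ℝ (Eu n) _ q v) with h' | h'
      · exact ⟨1, by norm_num, by rw [abs_of_nonneg h', one_mul]⟩
      · exact ⟨-1, by norm_num, by rw [abs_of_nonpos h']; ring⟩
    have h3 := le_supp (shr_compact hS z q k) (mem_shr.2 ⟨l, hl, s, hs, rfl⟩) v
    rw [inner_add_left, real_inner_smul_left, real_inner_smul_left, inner_add_left,
      real_inner_smul_left, h2, h] at h3
    exact h3

lemma V_shr {S : Set (Eu n)} (hS : IsCompact S) (hne : S.Nonempty) (z q : Eu n) (k : ℕ) :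
    V (shr S z q k) = (1 - 1 / ((k:ℝ) + 1)) *
      (∫ v : Eu n, |@inner ℝ (Eu n) _ q v| * Real.exp (-‖v‖ ^ 2)) +
        1 / ((k:ℝ) + 1) * V S := by
  have h : ∀ v : Eu n, supp (shr S z q k) v * Real.exp (-‖v‖ ^ 2) =
      (1 - 1 / ((k:ℝ) + 1)) * (@inner ℝ (Eu n) _ z v * Real.exp (-‖v‖ ^ 2) +
        |@inner ℝ (Eu n) _ q v| * Real.exp (-‖v‖ ^ 2)) +
        1 / ((k:ℝ) + 1) * (supp S v * Real.exp (-‖v‖ ^ 2)) := by
    intro v
    rw [supp_shr hS hne]
    ring
  have e1 : V (shr S z q k) = ∫ v : Eu n, ((1 - 1 / ((k:ℝ) + 1)) *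
      (@inner ℝ (Eu n) _ z v * Real.exp (-‖v‖ ^ 2) +
        |@inner ℝ (Eu n) _ q v| * Real.exp (-‖v‖ ^ 2)) +
        1 / ((k:ℝ) + 1) * (supp S v * Real.exp (-‖v‖ ^ 2))) := by
    unfold V
    simp_rw [h]
  have iA : Integrable (fun v : Eu n => (1 - 1 / ((k:ℝ) + 1)) *
      (@inner ℝ (Eu n) _ z v * Real.exp (-‖v‖ ^ 2) +
        |@inner ℝ (Eu n) _ q v| * Real.exp (-‖v‖ ^ 2))) :=
    ((inner_gauss_integrable' z).add (inner_gauss_integrable q)).const_mul _
  have iB : Integrable (fun v : Eu n => 1 / ((k:ℝ) + 1) * (supp S v * Real.exp (-‖v‖ ^ 2))) :=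
    (supp_integrable hS hne).const_mul _
  rw [e1, integral_add iA iB, integral_const_mul, integral_const_mul]
  rw [integral_add (inner_gauss_integrable' z) (inner_gauss_integrable q), integral_inner_gauss,
    zero_add]
  rfl

/-- The key statement: `T (S + x)` contains `S`. -/
lemma Good.subset {b : Bool} {H : Submodule ℝ (Eu n)} {T : Set (Eu n) → Set (Eu n)}
    (hT : Good b H T) (hH : ∃ p ∈ H, p ≠ 0) {S : Set (Eu n)} (hS : Cls b S)
    (hs : H.reflection '' S = S) {x : Eu n} (hx : x ∈ Hᗮ) {y : Eu n} (hy : y ∈ S) :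
    y ∈ T ((fun a => a + x) '' S) := by
  -- decompose y
  obtain ⟨z, hz, q, hq, rfl⟩ : ∃ z ∈ H, ∃ q ∈ Hᗮ, y = z + q :=
    ⟨H.starProjection y, Submodule.starProjection_apply_mem H y, y - H.starProjection y,
      Submodule.sub_starProjection_mem_orthogonal y, by abel⟩
  have hRy : z - q ∈ S := by
    have := maps_of_symm hs hy
    rw [map_add, Submodule.reflection_mem_subspace_eq_self hz,
      Submodule.reflection_mem_subspace_orthogonalComplement_eq_neg hq] at this
    rwa [sub_eq_add_neg]
  -- the sequences
  set K : ℕ → Set (Eu n) := fun k => (fun a => a + x) '' shr S z q k with hK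
  set A : ℕ → Set (Eu n) := fun k => T (K k) with hA
  have hSc : ∀ k, Cls b (shr S z q k) := shr_cls hS z q
  have htr : ∀ L : Set (Eu n), Cls b L → Cls b ((fun a => a + x) '' L) := by
    intro L hL
    refine ⟨hL.1.image _, hL.2.1.image (by fun_prop), ?_, fun hb => ?_⟩
    · have h : (fun a : Eu n => a + x) = fun a => x + a := by funext a; exact add_comm _ _
      rw [h]
      exact hL.2.2.1.translate x
    · have hop : IsOpenMap (fun a : Eu n => a + x) := (Homeomorph.addRight x).isOpenMap
      exact ((hL.2.2.2 hb).image _).mono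
        (interior_maximal (image_mono interior_subset) (hop _ isOpen_interior))
  have hKc : ∀ k, Cls b (K k) := fun k => htr _ (hSc k)
  have hAc : ∀ k, Cls b (A k) := fun k => hT.cls _ (hKc k)
  have hAanti : ∀ k, A (k + 1) ⊆ A k := fun k =>
    hT.mono _ _ (hKc _) (hKc _) (image_mono (shr_succ hS.2.2.1 hy hRy k))
  obtain ⟨hBne, hBc, hBV⟩ := tendsto_V_iInter (fun k => (hAc k).1) (fun k => (hAc k).2.1) hAanti
  set B : Set (Eu n) := ⋂ k, A k with hB
  set Vs : ℝ := ∫ v : Eu n, |@inner ℝ (Eu n) _ q v| * Real.exp (-‖v‖ ^ 2) with hVs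
  have hVB : V B = Vs := by
    have h1 : ∀ k, V (A k) = (1 - 1 / ((k:ℝ) + 1)) * Vs + 1 / ((k:ℝ) + 1) * V S := by
      intro k
      rw [hA]
      simp only
      rw [hT.width _ (hKc k), hK]
      simp only
      rw [V_translate (hSc k).2.1 (hSc k).1, V_shr hS.2.1 hS.1]
    have h2 : Tendsto (fun k : ℕ => (1 - 1 / ((k:ℝ) + 1)) * Vs + 1 / ((k:ℝ) + 1) * V S) atTop
        (𝓝 ((1 - 0) * Vs + 0 * V S)) :=
      ((tendsto_one_div_add_atTop_nhds_zero_nat.const_sub 1).mul_const _).add
        (tendsto_one_div_add_atTop_nhds_zero_nat.mul_const _)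
    simp_rw [h1] at hBV
    have := tendsto_nhds_unique hBV h2
    rw [this]
    ring
  have hBconv : Convex ℝ B := convex_iInter fun k => (hAc k).2.2.1
  have hBsymm : ∀ t ∈ B, H.reflection t ∈ B := by
    intro t ht
    rw [mem_iInter] at ht ⊢
    exact fun k => maps_of_symm (hT.symm _ (hKc k)) (ht k)
  -- location
  have hloc : ∀ t ∈ B, ∃ a c : ℝ, t - z = a • x + c • q := by
    intro t ht
    have hperp : ∀ u : Eu n, @inner ℝ (Eu n) _ x u = 0 → @inner ℝ (Eu n) _ q u = 0 →
        @inner ℝ (Eu n) _ (t - z) u = 0 := by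
      intro u hxu hqu
      obtain ⟨R, hR⟩ := hS.2.1.isBounded.exists_norm_le
      have hbound : ∀ k : ℕ, |@inner ℝ (Eu n) _ (t - z) u| ≤
          1 / ((k:ℝ) + 1) * ((R + ‖z‖) * ‖u‖) := by
        intro k
        -- the symmetric set containing K k
        set L : Set (Eu n) := (fun a : ℝ × Eu n => a.2 + a.1 • x) ''
          (Icc (-1:ℝ) 1 ×ˢ shr S z q k) with hL
        have hLc : Cls b L := by
          obtain ⟨s0, hs0⟩ := (hSc k).1
          refine ⟨⟨_, ⟨(0, s0), ⟨by norm_num, hs0⟩, rfl⟩⟩,
            (isCompact_Icc.prod (hSc k).2.1).image (by fun_prop), ?_, fun hb => ?_⟩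
          · rintro _ ⟨⟨l, s⟩, ⟨hl, hs⟩, rfl⟩ _ ⟨⟨l', s'⟩, ⟨hl', hs'⟩, rfl⟩ a c ha hc hac
            refine ⟨(a * l + c * l', a • s + c • s'), ⟨?_, (hSc k).2.2.1 hs hs' ha hc hac⟩, ?_⟩
            · have := (convex_Icc (-1:ℝ) 1) hl hl' ha hc hac
              simpa using this
            · simp only
              module
          · refine ((hSc k).2.2.2 hb).mono (interior_mono ?_)
            intro s hs
            exact ⟨(0, s), ⟨by norm_num, hs⟩, by simp⟩
        have hLs : H.reflection '' L = L := by
          apply symm_of_maps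
          rintro _ ⟨⟨l, s⟩, ⟨hl, hs'⟩, rfl⟩
          refine ⟨(-l, H.reflection s), ⟨⟨by linarith [hl.2], by linarith [hl.1]⟩,
            shr_symm hs hz hq k hs'⟩, ?_⟩
          simp only [map_add, map_smul,
            Submodule.reflection_mem_subspace_orthogonalComplement_eq_neg hx]
          module
        have hKL : K k ⊆ L := by
          rintro _ ⟨s, hs, rfl⟩
          exact ⟨(1, s), ⟨by norm_num, hs⟩, by simp⟩
        have htL : t ∈ L := by
          have h1 := hT.mono _ _ (hKc k) hLc hKL
          rw [hT.fix L hLc hLs] at h1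
          exact h1 (mem_iInter.1 ht k)
        obtain ⟨⟨l, s⟩, ⟨hl, hs'⟩, rfl⟩ := htL
        simp only at hs'
        rw [mem_shr] at hs'
        obtain ⟨m, hm, s', hs', rfl⟩ := hs'
        have e1 : (1 - 1 / ((k:ℝ) + 1)) • (z + m • q) + (1 / ((k:ℝ) + 1)) • s' + l • x - z =
            (1 / ((k:ℝ) + 1)) • (s' - z) + ((1 - 1 / ((k:ℝ) + 1)) * m) • q + l • x := by
          module
        simp only
        rw [e1, inner_add_left, inner_add_left, real_inner_smul_left, real_inner_smul_left,
          real_inner_smul_left, hxu, hqu, mul_zero, mul_zero, add_zero, add_zero, abs_mul,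
          abs_of_pos (delta_pos k)]
        refine mul_le_mul_of_nonneg_left ?_ (delta_pos k).le
        refine (abs_real_inner_le_norm _ _).trans ?_
        gcongr
        exact (norm_sub_le _ _).trans (by linarith [hR s' hs'])
      have h1 : Tendsto (fun k : ℕ => 1 / ((k:ℝ) + 1) * ((R + ‖z‖) * ‖u‖)) atTop
          (𝓝 (0 * ((R + ‖z‖) * ‖u‖))) := tendsto_one_div_add_atTop_nhds_zero_nat.mul_const _
      rw [zero_mul] at h1
      have h2 := ge_of_tendsto' h1 hbound
      exact abs_eq_zero.1 (le_antisymm h2 (abs_nonneg _))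
    have hmem : t - z ∈ Submodule.span ℝ ({x, q} : Set (Eu n)) := by
      rw [← Submodule.orthogonal_orthogonal (Submodule.span ℝ ({x, q} : Set (Eu n)))]
      rw [Submodule.mem_orthogonal]
      intro u hu
      rw [Submodule.mem_orthogonal] at hu
      rw [real_inner_comm]
      exact hperp u (hu x (Submodule.subset_span (by simp)))
        (hu q (Submodule.subset_span (by simp)))
    rw [Submodule.mem_span_pair] at hmem
    obtain ⟨a, c, h⟩ := hmem
    exact ⟨a, c, h.symm⟩
  have hBref : ∀ t ∈ B, t - z ∈ Hᗮ ∧ z - (t - z) ∈ B := by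
    intro t ht
    obtain ⟨a, c, h⟩ := hloc t ht
    have h1 : t - z ∈ Hᗮ := by
      rw [h]
      exact Submodule.add_mem _ (Submodule.smul_mem _ _ hx) (Submodule.smul_mem _ _ hq)
    refine ⟨h1, ?_⟩
    have h2 := hBsymm t ht
    have h3 : H.reflection t = z - (t - z) := by
      have : t = z + (t - z) := by abel
      conv_lhs => rw [this]
      rw [map_add, Submodule.reflection_mem_subspace_eq_self hz,
        Submodule.reflection_mem_subspace_orthogonalComplement_eq_neg h1, ← sub_eq_add_neg]
    rwa [h3] at h2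
  -- it suffices that y ∈ B
  suffices hyB : z + q ∈ B by
    have h1 : z + q ∈ A 0 := mem_iInter.1 hyB 0
    exact hT.mono _ _ (hKc 0) (htr S hS) (image_mono (shr_zero z q)) h1
  by_cases hq0 : q = 0
  · -- degenerate case
    obtain ⟨t, ht⟩ := hBne
    obtain ⟨h1, h2⟩ := hBref t ht
    have hV0 : V B = 0 := by
      rw [hVB, hVs, hq0]
      simp
    have h3 : t = z - (t - z) := by
      by_contra hne
      exact (V_pos hBc ht h2 hne).ne' hV0
    have h4 : t = z := by
      have h5 : (2:ℝ) • (t - z) = 0 := by
        have : (2:ℝ) • (t - z) = t - (z - (t - z)) := by module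
        rw [this, ← h3, sub_self]
      have h6 := (smul_eq_zero.1 h5).resolve_left (by norm_num)
      exact sub_eq_zero.1 h6
    rw [hq0, add_zero, ← h4]
    exact ht
  · -- main case
    have hqn : 0 < ‖q‖ := norm_pos_iff.2 hq0
    have hVs0 : 0 < Vs := by
      rw [hVs]
      refine integral_pos_aux (v := q) (by fun_prop) (fun v => by positivity)
        (inner_gauss_integrable q) ?_
      rw [real_inner_self_eq_norm_sq, abs_of_pos (by positivity)]
      positivity
    -- all points of B lie on z + ℝ q
    have hline : ∀ t ∈ B, ∃ c : ℝ, t = z + c • q := by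
      intro t ht
      obtain ⟨a, c, hac⟩ := hloc t ht
      set lam : ℝ := @inner ℝ (Eu n) _ q x / ‖q‖ ^ 2 with hlam
      set w : Eu n := x - lam • q with hw
      have hxw : x = w + lam • q := by rw [hw]; abel
      have hwH : w ∈ Hᗮ := Submodule.sub_mem _ hx (Submodule.smul_mem _ _ hq)
      have hwq : @inner ℝ (Eu n) _ w q = 0 := by
        rw [hw, inner_sub_left, real_inner_smul_left, real_inner_self_eq_norm_sq, hlam,
          real_inner_comm]
        field_simp
        ring
      have hdec : t - z = a • w + (a * lam + c) • q := by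
        rw [hac]
        conv_lhs => rw [hxw]
        module
      clear_value w lam
      have haw : a • w = 0 := by
        by_cases hw0 : w = 0
        · rw [hw0, smul_zero]
        · obtain ⟨p0, hp0H, hp00⟩ := hH
          have hp0n : 0 < ‖p0‖ := norm_pos_iff.2 hp00
          set p : Eu n := (‖q‖ / ‖p0‖) • p0 with hp
          have hpH : p ∈ H := Submodule.smul_mem _ _ hp0H
          have hpn : ‖p‖ = ‖q‖ := by
            rw [hp, norm_smul, Real.norm_of_nonneg (by positivity), div_mul_cancel₀ _ hp0n.ne']
          have hp_ne : p ≠ 0 := by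
            rw [← norm_pos_iff, hpn]
            exact hqn
          clear_value p
          have hpw : @inner ℝ (Eu n) _ p w = 0 := (Submodule.mem_orthogonal _ _).1 hwH p hpH
          have hpq : @inner ℝ (Eu n) _ p q = 0 := (Submodule.mem_orthogonal _ _).1 hq p hpH
          obtain ⟨C, hC, hratio⟩ := cone_ratio hp_ne hw0 hq0 hpw hpq hwq hpn.le
          obtain ⟨R, hR⟩ := hS.2.1.isBounded.exists_norm_le
          set G : ℝ := ∫ v : Eu n, ‖v‖ * Real.exp (-‖v‖ ^ 2) with hG
          -- the basic inequality
          have hbasic : ∀ ε : ℝ, 0 < ε → ε ≤ 1 →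
              (∫ v in cone p w q ε, |@inner ℝ (Eu n) _ (t - z) v| * Real.exp (-‖v‖ ^ 2)) ≤
              ∫ v in cone p w q ε, |@inner ℝ (Eu n) _ q v| * Real.exp (-‖v‖ ^ 2) := by
            intro ε hε hε1
            have hmeas : MeasurableSet (cone p w q ε) := (cone_closed p w q ε).measurableSet
            set s : ℝ := 1 + |lam| with hsdef
            have hk : ∀ k : ℕ,
                (∫ v in cone p w q ε, |@inner ℝ (Eu n) _ (t - z) v| * Real.exp (-‖v‖ ^ 2)) ≤
                (∫ v in cone p w q ε, |@inner ℝ (Eu n) _ q v| * Real.exp (-‖v‖ ^ 2)) +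
                  1 / ((k:ℝ) + 1) * ((R + ‖z‖) * G) := by
              intro k
              have h1 := hT.cone_ineq (hKc k) hz hpH hwH hq ε s
              have i1 := inner_gauss_integrable (t - z)
              have i2 := inner_gauss_integrable' p
              have i3 := inner_gauss_integrable' x
              have i4 := inner_gauss_integrable q
              have hTK := hAc k
              have hbφ : ∀ v : Eu n, |@inner ℝ (Eu n) _ (z - s • p) v| ≤ ‖z - s • p‖ * ‖v‖ :=
                fun v => abs_real_inner_le_norm _ _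
              have j1 := integrable_max hTK.2.1 hTK.1
                (g := fun v => @inner ℝ (Eu n) _ (z - s • p) v) (by fun_prop) hbφ
              have j2 := integrable_max (hKc k).2.1 (hKc k).1
                (g := fun v => @inner ℝ (Eu n) _ (z - s • p) v) (by fun_prop) hbφ
              -- lower bound for the left side
              have h2 : (∫ v in cone p w q ε, (|@inner ℝ (Eu n) _ (t - z) v| *
                  Real.exp (-‖v‖ ^ 2) + s * (@inner ℝ (Eu n) _ p v * Real.exp (-‖v‖ ^ 2)))) ≤
                  ∫ v in cone p w q ε, max (supp (T (K k)) v -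
                    @inner ℝ (Eu n) _ (z - s • p) v) 0 * Real.exp (-‖v‖ ^ 2) := by
                apply setIntegral_mono_on (i1.add (i2.const_mul s)).integrableOn
                  j1.integrableOn hmeas
                intro v hv
                simp only [Pi.add_apply]
                have e1 := le_supp hTK.2.1 (mem_iInter.1 ht k) v
                have e2 := le_supp hTK.2.1 (mem_iInter.1 (hBref t ht).2 k) v
                rw [inner_sub_left z, inner_sub_left t] at e2
                have e3 : |@inner ℝ (Eu n) _ (t - z) v| ≤ supp (A k) v - @inner ℝ (Eu n) _ z v := by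
                  rw [abs_le, inner_sub_left]
                  constructor <;> linarith
                have e4 : |@inner ℝ (Eu n) _ (t - z) v| + s * @inner ℝ (Eu n) _ p v ≤
                    max (supp (T (K k)) v - @inner ℝ (Eu n) _ (z - s • p) v) 0 := by
                  refine le_trans ?_ (le_max_left _ _)
                  rw [inner_sub_left z, real_inner_smul_left]
                  have e5 : supp (A k) v = supp (T (K k)) v := rfl
                  linarith
                calc _ = (|@inner ℝ (Eu n) _ (t - z) v| + s * @inner ℝ (Eu n) _ p v) *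
                      Real.exp (-‖v‖ ^ 2) := by ring
                  _ ≤ _ := by gcongr
              -- upper bound for the right side
              have h3 : (∫ v in cone p w q ε, max (supp (K k) v -
                    @inner ℝ (Eu n) _ (z - s • p) v) 0 * Real.exp (-‖v‖ ^ 2)) ≤
                  ∫ v in cone p w q ε, ((@inner ℝ (Eu n) _ x v * Real.exp (-‖v‖ ^ 2) +
                    |@inner ℝ (Eu n) _ q v| * Real.exp (-‖v‖ ^ 2)) +
                    s * (@inner ℝ (Eu n) _ p v * Real.exp (-‖v‖ ^ 2)) +
                    1 / ((k:ℝ) + 1) * ((R + ‖z‖) * (‖v‖ * Real.exp (-‖v‖ ^ 2)))) := by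
                apply setIntegral_mono_on j2.integrableOn
                  ((((i3.add i4).add (i2.const_mul s)).add
                    ((gauss_integrable.const_mul _).const_mul _))).integrableOn hmeas
                intro v hv
                simp only [Pi.add_apply]
                have hqz : |@inner ℝ (Eu n) _ q v| ≤ @inner ℝ (Eu n) _ p v :=
                  hv.2.trans (by
                    have : 0 ≤ @inner ℝ (Eu n) _ p v := (abs_nonneg _).trans hv.1
                    nlinarith)
                have e1 : supp (K k) v = (1 - 1 / ((k:ℝ) + 1)) * (@inner ℝ (Eu n) _ z v +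
                    |@inner ℝ (Eu n) _ q v|) + 1 / ((k:ℝ) + 1) * supp S v +
                    @inner ℝ (Eu n) _ x v := by
                  rw [hK]
                  simp only
                  rw [supp_translate (hSc k).2.1 (hSc k).1, supp_shr hS.2.1 hS.1]
                have e2 : supp S v ≤ R * ‖v‖ :=
                  (le_abs_self _).trans (supp_abs_le_of_norm hS.2.1 hS.1 hR v)
                have e3 : -(‖z‖ * ‖v‖) ≤ @inner ℝ (Eu n) _ z v :=
                  (abs_le.1 (abs_real_inner_le_norm z v)).1
                have e4 := delta_pos k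
                have e5 : supp (K k) v - @inner ℝ (Eu n) _ (z - s • p) v ≤
                    (@inner ℝ (Eu n) _ x v + |@inner ℝ (Eu n) _ q v|) +
                    s * @inner ℝ (Eu n) _ p v + 1 / ((k:ℝ) + 1) * ((R + ‖z‖) * ‖v‖) := by
                  rw [e1, inner_sub_left z, real_inner_smul_left]
                  have e6 : 1 / ((k:ℝ) + 1) * (supp S v - @inner ℝ (Eu n) _ z v -
                      |@inner ℝ (Eu n) _ q v|) ≤ 1 / ((k:ℝ) + 1) * ((R + ‖z‖) * ‖v‖) := by
                    apply mul_le_mul_of_nonneg_left _ e4.le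
                    have := abs_nonneg (@inner ℝ (Eu n) _ q v)
                    linarith
                  linarith
                have e7 : 0 ≤ (@inner ℝ (Eu n) _ x v + |@inner ℝ (Eu n) _ q v|) +
                    s * @inner ℝ (Eu n) _ p v + 1 / ((k:ℝ) + 1) * ((R + ‖z‖) * ‖v‖) := by
                  have e8 : @inner ℝ (Eu n) _ x v = @inner ℝ (Eu n) _ w v +
                      lam * @inner ℝ (Eu n) _ q v := by
                    conv_lhs => rw [hxw]
                    rw [inner_add_left, real_inner_smul_left]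
                  have e9 : -@inner ℝ (Eu n) _ p v ≤ @inner ℝ (Eu n) _ w v := (abs_le.1 hv.1).1
                  have e10 : -(|lam| * @inner ℝ (Eu n) _ p v) ≤ lam * @inner ℝ (Eu n) _ q v := by
                    have : |lam * @inner ℝ (Eu n) _ q v| ≤ |lam| * @inner ℝ (Eu n) _ p v := by
                      rw [abs_mul]
                      gcongr
                    exact (abs_le.1 this).1
                  have hR0 : 0 ≤ R := (norm_nonneg _).trans (hR _ hy)
                  have e11 : 0 ≤ 1 / ((k:ℝ) + 1) * ((R + ‖z‖) * ‖v‖) := by positivity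
                  have e12 := abs_nonneg (@inner ℝ (Eu n) _ q v)
                  rw [e8, hsdef]
                  linarith
                calc max (supp (K k) v - @inner ℝ (Eu n) _ (z - s • p) v) 0 *
                      Real.exp (-‖v‖ ^ 2) ≤ ((@inner ℝ (Eu n) _ x v + |@inner ℝ (Eu n) _ q v|) +
                    s * @inner ℝ (Eu n) _ p v + 1 / ((k:ℝ) + 1) * ((R + ‖z‖) * ‖v‖)) *
                      Real.exp (-‖v‖ ^ 2) := by
                      gcongr
                      exact max_le e5 e7
                  _ = _ := by ring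
              rw [integral_add i1.integrableOn (i2.const_mul s).integrableOn] at h2
              have jA : Integrable (fun v : Eu n => @inner ℝ (Eu n) _ x v *
                  Real.exp (-‖v‖ ^ 2) + |@inner ℝ (Eu n) _ q v| * Real.exp (-‖v‖ ^ 2)) :=
                i3.add i4
              have jB : Integrable (fun v : Eu n => @inner ℝ (Eu n) _ x v *
                  Real.exp (-‖v‖ ^ 2) + |@inner ℝ (Eu n) _ q v| * Real.exp (-‖v‖ ^ 2) +
                  s * (@inner ℝ (Eu n) _ p v * Real.exp (-‖v‖ ^ 2))) :=
                jA.add (i2.const_mul s)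
              have jC : Integrable (fun v : Eu n => 1 / ((k:ℝ) + 1) * ((R + ‖z‖) *
                  (‖v‖ * Real.exp (-‖v‖ ^ 2)))) := (gauss_integrable.const_mul _).const_mul _
              rw [integral_add jB.integrableOn jC.integrableOn,
                integral_add jA.integrableOn (i2.const_mul s).integrableOn,
                integral_add i3.integrableOn i4.integrableOn,
                cone_integral_zero hpH hwH hq hx ε, zero_add, integral_const_mul (1 / ((k:ℝ) + 1)),
                integral_const_mul (R + ‖z‖)] at h3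
              have hR0 : 0 ≤ R := (norm_nonneg _).trans (hR _ hy)
              have h4 : (∫ v in cone p w q ε, ‖v‖ * Real.exp (-‖v‖ ^ 2)) ≤ G := by
                apply setIntegral_le_integral gauss_integrable
                exact Filter.Eventually.of_forall fun v => by
                  simp only [Pi.zero_apply]; positivity
              have h5 : 1 / ((k:ℝ) + 1) * ((R + ‖z‖) *
                  ∫ v in cone p w q ε, ‖v‖ * Real.exp (-‖v‖ ^ 2)) ≤
                  1 / ((k:ℝ) + 1) * ((R + ‖z‖) * G) := by
                have := delta_pos k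
                gcongr
              linarith
            have h6 : Tendsto (fun k : ℕ =>
                (∫ v in cone p w q ε, |@inner ℝ (Eu n) _ q v| * Real.exp (-‖v‖ ^ 2)) +
                  1 / ((k:ℝ) + 1) * ((R + ‖z‖) * G)) atTop
                (𝓝 ((∫ v in cone p w q ε, |@inner ℝ (Eu n) _ q v| * Real.exp (-‖v‖ ^ 2)) +
                  0 * ((R + ‖z‖) * G))) :=
              (tendsto_one_div_add_atTop_nhds_zero_nat.mul_const _).const_add _
            rw [zero_mul, add_zero] at h6
            exact ge_of_tendsto' h6 hk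
          -- conclude a = 0
          have ha : |a| ≤ 0 := by
            have hε : ∀ ε : ℝ, 0 < ε → ε ≤ 1 → |a| ≤ (1 + |a * lam + c|) * C * ε := by
              intro ε hε hε1
              have hmeas : MeasurableSet (cone p w q ε) := (cone_closed p w q ε).measurableSet
              obtain ⟨h1, h2⟩ := hratio ε hε hε1
              have h3 := hbasic ε hε hε1
              set Iw := ∫ v in cone p w q ε, |@inner ℝ (Eu n) _ w v| * Real.exp (-‖v‖ ^ 2) with hIw
              set Iq := ∫ v in cone p w q ε, |@inner ℝ (Eu n) _ q v| * Real.exp (-‖v‖ ^ 2) with hIq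
              have h4 : |a| * Iw - |a * lam + c| * Iq ≤
                  ∫ v in cone p w q ε, |@inner ℝ (Eu n) _ (t - z) v| * Real.exp (-‖v‖ ^ 2) := by
                rw [hIw, hIq, ← integral_const_mul, ← integral_const_mul, ← integral_sub
                  ((inner_gauss_integrable w).const_mul _).integrableOn
                  ((inner_gauss_integrable q).const_mul _).integrableOn]
                apply setIntegral_mono_on
                  (((inner_gauss_integrable w).const_mul _).sub
                  ((inner_gauss_integrable q).const_mul _)).integrableOn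
                  (inner_gauss_integrable (t - z)).integrableOn hmeas
                intro v _
                simp only [Pi.sub_apply]
                have h5 : |a| * |@inner ℝ (Eu n) _ w v| - |a * lam + c| * |@inner ℝ (Eu n) _ q v| ≤
                    |@inner ℝ (Eu n) _ (t - z) v| := by
                  rw [hdec, inner_add_left, real_inner_smul_left, real_inner_smul_left,
                    ← abs_mul, ← abs_mul]
                  have := abs_sub_abs_le_abs_sub (a * @inner ℝ (Eu n) _ w v)
                    (-((a * lam + c) * @inner ℝ (Eu n) _ q v))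
                  rw [abs_neg, sub_neg_eq_add] at this
                  exact this
                calc _ = (|a| * |@inner ℝ (Eu n) _ w v| - |a * lam + c| *
                      |@inner ℝ (Eu n) _ q v|) * Real.exp (-‖v‖ ^ 2) := by ring
                  _ ≤ _ := by gcongr
              have h6 : |a| * Iw ≤ (1 + |a * lam + c|) * Iq := by linarith
              have h7 : |a| * Iw ≤ ((1 + |a * lam + c|) * C * ε) * Iw := by
                refine h6.trans ?_
                have : (1 + |a * lam + c|) * Iq ≤ (1 + |a * lam + c|) * (C * ε * Iw) := by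
                  gcongr
                refine this.trans (le_of_eq ?_)
                ring
              exact le_of_mul_le_mul_right h7 h1
            have h8 : Tendsto (fun k : ℕ => (1 + |a * lam + c|) * C * (1 / ((k:ℝ) + 1))) atTop
                (𝓝 ((1 + |a * lam + c|) * C * 0)) :=
              tendsto_one_div_add_atTop_nhds_zero_nat.const_mul _
            rw [mul_zero] at h8
            exact ge_of_tendsto' h8 fun k => hε _ (delta_pos k) (delta_le k)
          have ha0 : a = 0 := abs_eq_zero.1 (le_antisymm ha (abs_nonneg _))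
          rw [ha0, zero_smul]
      refine ⟨a * lam + c, ?_⟩
      rw [haw, zero_add] at hdec
      rw [← hdec]
      abel
    -- the extreme point
    obtain ⟨t0, ht0, ht0max⟩ := supp_attained hBc hBne q
    obtain ⟨c0, rfl⟩ := hline t0 ht0
    have hbound : ∀ t ∈ B, ∃ c : ℝ, t = z + c • q ∧ |c| ≤ c0 := by
      intro t ht
      obtain ⟨c, rfl⟩ := hline t ht
      refine ⟨c, rfl, ?_⟩
      have e1 := le_supp hBc ht q
      have e2 := le_supp hBc (hBref _ ht).2 q
      rw [← ht0max] at e1 e2
      rw [inner_add_left, inner_add_left, real_inner_smul_left, real_inner_smul_left,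
        real_inner_self_eq_norm_sq] at e1
      have e3 : z - (z + c • q - z) = z + (-c) • q := by module
      rw [e3, inner_add_left, inner_add_left, real_inner_smul_left, real_inner_smul_left,
        real_inner_self_eq_norm_sq] at e2
      have hq2 : 0 < ‖q‖ ^ 2 := by positivity
      rw [abs_le]
      constructor
      · by_contra hcon
        push Not at hcon
        nlinarith
      · by_contra hcon
        push Not at hcon
        nlinarith
    have hc01 : 1 ≤ c0 := by
      have h1 : V B ≤ c0 * Vs := by
        have h2 : ∫ v : Eu n, (@inner ℝ (Eu n) _ z v * Real.exp (-‖v‖ ^ 2) +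
            c0 * (|@inner ℝ (Eu n) _ q v| * Real.exp (-‖v‖ ^ 2))) = c0 * Vs := by
          rw [integral_add (inner_gauss_integrable' z) ((inner_gauss_integrable q).const_mul _),
            integral_inner_gauss, integral_const_mul, zero_add]
        rw [← h2]
        unfold V
        apply integral_mono (supp_integrable hBc hBne)
          ((inner_gauss_integrable' z).add ((inner_gauss_integrable q).const_mul _))
        intro v
        simp only [Pi.add_apply]
        have h3 : supp B v ≤ @inner ℝ (Eu n) _ z v + c0 * |@inner ℝ (Eu n) _ q v| := by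
          apply supp_le hBne
          intro t ht
          obtain ⟨c, rfl, hc⟩ := hbound t ht
          rw [inner_add_left, real_inner_smul_left]
          have h4 : c * @inner ℝ (Eu n) _ q v ≤ |c| * |@inner ℝ (Eu n) _ q v| := by
            rw [← abs_mul]
            exact le_abs_self _
          have h5 : |c| * |@inner ℝ (Eu n) _ q v| ≤ c0 * |@inner ℝ (Eu n) _ q v| := by gcongr
          linarith
        calc _ ≤ (@inner ℝ (Eu n) _ z v + c0 * |@inner ℝ (Eu n) _ q v|) *
              Real.exp (-‖v‖ ^ 2) := by gcongr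
          _ = _ := by ring
      rw [hVB] at h1
      nlinarith
    -- y is a convex combination
    have h2 := (hBref _ ht0).2
    have e3 : z - (z + c0 • q - z) = z + (-c0) • q := by module
    rw [e3] at h2
    have hc0 : 0 < c0 := by linarith
    have h3 := hBconv ht0 h2 (a := (1 + 1 / c0) / 2) (b := (1 - 1 / c0) / 2)
      (by positivity) (by
        have : 1 / c0 ≤ 1 := by rw [div_le_one hc0]; exact hc01
        linarith) (by ring)
    have e4 : ((1 + 1 / c0) / 2) • (z + c0 • q) + ((1 - 1 / c0) / 2) • (z + (-c0) • q) = z + q := by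
      have : ((1 + 1 / c0) / 2) • (z + c0 • q) + ((1 - 1 / c0) / 2) • (z + (-c0) • q) =
          z + (1 / c0 * c0) • q := by module
      rw [this, one_div_mul_cancel hc0.ne', one_smul]
    rwa [e4] at h3

/-- The main theorem for `H ≠ 0`. -/
theorem Good.main {b : Bool} {H : Submodule ℝ (Eu n)} {T : Set (Eu n) → Set (Eu n)}
    (hT : Good b H T) (hH : ∃ p ∈ H, p ≠ 0) {S : Set (Eu n)} (hS : Cls b S)
    (hs : H.reflection '' S = S) {x : Eu n} (hx : x ∈ Hᗮ) :
    T ((fun a => a + x) '' S) = S := by
  have htr : Cls b ((fun a => a + x) '' S) := by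
    refine ⟨hS.1.image _, hS.2.1.image (by fun_prop), ?_, fun hb => ?_⟩
    · have h : (fun a : Eu n => a + x) = fun a => x + a := by funext a; exact add_comm _ _
      rw [h]
      exact hS.2.2.1.translate x
    · have hop : IsOpenMap (fun a : Eu n => a + x) := (Homeomorph.addRight x).isOpenMap
      exact ((hS.2.2.2 hb).image _).mono
        (interior_maximal (image_mono interior_subset) (hop _ isOpen_interior))
  have hTc := hT.cls _ htr
  refine (eq_of_V_eq hS.2.1 hS.2.2.1 hS.1 hTc.2.1
    (fun y hy => hT.subset hH hS hs hx hy) ?_).symm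
  rw [hT.width _ htr, V_translate hS.2.1 hS.1]

end Pool.Agent.R776.Transl
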